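import Pool.Agent.NPP.Stmts

/-!
# NPP: APP, the approximation of monotone programs by families with few sets of every size
-/

set_option autoImplicit false

namespace Pool.Agent.NPP

open Finset Pool.Agent.NegLim Pool.Agent.NLM Pool.Agent.NEG72

namespace APPM

theorem geom_nat {w : ℕ} (hw : 2 ≤ w) (l : ℕ) : ∑ a ∈ range (l + 1), w ^ a ≤ 2 * w ^ l := by
  induction l with
  | zero => simp
  | succ l ih =>
    rw [sum_range_succ]
    have h1 : 2 * w ^ l ≤ w ^ (l + 1) := by
      rw [pow_succ, mul_comm]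
      exact Nat.mul_le_mul_left _ hw
    omega

theorem geom_rat (h n : ℕ) :
    ∑ a ∈ Ioc h (h + n), ((1 : ℚ) / 4) ^ a ≤ (1 / 4) ^ h / 3 - (1 / 4) ^ (h + n) / 3 := by
  induction n with
  | zero => simp
  | succ n ih =>
    have h1 : Ioc h (h + (n + 1)) = insert (h + n + 1) (Ioc h (h + n)) := by
      ext a
      simp only [mem_Ioc, mem_insert]
      omega
    rw [h1, sum_insert (by simp)]
    have h2 : ((1 : ℚ) / 4) ^ (h + (n + 1)) = (1 / 4) ^ (h + n) * (1 / 4) := by
      rw [← add_assoc, pow_succ]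
    have h3 : ((1 : ℚ) / 4) ^ (h + n + 1) = (1 / 4) ^ (h + n) * (1 / 4) := pow_succ _ _
    rw [h2, h3]
    linarith

section

variable {V E P : Type} [Fintype V] [DecidableEq V] [Fintype P] [DecidableEq P]

omit [Fintype V] [DecidableEq V] in
theorem card_fam {A : Finset (Finset V)} {l w : ℕ} (hw : 2 ≤ w) (hs : ∀ X ∈ A, X.card ≤ l)
    (ha : ∀ a, (A.filter fun X => X.card = a).card ≤ w ^ a) : A.card ≤ 2 * w ^ l := by
  rw [card_eq_sum_card_fiberwise (f := fun X : Finset V => X.card) (t := range (l + 1))]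
  · exact (sum_le_sum fun a _ => ha a).trans (geom_nat hw l)
  · intro X hX
    simp only [coe_range, Set.mem_Iio]
    exact Nat.lt_succ_of_le (hs X hX)

omit [Fintype V] in
theorem big (K : P → Finset V) {A : Finset (Finset V)} {h w b : ℕ} (hw : 2 ≤ w)
    (hb : 4 * w ≤ b) (hs : ∀ X ∈ A, X.card ≤ 2 * h)
    (ha : ∀ a, (A.filter fun X => X.card = a).card ≤ w ^ a)
    (hR : ∀ Y : Finset V, ((univ : Finset P).filter fun π => Y ⊆ K π).card * b ^ Y.card ≤
      Fintype.card P) :
    3 * ((univ : Finset P).filter fun π => ∃ X ∈ A, h < X.card ∧ X ⊆ K π).card * 4 ^ h ≤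
      Fintype.card P := by
  have hb0 : (0 : ℚ) < b := by
    have : 0 < b := by omega
    exact_mod_cast this
  have hsub : ((univ : Finset P).filter fun π => ∃ X ∈ A, h < X.card ∧ X ⊆ K π) ⊆
      (A.filter fun X => h < X.card).biUnion fun X => (univ : Finset P).filter fun π => X ⊆ K π := by
    intro π hπ
    obtain ⟨X, hX, hXh, hXK⟩ := (mem_filter.1 hπ).2
    rw [mem_biUnion]
    exact ⟨X, mem_filter.2 ⟨hX, hXh⟩, mem_filter.2 ⟨mem_univ _, hXK⟩⟩
  have h1 := (card_le_card hsub).trans card_biUnion_le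
  have h2 : (((univ : Finset P).filter fun π => ∃ X ∈ A, h < X.card ∧ X ⊆ K π).card : ℚ) ≤
      ∑ X ∈ A.filter fun X => h < X.card, (Fintype.card P : ℚ) / b ^ X.card := by
    have h2 : (((univ : Finset P).filter fun π => ∃ X ∈ A, h < X.card ∧ X ⊆ K π).card : ℚ) ≤
        ∑ X ∈ A.filter fun X => h < X.card,
          (((univ : Finset P).filter fun π => X ⊆ K π).card : ℚ) := by
      exact_mod_cast h1
    refine h2.trans (sum_le_sum fun X _ => ?_)
    rw [le_div_iff₀ (by positivity)]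
    exact_mod_cast hR X
  have h3 : ∑ X ∈ A.filter fun X => h < X.card, (Fintype.card P : ℚ) / b ^ X.card =
      ∑ a ∈ Ioc h (h + h), ∑ X ∈ (A.filter fun X => h < X.card).filter fun X => X.card = a,
        (Fintype.card P : ℚ) / b ^ X.card := by
    refine (sum_fiberwise_of_maps_to (fun X hX => ?_) _).symm
    rw [mem_filter] at hX
    have := hs X hX.1
    rw [mem_Ioc]
    omega
  have h4 : ∑ a ∈ Ioc h (h + h), ∑ X ∈ (A.filter fun X => h < X.card).filter
      fun X => X.card = a, (Fintype.card P : ℚ) / b ^ X.card ≤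
      ∑ a ∈ Ioc h (h + h), (Fintype.card P : ℚ) * (1 / 4) ^ a := by
    refine sum_le_sum fun a _ => ?_
    have h5 : ∑ X ∈ (A.filter fun X => h < X.card).filter fun X => X.card = a,
        (Fintype.card P : ℚ) / b ^ X.card =
        ((A.filter fun X => h < X.card).filter fun X => X.card = a).card *
          ((Fintype.card P : ℚ) / b ^ a) := by
      rw [← nsmul_eq_mul, ← sum_const]
      refine sum_congr rfl fun X hX => ?_
      rw [(mem_filter.1 hX).2]
    have h6 : (((A.filter fun X => h < X.card).filter fun X => X.card = a).card : ℚ) ≤ w ^ a := by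
      have h7 : ((A.filter fun X => h < X.card).filter fun X => X.card = a).card ≤ w ^ a := by
        refine (card_le_card ?_).trans (ha a)
        intro X hX
        rw [mem_filter, mem_filter] at hX
        exact mem_filter.2 ⟨hX.1.1, hX.2⟩
      exact_mod_cast h7
    have h8 : (w : ℚ) ^ a / b ^ a ≤ (1 / 4) ^ a := by
      rw [← div_pow]
      refine pow_le_pow_left₀ (by positivity) ?_ a
      rw [div_le_iff₀ hb0]
      have : (4 : ℚ) * w ≤ b := by exact_mod_cast hb
      linarith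
    rw [h5]
    calc (((A.filter fun X => h < X.card).filter fun X => X.card = a).card : ℚ) *
          ((Fintype.card P : ℚ) / b ^ a) ≤ w ^ a * ((Fintype.card P : ℚ) / b ^ a) :=
          mul_le_mul_of_nonneg_right h6 (by positivity)
      _ = (Fintype.card P : ℚ) * ((w : ℚ) ^ a / b ^ a) := by ring
      _ ≤ _ := mul_le_mul_of_nonneg_left h8 (by positivity)
  rw [← mul_sum] at h4
  have h5 := geom_rat h h
  have h6 : (0 : ℚ) ≤ (1 / 4) ^ (h + h) := by positivity
  have h7 : (((univ : Finset P).filter fun π => ∃ X ∈ A, h < X.card ∧ X ⊆ K π).card : ℚ) ≤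
      (Fintype.card P : ℚ) * ((1 / 4) ^ h / 3) := by
    rw [h3] at h2
    refine h2.trans (h4.trans (mul_le_mul_of_nonneg_left ?_ (by positivity)))
    linarith
  have h8 : (((1 : ℚ) / 4) ^ h) * 4 ^ h = 1 := by
    rw [← mul_pow]
    norm_num
  have h9 : (3 : ℚ) * (((univ : Finset P).filter fun π => ∃ X ∈ A, h < X.card ∧
      X ⊆ K π).card : ℚ) * 4 ^ h ≤ Fintype.card P := by
    calc _ = 3 * 4 ^ h * (((univ : Finset P).filter fun π => ∃ X ∈ A, h < X.card ∧
          X ⊆ K π).card : ℚ) := by ring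
      _ ≤ 3 * 4 ^ h * ((Fintype.card P : ℚ) * ((1 / 4) ^ h / 3)) :=
        mul_le_mul_of_nonneg_left h7 (by positivity)
      _ = (Fintype.card P : ℚ) * (((1 : ℚ) / 4) ^ h * 4 ^ h) := by ring
      _ = Fintype.card P := by rw [h8, mul_one]
  exact_mod_cast h9

variable {c : ℕ} (pos : P → E → Bool) (K : P → Finset V) (neg : (V → Fin c) → E → Bool)

/-- the family `A` approximates the function `f` apart from the errors `BP` and `BN` -/
def Appx (h w : ℕ) (BP : Finset P) (BN : Finset (V → Fin c)) (f : (E → Bool) → Bool)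
    (A : Finset (Finset V)) : Prop :=
  (∀ X ∈ A, X.card ≤ 2 * h) ∧ (∀ a, (A.filter fun X => X.card = a).card ≤ w ^ a) ∧
    (∀ π ∉ BP, f (pos π) = true → AccP A (K π)) ∧
    ∀ χ ∉ BN, AccN A χ → f (neg χ) = true

/-- all available functions are approximated -/
def AllAppx (h w : ℕ) (BP : Finset P) (BN : Finset (V → Fin c))
    (L : List ((E → Bool) → Bool)) : Prop :=
  ∀ f, Avail L f → ∃ A, Appx pos K neg h w BP BN f A

variable {pos K neg}

omit [Fintype V] [Fintype P] [DecidableEq P] [DecidableEq V] in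
lemma Appx.mono {h w : ℕ} {BP BP' : Finset P} {BN BN' : Finset (V → Fin c)}
    {f : (E → Bool) → Bool} {A : Finset (Finset V)} (hA : Appx pos K neg h w BP BN f A)
    (h1 : BP ⊆ BP') (h2 : BN ⊆ BN') : Appx pos K neg h w BP' BN' f A :=
  ⟨hA.1, hA.2.1, fun π hπ => hA.2.2.1 π fun h' => hπ (h1 h'),
    fun χ hχ => hA.2.2.2 χ fun h' => hχ (h2 h')⟩

omit [Fintype V] [DecidableEq V] in
lemma filt_one {A : Finset (Finset V)} (h : A.card ≤ 1) {w : ℕ} (hw : 1 ≤ w) (a : ℕ) :
    (A.filter fun X => X.card = a).card ≤ w ^ a :=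
  ((card_filter_le _ _).trans h).trans (Nat.one_le_pow _ _ hw)

open Classical in
/-- the induction -/
theorem appr (hPLK : Stmt_PLK) {h p b : ℕ} (hh : 1 ≤ h) (hl : 2 * h * (2 * h - 1) ≤ c)
    (hp : 2 ≤ p) (hb : 4 * (p * (2 * h)) ≤ b)
    (hvar : ∀ e : E, ∃ A : Finset (Finset V), (∀ X ∈ A, X.card ≤ 2 * h) ∧ A.card ≤ 1 ∧
      (∀ π, pos π e = true → AccP A (K π)) ∧ ∀ χ, AccN A χ → neg χ e = true)
    (hR : ∀ Y : Finset V, ((univ : Finset P).filter fun π => Y ⊆ K π).card * b ^ Y.card ≤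
      Fintype.card P)
    {L : List ((E → Bool) → Bool)} (hL : Mon L) :
    ∃ (BP : Finset P) (BN : Finset (V → Fin c)),
      BP.card * 2 ^ (2 * h) ≤ L.length * Fintype.card P ∧
      BN.card * 2 ^ p ≤ L.length * (4 * (p * (2 * h)) ^ (4 * h)) * c ^ Fintype.card V ∧
      AllAppx pos K neg h (p * (2 * h)) BP BN L := by
  have hw : 2 ≤ p * (2 * h) := by nlinarith
  have hw1 : 1 ≤ p * (2 * h) := by omega
  have hsq : (2 * (p * (2 * h)) ^ (2 * h)) * (2 * (p * (2 * h)) ^ (2 * h)) =
      4 * (p * (2 * h)) ^ (4 * h) := by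
    have : (p * (2 * h)) ^ (4 * h) = (p * (2 * h)) ^ (2 * h) * (p * (2 * h)) ^ (2 * h) := by
      rw [← pow_add]
      congr 1
      omega
    rw [this]
    ring
  -- variables and constants
  have hbase : ∀ (BP : Finset P) (BN : Finset (V → Fin c)) (f : (E → Bool) → Bool),
      ((∃ i, f = fun x => x i) ∨ ∃ b, f = fun _ => b) →
      ∃ A, Appx pos K neg h (p * (2 * h)) BP BN f A := by
    rintro BP BN f (⟨e, rfl⟩ | ⟨b, rfl⟩)
    · obtain ⟨A, h1, h2, h3, h4⟩ := hvar e
      exact ⟨A, h1, filt_one h2 hw1, fun π _ h => h3 π h, fun χ _ h => h4 χ h⟩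
    · cases b with
      | false =>
        refine ⟨∅, by simp, by simp, fun π _ h => absurd h (by simp), fun χ _ h => ?_⟩
        obtain ⟨X, hX, _⟩ := h
        simp at hX
      | true =>
        refine ⟨{∅}, by simp, filt_one (by simp) hw1, fun π _ _ => ⟨∅, by simp, empty_subset _⟩,
          fun χ _ _ => rfl⟩
  induction hL with
  | nil =>
    refine ⟨∅, ∅, by simp, by simp, fun f hf => ?_⟩
    rcases hf with h | h
    · simp at h
    · exact hbase _ _ f h
  | @and L f g _ hf hg ih =>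
    obtain ⟨BP, BN, h1, h2, h3⟩ := ih
    obtain ⟨A, hA1, hA2, hA3, hA4⟩ := h3 f hf
    obtain ⟨B, hB1, hB2, hB3, hB4⟩ := h3 g hg
    -- the joins
    set J := ((A ×ˢ B).image fun q => q.1 ∪ q.2).filter fun X => X.card ≤ 2 * h with hJ
    have hJs : ∀ X ∈ J, X.card ≤ 2 * h := fun X hX => (mem_filter.1 hX).2
    have hJc : J.card ≤ 4 * (p * (2 * h)) ^ (4 * h) := by
      calc J.card ≤ (A ×ˢ B).card := (Finset.card_filter_le _ _).trans Finset.card_image_le
        _ = A.card * B.card := card_product _ _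
        _ ≤ (2 * (p * (2 * h)) ^ (2 * h)) * (2 * (p * (2 * h)) ^ (2 * h)) :=
          Nat.mul_le_mul (card_fam hw hA1 hA2) (card_fam hw hB1 hB2)
        _ = _ := hsq
    obtain ⟨A', hA'1, hA'2, hA'3, hA'4⟩ := hPLK V c (2 * h) p hl hp _ J hJc hJs
    set DP := ((univ : Finset P).filter fun π => ∃ X ∈ A, h < X.card ∧ X ⊆ K π) ∪
      ((univ : Finset P).filter fun π => ∃ X ∈ B, h < X.card ∧ X ⊆ K π) with hDP
    set DN := (univ : Finset (V → Fin c)).filter fun χ => AccN A' χ ∧ ¬ AccN J χ with hDN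
    have hDPc : DP.card * 2 ^ (2 * h) ≤ Fintype.card P := by
      have e1 := big K hw hb hA1 hA2 hR
      have e2 := big K hw hb hB1 hB2 hR
      have e3 := card_union_le ((univ : Finset P).filter fun π => ∃ X ∈ A, h < X.card ∧ X ⊆ K π)
        ((univ : Finset P).filter fun π => ∃ X ∈ B, h < X.card ∧ X ⊆ K π)
      have e4 : 2 ^ (2 * h) = 4 ^ h := by
        rw [pow_mul]
        norm_num
      rw [e4]
      have e5 : DP.card * 4 ^ h ≤
          (((univ : Finset P).filter fun π => ∃ X ∈ A, h < X.card ∧ X ⊆ K π).card +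
          ((univ : Finset P).filter fun π => ∃ X ∈ B, h < X.card ∧ X ⊆ K π).card) * 4 ^ h :=
        Nat.mul_le_mul_right _ e3
      rw [add_mul] at e5
      rw [mul_assoc] at e1 e2
      omega
    refine ⟨BP ∪ DP, BN ∪ DN, ?_, ?_, ?_⟩
    · calc (BP ∪ DP).card * 2 ^ (2 * h) ≤ (BP.card + DP.card) * 2 ^ (2 * h) :=
            Nat.mul_le_mul_right _ (card_union_le _ _)
        _ = BP.card * 2 ^ (2 * h) + DP.card * 2 ^ (2 * h) := by ring
        _ ≤ L.length * Fintype.card P + Fintype.card P := Nat.add_le_add h1 hDPc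
        _ = _ := by rw [List.length_cons]; ring
    · calc (BN ∪ DN).card * 2 ^ p ≤ (BN.card + DN.card) * 2 ^ p :=
            Nat.mul_le_mul_right _ (card_union_le _ _)
        _ = BN.card * 2 ^ p + DN.card * 2 ^ p := by ring
        _ ≤ L.length * (4 * (p * (2 * h)) ^ (4 * h)) * c ^ Fintype.card V +
            4 * (p * (2 * h)) ^ (4 * h) * c ^ Fintype.card V := Nat.add_le_add h2 hA'4
        _ = _ := by rw [List.length_cons]; ring
    · intro f' hf'
      rcases hf' with h | h
      swap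
      · exact hbase _ _ f' h
      rcases List.mem_cons.1 h with rfl | h
      · refine ⟨A', hA'1, hA'2, fun π hπ hfg => ?_, fun χ hχ hacc => ?_⟩
        · rw [Finset.mem_union, not_or, Finset.mem_union, not_or] at hπ
          simp only [Bool.and_eq_true] at hfg
          obtain ⟨X, hX, hXK⟩ := hA3 π hπ.1 hfg.1
          obtain ⟨Y, hY, hYK⟩ := hB3 π hπ.1 hfg.2
          have hXc : ¬ _ < X.card := fun hlt =>
            hπ.2.1 (mem_filter.2 ⟨mem_univ _, X, hX, hlt, hXK⟩)
          have hYc : ¬ _ < Y.card := fun hlt =>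
            hπ.2.2 (mem_filter.2 ⟨mem_univ _, Y, hY, hlt, hYK⟩)
          have hc := card_union_le X Y
          apply hA'3
          exact ⟨X ∪ Y, mem_filter.2 ⟨mem_image.2 ⟨(X, Y), mem_product.2 ⟨hX, hY⟩, rfl⟩,
            by omega⟩, union_subset hXK hYK⟩
        · rw [Finset.mem_union, not_or] at hχ
          have hJχ : AccN J χ := by
            by_contra hne
            exact hχ.2 (mem_filter.2 ⟨mem_univ _, hacc, hne⟩)
          obtain ⟨X, hX, hXχ⟩ := hJχ
          obtain ⟨⟨Y, Y'⟩, hq, rfl⟩ := mem_image.1 (mem_filter.1 hX).1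
          rw [mem_product] at hq
          simp only [Bool.and_eq_true]
          exact ⟨hA4 χ hχ.1 ⟨Y, hq.1, hXχ.mono (by simp)⟩,
            hB4 χ hχ.1 ⟨Y', hq.2, hXχ.mono (by simp)⟩⟩
      · obtain ⟨A'', h''⟩ := h3 f' (Or.inl h)
        exact ⟨A'', h''.mono subset_union_left subset_union_left⟩
  | @or L f g _ hf hg ih =>
    obtain ⟨BP, BN, h1, h2, h3⟩ := ih
    obtain ⟨A, hA1, hA2, hA3, hA4⟩ := h3 f hf
    obtain ⟨B, hB1, hB2, hB3, hB4⟩ := h3 g hg
    have hJs : ∀ X ∈ A ∪ B, X.card ≤ 2 * h := by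
      intro X hX
      rcases Finset.mem_union.1 hX with h | h
      · exact hA1 X h
      · exact hB1 X h
    have hJc : (A ∪ B).card ≤ 4 * (p * (2 * h)) ^ (4 * h) := by
      have e1 := Finset.card_union_le A B
      have e2 := card_fam hw hA1 hA2
      have e3 := card_fam hw hB1 hB2
      have e4 : (p * (2 * h)) ^ (2 * h) ≤ (p * (2 * h)) ^ (4 * h) :=
        Nat.pow_le_pow_right hw1 (by omega)
      omega
    obtain ⟨A', hA'1, hA'2, hA'3, hA'4⟩ := hPLK V c (2 * h) p hl hp _ (A ∪ B) hJc hJs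
    set DN := (univ : Finset (V → Fin c)).filter fun χ => AccN A' χ ∧ ¬ AccN (A ∪ B) χ with hDN
    refine ⟨BP, BN ∪ DN, ?_, ?_, ?_⟩
    · refine h1.trans (Nat.mul_le_mul_right _ ?_)
      simp
    · calc (BN ∪ DN).card * 2 ^ p ≤ (BN.card + DN.card) * 2 ^ p :=
            Nat.mul_le_mul_right _ (card_union_le _ _)
        _ = BN.card * 2 ^ p + DN.card * 2 ^ p := by ring
        _ ≤ L.length * (4 * (p * (2 * h)) ^ (4 * h)) * c ^ Fintype.card V +
            4 * (p * (2 * h)) ^ (4 * h) * c ^ Fintype.card V := Nat.add_le_add h2 hA'4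
        _ = _ := by rw [List.length_cons]; ring
    · intro f' hf'
      rcases hf' with h | h
      swap
      · exact hbase _ _ f' h
      rcases List.mem_cons.1 h with rfl | h
      · refine ⟨A', hA'1, hA'2, fun π hπ hfg => ?_, fun χ hχ hacc => ?_⟩
        · simp only [Bool.or_eq_true] at hfg
          apply hA'3
          rcases hfg with h' | h'
          · obtain ⟨X, hX, hXK⟩ := hA3 π hπ h'
            exact ⟨X, Finset.mem_union_left _ hX, hXK⟩
          · obtain ⟨X, hX, hXK⟩ := hB3 π hπ h'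
            exact ⟨X, Finset.mem_union_right _ hX, hXK⟩
        · rw [Finset.mem_union, not_or] at hχ
          have hJχ : AccN (A ∪ B) χ := by
            by_contra hne
            exact hχ.2 (mem_filter.2 ⟨mem_univ _, hacc, hne⟩)
          obtain ⟨X, hX, hXχ⟩ := hJχ
          simp only [Bool.or_eq_true]
          rcases Finset.mem_union.1 hX with h' | h'
          · exact Or.inl (hA4 χ hχ.1 ⟨X, h', hXχ⟩)
          · exact Or.inr (hB4 χ hχ.1 ⟨X, h', hXχ⟩)
      · obtain ⟨A'', h''⟩ := h3 f' (Or.inl h)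
        exact ⟨A'', h''.mono (Finset.Subset.refl _) Finset.subset_union_left⟩

end

end APPM

theorem APP_thm (hPLK : Stmt_PLK) : Stmt_APP := by
  classical
  intro V E P _ _ _ _ c h p b pos K neg hh hl hp hb hvar hR f T hf
  obtain ⟨L, hL, hLT, hav⟩ := hf
  obtain ⟨BP, BN, h1, h2, h3⟩ := APPM.appr hPLK hh hl hp hb hvar hR hL
  obtain ⟨A, hA1, hA2, hA3, hA4⟩ := h3 f hav
  refine ⟨A, BP, BN, hA1, hA2, h1.trans (Nat.mul_le_mul_right _ hLT), h2.trans ?_, hA3, hA4⟩
  exact Nat.mul_le_mul_right _ (Nat.mul_le_mul_right _ hLT)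

end Pool.Agent.NPP
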