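import Pool.Agent.NPP.Stmts

/-!
# Plucking with a bound for the number of the sets of every size (module PLK)
-/

set_option autoImplicit false

namespace Pool.Agent.NPP

open Finset Pool.Agent.NegLim Pool.Agent.NLM Pool.Agent.NEG72

theorem PLK_thm : Stmt_PLK := by
  classical
  intro V _ _ c l p hl hp N
  induction N with
  | zero =>
    intro A hA hl'
    rw [Nat.le_zero, Finset.card_eq_zero] at hA
    subst hA
    refine ⟨∅, by simp, by simp, fun K h => h, ?_⟩
    have : ((univ : Finset (V → Fin c)).filter fun χ => AccN (∅ : Finset (Finset V)) χ ∧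
        ¬ AccN (∅ : Finset (Finset V)) χ) = ∅ := by
      rw [Finset.filter_eq_empty_iff]
      intro χ _ h
      exact h.2 h.1
    rw [this]
    simp
  | succ N ih =>
    intro A hA hAl
    by_cases hM : ∀ a, (A.filter fun X => X.card = a).card ≤ (p * l) ^ a
    · refine ⟨A, hAl, hM, fun K h => h, ?_⟩
      have : ((univ : Finset (V → Fin c)).filter fun χ => AccN A χ ∧ ¬ AccN A χ) = ∅ := by
        rw [Finset.filter_eq_empty_iff]
        intro χ _ h
        exact h.2 h.1
      rw [this]
      simp
    push Not at hM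
    obtain ⟨a, ha⟩ := hM
    have hal : a ≤ l := by
      obtain ⟨X, hX⟩ : (A.filter fun X => X.card = a).Nonempty := by
        rw [← Finset.card_pos]
        omega
      rw [mem_filter] at hX
      rw [← hX.2]
      exact hAl X hX.1
    have ha' : (p * a) ^ a < (A.filter fun X => X.card = a).card :=
      lt_of_le_of_lt (Nat.pow_le_pow_left (Nat.mul_le_mul_left _ hal) _) ha
    obtain ⟨S, hSA', hSp, Z, hsun⟩ := sunflower (by omega : 1 ≤ p) a
      (A.filter fun X => X.card = a) (fun X hX => (mem_filter.1 hX).2.le) ha'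
    have hSA : S ⊆ A := hSA'.trans (Finset.filter_subset _ _)
    have hZl : Z.card ≤ l := by
      obtain ⟨X, hX⟩ : S.Nonempty := by
        rw [← Finset.card_pos]
        omega
      exact (Finset.card_le_card (hsun.1 X hX)).trans (hAl X (hSA hX))
    obtain ⟨B, hB1, hB2, hB3, hB4⟩ := ih (insert Z (A \ S)) (by
      have h1 := Finset.card_insert_le Z (A \ S)
      have h2 := Finset.card_sdiff_add_card_eq_card hSA
      omega) (by
      intro X hX
      rcases Finset.mem_insert.1 hX with rfl | hX
      · exact hZl
      · exact hAl X (mem_sdiff.1 hX).1)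
    refine ⟨B, hB1, hB2, ?_, ?_⟩
    · rintro K ⟨X, hX, hXK⟩
      apply hB3
      by_cases hXS : X ∈ S
      · exact ⟨Z, mem_insert_self _ _, (hsun.1 X hXS).trans hXK⟩
      · exact ⟨X, mem_insert_of_mem (mem_sdiff.2 ⟨hX, hXS⟩), hXK⟩
    · have h1 : ((univ : Finset (V → Fin c)).filter fun χ => AccN B χ ∧ ¬ AccN A χ) ⊆
          ((univ : Finset (V → Fin c)).filter fun χ => AccN B χ ∧
            ¬ AccN (insert Z (A \ S)) χ) ∪
          ((univ : Finset (V → Fin c)).filter fun χ => Set.InjOn χ (Z : Set V) ∧
            ∀ X ∈ S, ¬ Set.InjOn χ (X : Set V)) := by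
        intro χ hχ
        rw [mem_filter] at hχ
        rw [mem_union, mem_filter, mem_filter]
        by_cases h : AccN (insert Z (A \ S)) χ
        · right
          refine ⟨mem_univ _, ?_, ?_⟩
          · obtain ⟨X, hX, hXχ⟩ := h
            rcases Finset.mem_insert.1 hX with rfl | hX
            · exact hXχ
            · exact absurd ⟨X, (mem_sdiff.1 hX).1, hXχ⟩ hχ.2.2
          · intro X hX hXχ
            exact hχ.2.2 ⟨X, hSA hX, hXχ⟩
        · exact Or.inl ⟨mem_univ _, hχ.2.1, h⟩
      have h2 := card_sun (c := c) Z hl S (fun X hX => hAl X (hSA hX)) hsun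
      rw [hSp] at h2
      calc _ ≤ (((univ : Finset (V → Fin c)).filter fun χ => AccN B χ ∧
            ¬ AccN (insert Z (A \ S)) χ).card +
          ((univ : Finset (V → Fin c)).filter fun χ => Set.InjOn χ (Z : Set V) ∧
            ∀ X ∈ S, ¬ Set.InjOn χ (X : Set V)).card) * 2 ^ p :=
            Nat.mul_le_mul_right _ ((Finset.card_le_card h1).trans (Finset.card_union_le _ _))
        _ ≤ N * c ^ Fintype.card V + c ^ Fintype.card V := by
            rw [add_mul]
            exact Nat.add_le_add hB4 h2
        _ = (N + 1) * c ^ Fintype.card V := by ring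

end Pool.Agent.NPP
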