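import Pool.Agent.NPP.Stmts
import Pool.Agent.NegLim.Prog
import Pool.Agent.NEG72.WinMon
import Pool.Agent.NEG72.Comb

/-!
# Project NPP, module CMP: the contradiction for families without NOT gates
-/

set_option autoImplicit false

namespace Pool.Agent.NPP

open Finset Pool.Agent.NegLim Pool.Agent.NLM Pool.Agent.NEG72

namespace CMPM

theorem card_kset {v k b : ℕ} (hv : k * b ≤ v) (τ : Fin k → Fin b) : (kset hv τ).card = k := by
  unfold kset
  rw [card_image_of_injective, card_univ, Fintype.card_fin]
  intro i j hij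
  have h1 := finProdFinEquiv.injective (Fin.castLE_injective hv hij)
  exact congrArg Prod.fst h1

theorem clq_posG {v k b : ℕ} (hv : k * b ≤ v) (τ : Fin k → Fin b) :
    clq v k (posG hv τ) = true := by
  rw [clq_iff]
  exact ⟨kset hv τ, card_kset hv τ, fun e h1 h2 => by simp [posG, posIn, h1, h2]⟩

theorem not_clq_negG {v k : ℕ} (hk : 1 ≤ k) (a : Bool × (Fin v → Fin (k - 1)))
    (ha : a.1 = false) : ¬ clq v k (negG a) = true := by
  have h1 : negG a = negIn a.2 := by
    funext e
    simp [negG, ha]
  rw [h1, clq_iff]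
  exact not_hasClique_negIn (by omega) a.2

/-- double counting -/
theorem swap {A B : Type} [Fintype A] [Fintype B] (R : A → B → Bool) :
    ∑ a, (univ.filter fun b => R a b = true).card = ∑ b, (univ.filter fun a => R a b = true).card := by
  simp only [card_filter]
  rw [sum_comm]

theorem coins {n : ℕ} {X : Type} [Fintype X] [DecidableEq X] :
    (univ.filter fun b : Fin n → Bool × X => ∀ i, (b i).1 = true).card * 2 ^ n =
      Fintype.card (Bool × X) ^ n := by
  classical
  have h1 : (univ.filter fun b : Fin n → Bool × X => ∀ i, (b i).1 = true) =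
      Fintype.piFinset fun _ : Fin n => (univ.filter fun q : Bool × X => q.1 = true) := by
    ext b
    simp
  have h2 : (univ.filter fun q : Bool × X => q.1 = true) = ({true} : Finset Bool) ×ˢ univ := by
    ext q
    rw [mem_filter, mem_product, mem_singleton]
    exact ⟨fun h => ⟨h.2, mem_univ _⟩, fun h => ⟨mem_univ _, h.1⟩⟩
  rw [h1, Fintype.card_piFinset, prod_const, card_univ, Fintype.card_fin, h2, card_product,
    card_singleton, one_mul, card_univ, ← mul_pow, Fintype.card_prod, Fintype.card_bool, mul_comm]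

end CMPM

open Classical in
theorem CMP_thm (hHYB : Stmt_HYB) (hONE : Stmt_ONE) : Stmt_CMP := by
  intro n v k b h p T s t θ hv D h1 hk hp hb hT hD hC
  have hk1 : 1 ≤ k := by
    by_contra hcon
    have h2 : k = 0 := by omega
    subst h2
    have h3 : 2 ≤ 2 * h * (2 * h - 1) := by
      have h4 : 1 ≤ 2 * h - 1 := by omega
      nlinarith
    omega
  have hk2 : 2 ≤ k - 1 := by
    have h4 : 1 ≤ 2 * h - 1 := by omega
    nlinarith
  have hb1 : 0 < b := by
    have h4 : 1 ≤ p * (2 * h) := by nlinarith
    omega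
  have : Nonempty (Fin b) := ⟨⟨0, hb1⟩⟩
  have : Nonempty (Fin (k - 1)) := ⟨⟨0, by omega⟩⟩
  set δ : ℝ := 2 * T * ((2 * h * p : ℕ) : ℝ) ^ (4 * h) / 2 ^ p with hδ
  -- one witness
  have key : ∀ q, ((univ.filter fun a : Fin n → (Fin k → Fin b) =>
        D q (fun ie => posG hv (a ie.1) ie.2) = true).card : ℝ) /
          (Fintype.card (Fin k → Fin b) : ℝ) ^ n ≤
      ((univ.filter fun a : Fin n → (Bool × (Fin v → Fin (k - 1))) =>
        D q (fun ie => negG (a ie.1) ie.2) = true).card : ℝ) /
          (Fintype.card (Bool × (Fin v → Fin (k - 1))) : ℝ) ^ n + n * δ := by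
    intro q
    refine hHYB (Edge v → Bool) (Fin k → Fin b) (Bool × (Fin v → Fin (k - 1))) (posG hv) negG δ n
      (fun z => D q (fun ie => z ie.1 ie.2)) ?_
    intro i z
    have hm : MonSize (fun y : Edge v → Bool =>
        D q (fun ie => Function.update z i y ie.1 ie.2)) T := by
      refine (hD q).comp (σ := fun y ie => Function.update z i y ie.1 ie.2) ?_
      rintro ⟨j, e⟩
      by_cases hj : j = i
      · subst hj
        refine Or.inr (Or.inl ⟨e, ?_⟩)
        funext y
        simp
      · refine Or.inr (Or.inr ⟨z j e, ?_⟩)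
        funext y
        simp [hj]
    have h5 := hONE v k b h p T hv _ h1 hk hp hb hT hm
    have e1 : (Fintype.card (Fin k → Fin b) : ℝ) = (b : ℝ) ^ k := by
      rw [Fintype.card_fun, Fintype.card_fin, Fintype.card_fin]
      push_cast
      ring
    have e2 : (Fintype.card (Bool × (Fin v → Fin (k - 1))) : ℝ) =
        2 * ((k - 1 : ℕ) : ℝ) ^ v := by
      rw [Fintype.card_prod, Fintype.card_fun, Fintype.card_fin, Fintype.card_fin,
        Fintype.card_bool]
      push_cast
      ring
    rw [e1, e2]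
    exact h5
  -- sizes
  set cP : ℕ := Fintype.card (Fin k → Fin b) ^ n with hcP
  set cQ : ℕ := Fintype.card (Bool × (Fin v → Fin (k - 1))) ^ n with hcQ
  have hcP0 : (0 : ℝ) < cP := by
    rw [hcP]
    exact_mod_cast Nat.pos_of_ne_zero (pow_ne_zero _ Fintype.card_ne_zero)
  have hcQ0 : (0 : ℝ) < cQ := by
    rw [hcQ]
    exact_mod_cast Nat.pos_of_ne_zero (pow_ne_zero _ Fintype.card_ne_zero)
  -- the positive tests
  have hpos : (θ + 1) * cP ≤ ∑ q, (univ.filter fun a : Fin n → (Fin k → Fin b) =>
      D q (fun ie => posG hv (a ie.1) ie.2) = true).card := by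
    rw [CMPM.swap (fun q (a : Fin n → (Fin k → Fin b)) => D q (fun ie => posG hv (a ie.1) ie.2))]
    have h6 : ∀ a : Fin n → (Fin k → Fin b), θ + 1 ≤ (univ.filter fun q =>
        D q (fun ie => posG hv (a ie.1) ie.2) = true).card := by
      intro a
      exact (hC _).1 (fun i => CMPM.clq_posG hv (a i))
    calc (θ + 1) * cP = ∑ _a : Fin n → (Fin k → Fin b), (θ + 1) := by
          rw [sum_const, card_univ, Fintype.card_fun, Fintype.card_fin, smul_eq_mul, mul_comm]
      _ ≤ _ := sum_le_sum fun a _ => h6 a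
  -- the negative tests
  have hneg : (∑ q, (univ.filter fun a : Fin n → (Bool × (Fin v → Fin (k - 1))) =>
      D q (fun ie => negG (a ie.1) ie.2) = true).card) * 2 ^ n ≤
        θ * cQ * 2 ^ n + 2 ^ (s + t) * cQ := by
    rw [CMPM.swap (fun q (a : Fin n → (Bool × (Fin v → Fin (k - 1)))) =>
      D q (fun ie => negG (a ie.1) ie.2))]
    have h6 : ∀ a : Fin n → (Bool × (Fin v → Fin (k - 1))), (univ.filter fun q =>
        D q (fun ie => negG (a ie.1) ie.2) = true).card ≤
          θ + if ∀ i, (a i).1 = true then 2 ^ (s + t) else 0 := by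
      intro a
      by_cases ha : ∀ i, (a i).1 = true
      · rw [if_pos ha]
        have h7 : (univ.filter fun q : (Fin s → Bool) × (Fin t → Bool) =>
            D q (fun ie => negG (a ie.1) ie.2) = true).card ≤ 2 ^ (s + t) := by
          refine (card_filter_le _ _).trans ?_
          rw [card_univ, Fintype.card_prod, Fintype.card_fun, Fintype.card_fun,
            Fintype.card_fin, Fintype.card_fin, Fintype.card_bool, pow_add]
        omega
      · rw [if_neg ha, add_zero]
        by_contra hcon
        push Not at hcon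
        have h7 := (hC (fun ie => negG (a ie.1) ie.2)).2 hcon
        push Not at ha
        obtain ⟨i, hi⟩ := ha
        exact CMPM.not_clq_negG hk1 (a i) (by simpa using hi) (h7 i)
    have h8 : ∑ a : Fin n → (Bool × (Fin v → Fin (k - 1))), (univ.filter fun q =>
        D q (fun ie => negG (a ie.1) ie.2) = true).card ≤ cQ * θ +
          (univ.filter fun a : Fin n → (Bool × (Fin v → Fin (k - 1))) =>
            ∀ i, (a i).1 = true).card * 2 ^ (s + t) := by
      refine (sum_le_sum fun a _ => h6 a).trans ?_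
      rw [sum_add_distrib, sum_const, card_univ, Fintype.card_fun, Fintype.card_fin, smul_eq_mul,
        ← sum_filter, sum_const, smul_eq_mul]
    have h9 := CMPM.coins (n := n) (X := Fin v → Fin (k - 1))
    calc _ ≤ (cQ * θ + (univ.filter fun a : Fin n → (Bool × (Fin v → Fin (k - 1))) =>
            ∀ i, (a i).1 = true).card * 2 ^ (s + t)) * 2 ^ n := Nat.mul_le_mul_right _ h8
      _ = cQ * θ * 2 ^ n + 2 ^ (s + t) * ((univ.filter fun a :
            Fin n → (Bool × (Fin v → Fin (k - 1))) => ∀ i, (a i).1 = true).card * 2 ^ n) := by ring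
      _ = θ * cQ * 2 ^ n + 2 ^ (s + t) * cQ := by
          rw [h9, hcQ]
          ring
  -- sum over the witnesses
  have hcard : (Fintype.card ((Fin s → Bool) × (Fin t → Bool)) : ℝ) = 2 ^ (s + t) := by
    rw [Fintype.card_prod, Fintype.card_fun, Fintype.card_fun,
      Fintype.card_fin, Fintype.card_fin, Fintype.card_bool, pow_add]
    push_cast
    ring
  have hsum := sum_le_sum fun q (_ : q ∈ (univ : Finset ((Fin s → Bool) × (Fin t → Bool)))) => key q
  rw [sum_add_distrib, sum_const, card_univ, nsmul_eq_mul, hcard, ← sum_div, ← sum_div] at hsum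
  have hposR : ((θ : ℝ) + 1) * cP ≤ ∑ q, ((univ.filter fun a : Fin n → (Fin k → Fin b) =>
      D q (fun ie => posG hv (a ie.1) ie.2) = true).card : ℝ) := by
    exact_mod_cast hpos
  have hnegR : (∑ q, ((univ.filter fun a : Fin n → (Bool × (Fin v → Fin (k - 1))) =>
      D q (fun ie => negG (a ie.1) ie.2) = true).card : ℝ)) * 2 ^ n ≤
        θ * cQ * 2 ^ n + 2 ^ (s + t) * cQ := by
    exact_mod_cast hneg
  have e3 : (Fintype.card (Fin k → Fin b) : ℝ) ^ n = cP := by
    rw [hcP]
    push_cast
    ring
  have e4 : (Fintype.card (Bool × (Fin v → Fin (k - 1))) : ℝ) ^ n = cQ := by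
    rw [hcQ]
    push_cast
    ring
  rw [e3, e4] at hsum
  have h10 : (θ : ℝ) + 1 ≤ (∑ q, ((univ.filter fun a : Fin n → (Fin k → Fin b) =>
      D q (fun ie => posG hv (a ie.1) ie.2) = true).card : ℝ)) / cP := by
    rw [le_div_iff₀ hcP0]
    exact hposR
  have h11 : (∑ q, ((univ.filter fun a : Fin n → (Bool × (Fin v → Fin (k - 1))) =>
      D q (fun ie => negG (a ie.1) ie.2) = true).card : ℝ)) / cQ ≤
        θ + 2 ^ (s + t) / 2 ^ n := by
    have h2n : (0 : ℝ) < 2 ^ n := by positivity
    rw [div_le_iff₀ hcQ0]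
    have h12 : (θ + (2 : ℝ) ^ (s + t) / 2 ^ n) * cQ * 2 ^ n =
        θ * cQ * 2 ^ n + 2 ^ (s + t) * cQ := by
      field_simp
    rw [← h12] at hnegR
    exact le_of_mul_le_mul_right hnegR h2n
  have h13 : (2 : ℝ) ^ (s + t) * (1 / 2 ^ n + n * δ) =
      2 ^ (s + t) / 2 ^ n + 2 ^ (s + t) * (n * δ) := by ring
  rw [h13]
  linarith

end Pool.Agent.NPP
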