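import Pool.Agent.NPP.TRF

/-!
# The transfer theorem in the form used for the function and for its complement
-/

set_option autoImplicit false

namespace Pool.Agent.NPP

open Finset Pool.Agent.NegLim Pool.Agent.NLM Pool.Agent.NEG72

namespace TRF2M

open TRFM

variable {E : Type} {s t : ℕ}

/-- Conjunction of many functions. -/
lemma monSize_all {P V : Type} (G : P → (V → Bool) → Bool) {K : ℕ}
    (hG : ∀ p, MonSize (G p) K) (ps : List P) :
    MonSize (fun x => ps.all fun p => G p x) (ps.length * (K + 1)) := by
  induction ps with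
  | nil => exact ⟨[], Mon.nil, by simp, Avail.const _ true⟩
  | cons p ps ih =>
    obtain ⟨L, h1, h2, h3⟩ := ih
    obtain ⟨L', h1', h2', h3'⟩ := hG p
    refine ⟨_, Mon.and (h1'.append h1) (h3'.mono fun _ h => List.mem_append_left _ h)
      (h3.mono fun _ h => List.mem_append_right _ h), ?_, ?_⟩
    · simp only [List.length_cons, List.length_append]
      rw [Nat.add_mul]
      omega
    · exact Avail.head _ _

/-- The conjunction of the checks. -/
noncomputable def QQ (C : NCirc E s t) (R : E → Bool) (B : Set E) (y : E → Bool) : Bool :=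
  (univ : Finset (Fin s → Bool)).toList.all fun u =>
    chkA (guess C R u) C.gates (upd R B y) u fun _ => false

theorem monSize_QQ (C : NCirc E s t) (R : E → Bool) (B : Set E) :
    MonSize (QQ C R B) (2 ^ s * (C.gates.length + 1)) := by
  have h := monSize_all (K := C.gates.length)
    (fun (u : Fin s → Bool) (y : E → Bool) =>
      chkA (guess C R u) C.gates (upd R B y) u fun _ => false) (by
      intro u
      obtain ⟨L, h1, h2, h3, h4⟩ := prog (isProj_upd R B) (guess C R u) C.gates u
        (fun _ => false) false
      exact ⟨L, h1, h2, h4⟩) (univ : Finset (Fin s → Bool)).toList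
  rw [Finset.length_toList, Finset.card_univ, Fintype.card_fun, Fintype.card_bool,
    Fintype.card_fin] at h
  exact h

theorem QQ_iff (C : NCirc E s t) (R : E → Bool) (B : Set E) (y : E → Bool) :
    QQ C R B y = true ↔ ∀ u : Fin s → Bool,
      chkA (guess C R u) C.gates (upd R B y) u (fun _ => false) = true := by
  unfold QQ
  rw [List.all_eq_true]
  constructor
  · intro h u
    exact h u (by simp)
  · intro h u _
    exact h u

end TRF2M

open TRFM TRF2M in
/-- **The transfer theorem.** -/
theorem trf2 {E ι : Type} {s t : ℕ} (B : ι → Set E) (hB : ∀ i j, i ≠ j → Disjoint (B i) (B j))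
    (c : E → Bool) (φ : ι → (E → Bool) → Bool)
    (hloc : ∀ i x x', (∀ e ∈ B i, x e = x' e) → φ i x = φ i x')
    (htop : ∀ i, φ i (fun _ => true) = true) (C : NCirc E s t) (hN : C.NotsFree) :
    ∃ A : Finset ι, A.card ≤ 2 ^ s * (2 ^ C.nots - 1) ∧ ∀ i, i ∉ A →
      ∃ (R : E → Bool) (D : (Fin s → Bool) × (Fin t → Bool) → (E → Bool) → Bool)
        (Q : (E → Bool) → Bool),
        ((∀ e, (∀ j, e ∉ B j) → R e = c e) ∧ ∀ j, φ j R = true) ∧
        ((∀ y e, (∀ j, e ∉ B j) → upd R (B i) y e = c e) ∧
          (∀ y, φ i (upd R (B i) y) = φ i y) ∧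
          ∀ y j, j ≠ i → φ j (upd R (B i) y) = true) ∧
        ((∀ p, MonSize (D p) (C.gates.length + 1)) ∧
          (∀ y, φ i y = true → ∀ p, D p y = outp C (upd R (B i) y) p.1 p.2) ∧
          ∀ y p, D p y = true → outp C (upd R (B i) y) p.1 p.2 = true) ∧
        (MonSize Q (2 ^ s * (C.gates.length + 1)) ∧
          (∀ y, φ i y = true → Q y = true) ∧
          ∀ y, Q y = true → ∀ p : (Fin s → Bool) × (Fin t → Bool),
            outp C (upd R (B i) y) p.1 p.2 = true → outp C R p.1 p.2 = true) := by
  classical
  set Adm : (E → Bool) → Finset ι → Prop := fun R A =>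
    (∀ e, (∀ i, e ∉ B i) → R e = c e) ∧ (∀ i, i ∉ A → ∀ e ∈ B i, R e = true) ∧
      ∀ i, φ i R = true with hAdm
  have hmem : ∀ {i j e}, e ∈ B i → e ∈ B j → i = j := by
    intro i j e h1 h2
    by_contra h
    exact Set.disjoint_left.1 (hB i j h) h1 h2
  obtain ⟨R, A, ⟨hR1, hR2, hR3⟩, hA, hmax⟩ := greedy (2 ^ s * (2 ^ C.nots - 1)) (Phi C)
    (Phi_le C) Adm (fun e => if ∃ i, e ∈ B i then true else c e) (by
      refine ⟨fun e he => if_neg ?_, fun i _ e he => if_pos ⟨i, he⟩,
        fun i => (hloc i _ _ fun e he => ?_).trans (htop i)⟩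
      · rintro ⟨i, hi⟩
        exact he i hi
      · exact if_pos ⟨i, he⟩)
  refine ⟨A, hA, fun i hi => ?_⟩
  have hle : ∀ y e, upd R (B i) y e = true → R e = true := by
    intro y e h
    by_cases he : e ∈ B i
    · exact hR2 i hi e he
    · rwa [upd_notMem he] at h
  have hout : ∀ y e, (∀ j, e ∉ B j) → upd R (B i) y e = c e := by
    intro y e he
    rw [upd_notMem (he i)]
    exact hR1 e he
  have hφi : ∀ y, φ i (upd R (B i) y) = φ i y := fun y => hloc i _ _ fun e he => upd_mem he
  have hφj : ∀ y j, j ≠ i → φ j (upd R (B i) y) = true := by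
    intro y j hj
    refine (hloc j _ _ fun e he => ?_).trans (hR3 j)
    exact upd_notMem fun h => hj (hmem he h)
  have hgoodR : ∀ u w, Good (guess C R u) C.gates R u w :=
    good_guess C hN fun _ => rfl
  have hgood : ∀ y, φ i y = true → ∀ u w, Good (guess C R u) C.gates (upd R (B i) y) u w := by
    intro y hy
    apply good_guess C hN
    intro u
    refine num_eq_of_Phi C (hle y) ?_ u
    refine hmax i hi (upd R (B i) y) ⟨hout y, ?_, ?_⟩
    · intro j hj e he
      rw [Finset.mem_insert, not_or] at hj
      rw [upd_notMem fun h => hj.1 (hmem he h)]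
      exact hR2 j hj.2 e he
    · intro j
      by_cases h : j = i
      · subst h
        rw [hφi, hy]
      · exact hφj y j h
  refine ⟨R, DD C R (B i), QQ C R (B i), ⟨hR1, hR3⟩, ⟨hout, hφi, hφj⟩,
    ⟨monSize_DD C R (B i), ?_, ?_⟩, monSize_QQ C R (B i), ?_, ?_⟩
  · rintro y hy ⟨u, w⟩
    show (chkA (guess C R u) C.gates (upd R (B i) y) u w &&
      C.out.val (upd R (B i) y) u w (gvals (guess C R u) C.gates (upd R (B i) y) u w)) = _
    rw [chkA_of_good (hgood y hy u w), (hgood y hy u w).gvals]
    rfl
  · rintro y ⟨u, w⟩ h3
    change (chkA (guess C R u) C.gates (upd R (B i) y) u w &&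
      C.out.val (upd R (B i) y) u w
        (gvals (guess C R u) C.gates (upd R (B i) y) u w)) = true at h3
    rw [Bool.and_eq_true] at h3
    obtain ⟨h4, h5⟩ := h3
    rw [keyA (hle y) (hgoodR u w) h4] at h5
    exact h5
  · intro y hy
    rw [QQ_iff]
    intro u
    exact chkA_of_good (hgood y hy u _)
  · rintro y hy ⟨u, w⟩ h
    rw [QQ_iff] at hy
    have h1 : gvals (guess C R u) C.gates (upd R (B i) y) u (fun _ => false) =
        vals C.gates (upd R (B i) y) u fun _ => false := keyA (hle y) (hgoodR u _) (hy u)
    have hz : Good (guess C R u) C.gates (upd R (B i) y) u w := by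
      intro n hn
      rw [hN n hn (upd R (B i) y) u w fun _ => false, ← h1]
      obtain ⟨a, ha⟩ := hn
      have key : ∀ (L : List (Gate E s t)) (n : ℕ) (a : Wire E s t), L[n]? = some (Gate.not a) →
          (gvals (guess C R u) L (upd R (B i) y) u fun _ => false)[n]? =
            some (guess C R u n) := by
        intro L
        induction L using List.reverseRecOn with
        | nil => intro n a h; simp at h
        | append_singleton L g ih =>
          intro n a h
          rw [gvals_concat]
          rcases lt_trichotomy n L.length with h2 | h2 | h2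
          · rw [List.getElem?_append_left (by rw [gvals_length]; exact h2)]
            rw [List.getElem?_append_left h2] at h
            exact ih n a h
          · subst h2
            rw [List.getElem?_append_right le_rfl] at h
            simp only [Nat.sub_self, List.getElem?_cons_zero, Option.some.injEq] at h
            subst h
            rw [List.getElem?_append_right (by rw [gvals_length]), gvals_length, Nat.sub_self]
            rfl
          · rw [List.getElem?_eq_none (by simp; omega)] at h
            cases h
      exact key C.gates n a ha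
    have h2 : outp C (upd R (B i) y) u w =
        C.out.val (upd R (B i) y) u w (gvals (guess C R u) C.gates (upd R (B i) y) u w) := by
      rw [hz.gvals]
      rfl
    have h3 : outp C R u w =
        C.out.val R u w (gvals (guess C R u) C.gates R u w) := by
      rw [(hgoodR u w).gvals]
      rfl
    show outp C R u w = true
    rw [h3]
    change outp C (upd R (B i) y) u w = true at h
    rw [h2] at h
    exact Wire.val_mono (hle y) (gvals_mono _ C.gates u w (hle y)) C.out h

end Pool.Agent.NPP
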