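import Pool.Agent.NPP.Stmts

/-!
# The upper bound in the PSPACE mode (module UPP)
-/

set_option autoImplicit false

namespace Pool.Agent.NPP

namespace UPPM

open Pool.Agent.NegLim Pool.Agent.NLM Pool.Agent.NNDT
open Pool.Agent.Lib_helper26.TQ (Alt)

variable {E : Type} {s t : ℕ}

/-! ### building circuits -/

/-- functions of the input and of the witness -/
abbrev Fn (E : Type) (s t : ℕ) : Type := (E → Bool) → (Fin s → Bool) → (Fin t → Bool) → Bool

/-- the function is the value of a wire -/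
def Av (G : List (Gate E s t)) (f : Fn E s t) : Prop :=
  ∃ a : Wire E s t, WLit a ∧ (∀ m, a = Wire.gate m → m < G.length) ∧
    ∀ x u w, a.val x u w (vals G x u w) = f x u w

/-- only AND and OR gates, only literals -/
def Gd (G : List (Gate E s t)) : Prop := ∀ g ∈ G, GLit g ∧ g.isNot = false

lemma Av.ext {G : List (Gate E s t)} {f : Fn E s t} (h : Av G f) (g : Gate E s t) :
    Av (G ++ [g]) f := by
  obtain ⟨a, h1, h2, h3⟩ := h
  refine ⟨a, h1, fun m hm => ?_, fun x u w => ?_⟩
  · rw [List.length_append]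
    exact Nat.lt_add_right _ (h2 m hm)
  · rw [vals_concat, wire_val_concat _ _ _ _ _ _ (fun m hm => by
      rw [vals_length]; exact h2 m hm)]
    exact h3 x u w

/-- a later circuit -/
def Nx (G G' : List (Gate E s t)) (n : ℕ) : Prop :=
  Gd G' ∧ G'.length ≤ G.length + n ∧ ∀ h : Fn E s t, Av G h → Av G' h

lemma Nx.trans {G G' G'' : List (Gate E s t)} {n m : ℕ} (h : Nx G G' n) (h' : Nx G' G'' m) :
    Nx G G'' (n + m) :=
  ⟨h'.1, by have := h.2.1; have := h'.2.1; omega, fun f hf => h'.2.2 f (h.2.2 f hf)⟩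

lemma Nx.refl {G : List (Gate E s t)} (h : Gd G) : Nx G G 0 := ⟨h, le_rfl, fun _ h => h⟩

lemma Nx.mono {G G' : List (Gate E s t)} {n m : ℕ} (h : Nx G G' n) (hn : n ≤ m) : Nx G G' m :=
  ⟨h.1, by have := h.2.1; omega, h.2.2⟩

lemma step_and {G : List (Gate E s t)} (hG : Gd G) {f g : Fn E s t} (hf : Av G f) (hg : Av G g) :
    ∃ G', Nx G G' 1 ∧ Av G' (fun x u w => f x u w && g x u w) := by
  obtain ⟨a, a1, a2, a3⟩ := hf
  obtain ⟨b, b1, b2, b3⟩ := hg
  refine ⟨G ++ [Gate.and a b], ⟨?_, by simp, fun h hh => hh.ext _⟩, Wire.gate G.length, trivial,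
    ?_, ?_⟩
  · intro g' hg'
    rcases List.mem_append.1 hg' with h | h
    · exact hG g' h
    · rw [List.mem_singleton.1 h]
      exact ⟨⟨a1, b1⟩, rfl⟩
  · intro m hm
    cases hm
    simp
  · intro x u w
    change (vals (G ++ [Gate.and a b]) x u w).getD G.length false = _
    rw [vals_concat, getD_concat, vals_length, if_pos rfl]
    change (a.val x u w _ && b.val x u w _) = _
    rw [a3, b3]

lemma step_or {G : List (Gate E s t)} (hG : Gd G) {f g : Fn E s t} (hf : Av G f) (hg : Av G g) :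
    ∃ G', Nx G G' 1 ∧ Av G' (fun x u w => f x u w || g x u w) := by
  obtain ⟨a, a1, a2, a3⟩ := hf
  obtain ⟨b, b1, b2, b3⟩ := hg
  refine ⟨G ++ [Gate.or a b], ⟨?_, by simp, fun h hh => hh.ext _⟩, Wire.gate G.length, trivial,
    ?_, ?_⟩
  · intro g' hg'
    rcases List.mem_append.1 hg' with h | h
    · exact hG g' h
    · rw [List.mem_singleton.1 h]
      exact ⟨⟨a1, b1⟩, rfl⟩
  · intro m hm
    cases hm
    simp
  · intro x u w
    change (vals (G ++ [Gate.or a b]) x u w).getD G.length false = _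
    rw [vals_concat, getD_concat, vals_length, if_pos rfl]
    change (a.val x u w _ || b.val x u w _) = _
    rw [a3, b3]

/-- a formula of size `n` over the functions of `F` -/
inductive Cm (F : Fn E s t → Prop) : ℕ → Fn E s t → Prop
  | base {f : Fn E s t} : F f → Cm F 0 f
  | and {n m : ℕ} {f g : Fn E s t} : Cm F n f → Cm F m g →
      Cm F (n + m + 1) (fun x u w => f x u w && g x u w)
  | or {n m : ℕ} {f g : Fn E s t} : Cm F n f → Cm F m g →
      Cm F (n + m + 1) (fun x u w => f x u w || g x u w)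

lemma comp {F : Fn E s t → Prop} {n : ℕ} {f : Fn E s t} (h : Cm F n f) :
    ∀ G : List (Gate E s t), Gd G → (∀ g, F g → Av G g) → ∃ G', Nx G G' n ∧ Av G' f := by
  induction h with
  | base hf => exact fun G hG hF => ⟨G, Nx.refl hG, hF _ hf⟩
  | and _ _ ih1 ih2 =>
    intro G hG hF
    obtain ⟨G1, n1, a1⟩ := ih1 G hG hF
    obtain ⟨G2, n2, a2⟩ := ih2 G1 n1.1 (fun g hg => n1.2.2 g (hF g hg))
    obtain ⟨G3, n3, a3⟩ := step_and n2.1 (n2.2.2 _ a1) a2
    exact ⟨G3, (n1.trans n2).trans n3, a3⟩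
  | or _ _ ih1 ih2 =>
    intro G hG hF
    obtain ⟨G1, n1, a1⟩ := ih1 G hG hF
    obtain ⟨G2, n2, a2⟩ := ih2 G1 n1.1 (fun g hg => n1.2.2 g (hF g hg))
    obtain ⟨G3, n3, a3⟩ := step_or n2.1 (n2.2.2 _ a1) a2
    exact ⟨G3, (n1.trans n2).trans n3, a3⟩

lemma compL {F : Fn E s t → Prop} {α : Type} {n : ℕ} {f : α → Fn E s t}
    (h : ∀ a, Cm F n (f a)) (l : List α) :
    ∀ G : List (Gate E s t), Gd G → (∀ g, F g → Av G g) →
      ∃ G', Nx G G' (n * l.length) ∧ ∀ a ∈ l, Av G' (f a) := by
  induction l with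
  | nil => exact fun G hG hF => ⟨G, Nx.refl hG, fun a ha => absurd ha (by simp)⟩
  | cons a l ih =>
    intro G hG hF
    obtain ⟨G1, n1, a1⟩ := ih G hG hF
    obtain ⟨G2, n2, a2⟩ := comp (h a) G1 n1.1 (fun g hg => n1.2.2 g (hF g hg))
    refine ⟨G2, (n1.trans n2).mono (by rw [List.length_cons]; ring_nf; rfl), ?_⟩
    intro b hb
    rcases List.mem_cons.1 hb with rfl | hb
    · exact a2
    · exact n2.2.2 _ (a1 b hb)

lemma cm_all {F : Fn E s t → Prop} {α : Type} {n : ℕ} {f : α → Fn E s t}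
    (h1 : F (fun _ _ _ => true)) (h : ∀ a, Cm F n (f a)) (l : List α) :
    Cm F ((n + 1) * l.length) (fun x u w => l.all fun a => f a x u w) := by
  induction l with
  | nil => simpa using Cm.base h1
  | cons a l ih =>
    have h2 := Cm.and (h a) ih
    have e : n + (n + 1) * l.length + 1 = (n + 1) * (a :: l).length := by
      rw [List.length_cons]; ring
    rw [e] at h2
    exact h2

lemma cm_any {F : Fn E s t → Prop} {α : Type} {n : ℕ} {f : α → Fn E s t}
    (h1 : F (fun _ _ _ => false)) (h : ∀ a, Cm F n (f a)) (l : List α) :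
    Cm F ((n + 1) * l.length) (fun x u w => l.any fun a => f a x u w) := by
  induction l with
  | nil => simpa using Cm.base h1
  | cons a l ih =>
    have h2 := Cm.or (h a) ih
    have e : n + (n + 1) * l.length + 1 = (n + 1) * (a :: l).length := by
      rw [List.length_cons]; ring
    rw [e] at h2
    exact h2

/-- the free functions -/
def Ba (f : Fn E s t) : Prop :=
  (∃ e, f = fun x _ _ => x e) ∨ (∃ b, f = fun _ _ _ => b) ∨ (∃ i, f = fun _ _ w => w i) ∨
    ∃ i, f = fun _ _ w => !(w i)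

lemma Ba.av {f : Fn E s t} (h : Ba f) (G : List (Gate E s t)) : Av G f := by
  rcases h with ⟨e, rfl⟩ | ⟨b, rfl⟩ | ⟨i, rfl⟩ | ⟨i, rfl⟩
  · exact ⟨Wire.inp e, trivial, fun m hm => (by cases hm), fun _ _ _ => rfl⟩
  · exact ⟨Wire.wit fun _ _ => b, Or.inl ⟨b, fun _ _ => rfl⟩, fun m hm => (by cases hm),
      fun _ _ _ => rfl⟩
  · exact ⟨Wire.wit fun _ w => w i, Or.inr (Or.inr (Or.inr (Or.inl ⟨i, fun _ _ => rfl⟩))),
      fun m hm => (by cases hm), fun _ _ _ => rfl⟩
  · exact ⟨Wire.wit fun _ w => !(w i), Or.inr (Or.inr (Or.inr (Or.inr ⟨i, fun _ _ => rfl⟩))),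
      fun m hm => (by cases hm), fun _ _ _ => rfl⟩

/-- a witness bit compared with a constant -/
lemma ba_eq (i : Fin t) (b : Bool) : Ba (E := E) (s := s) (fun _ _ w => w i == b) := by
  cases b with
  | true =>
    refine Or.inr (Or.inr (Or.inl ⟨i, ?_⟩))
    funext x u w
    simp
  | false =>
    refine Or.inr (Or.inr (Or.inr ⟨i, ?_⟩))
    funext x u w
    simp

/-- **two stages** -/
lemma two {α : Type} [Fintype α] {n N : ℕ} (f : α → Fn E s t) (g : Fn E s t)
    (h1 : ∀ a, Cm Ba n (f a)) (h2 : Cm (fun h => Ba h ∨ ∃ a, h = f a) N g) :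
    ∃ C : NCirc E s t, Lit C ∧ C.nots = 0 ∧ C.gates.length ≤ n * Fintype.card α + N ∧
      ∀ x u w, outp C x u w = g x u w := by
  obtain ⟨G1, n1, a1⟩ := compL h1 (Finset.univ : Finset α).toList [] (by intro g hg; simp at hg)
    (fun g hg => hg.av [])
  obtain ⟨G2, n2, a, b1, b2, b3⟩ := comp h2 G1 n1.1 (by
    rintro g (hg | ⟨a, rfl⟩)
    · exact hg.av G1
    · exact a1 a (Finset.mem_toList.2 (Finset.mem_univ a)))
  refine ⟨⟨G2, a⟩, ⟨fun g hg => (n2.1 g hg).1, b1⟩, ?_, ?_, fun x u w => b3 x u w⟩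
  · change G2.countP Gate.isNot = 0
    rw [List.countP_eq_zero]
    intro g hg
    rw [(n2.1 g hg).2]
    decide
  · have e1 := n1.2.1
    have e2 := n2.2.1
    rw [Finset.length_toList, Finset.card_univ, List.length_nil] at e1
    change G2.length ≤ _
    omega

/-! ### the game -/

lemma alt_false (a : ℕ) (qs : List Bool) (R : List Bool → Prop) :
    Alt (List.replicate a false ++ qs) R ↔
      ∀ l : List Bool, l.length = a → Alt qs (fun l2 => R (l ++ l2)) := by
  induction a generalizing R with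
  | zero =>
    constructor
    · intro h l hl
      rw [List.length_eq_zero_iff.1 hl]
      exact h
    · intro h
      exact h [] rfl
  | succ a ih =>
    rw [List.replicate_succ, List.cons_append]
    change (∀ b, Alt (List.replicate a false ++ qs) (fun w => R (b :: w))) ↔ _
    constructor
    · intro h l hl
      cases l with
      | nil => simp at hl
      | cons b l =>
        have := (ih _).1 (h b) l (by simpa using hl)
        exact this
    · intro h b
      rw [ih]
      intro l hl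
      exact h (b :: l) (by simp [hl])

lemma alt_true (a : ℕ) (R : List Bool → Prop) :
    Alt (List.replicate a true) R ↔ ∃ l : List Bool, l.length = a ∧ R l := by
  induction a generalizing R with
  | zero =>
    constructor
    · intro h
      exact ⟨[], rfl, h⟩
    · rintro ⟨l, hl, h⟩
      rw [List.length_eq_zero_iff.1 hl] at h
      exact h
  | succ a ih =>
    rw [List.replicate_succ]
    change (∃ b, Alt (List.replicate a true) (fun w => R (b :: w))) ↔ _
    constructor
    · rintro ⟨b, h⟩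
      obtain ⟨l, hl, hR⟩ := (ih _).1 h
      exact ⟨b :: l, by simp [hl], hR⟩
    · rintro ⟨l, hl, hR⟩
      cases l with
      | nil => simp at hl
      | cons b l => exact ⟨b, (ih _).2 ⟨l, by simpa using hl, hR⟩⟩

/-! ### the function -/

noncomputable section fn

variable {m v k a b : ℕ}

/-- position of a bit of the vertex number `j` -/
def px (a : ℕ) (j : Fin k) (p : Fin b) : Fin (a + k * b) := Fin.natAdd a (finProdFinEquiv (j, p))

/-- the vertex number `j` is `x` -/
def vt (a b : ℕ) (c : Fin k × Fin v) : Fn (Fin m × Edge v) 0 (a + k * b) := fun _ _ w =>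
  (Finset.univ : Finset (Fin b)).toList.all fun p => w (px a c.1 p) == (c.2 : ℕ).testBit p

/-- the number of the graph is not `i` -/
def ni (k b : ℕ) (i : Fin m) : Fn (Fin m × Edge v) 0 (a + k * b) := fun _ _ w =>
  (Finset.univ : Finset (Fin a)).toList.any fun p =>
    w (Fin.castAdd (k * b) p) == !((i : ℕ).testBit p)

/-- the pair of vertices is the edge `e` of the graph `i` -/
def pe (i : Fin m) (c : Fin k × Fin k) (e : Edge v) : Fn (Fin m × Edge v) 0 (a + k * b) :=
  fun z u w => z (i, e) && ((vt a b (c.1, e.1.1) z u w && vt a b (c.2, e.1.2) z u w) ||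
    (vt a b (c.1, e.1.2) z u w && vt a b (c.2, e.1.1) z u w))

/-- the pairs -/
def prs (k : ℕ) : List (Fin k × Fin k) :=
  ((Finset.univ : Finset (Fin k × Fin k)).filter fun c => c.1 < c.2).toList

/-- all pairs are edges -/
def ae (i : Fin m) : Fn (Fin m × Edge v) 0 (a + k * b) := fun z u w =>
  (prs k).all fun c => (Finset.univ : Finset (Edge v)).toList.any fun e =>
    pe (a := a) (b := b) i c e z u w

/-- the output -/
def ou (m v k a b : ℕ) : Fn (Fin m × Edge v) 0 (a + k * b) := fun z u w =>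
  (Finset.univ : Finset (Fin m)).toList.all fun i => ni (a := a) k b i z u w ||
    ae (k := k) (a := a) (b := b) i z u w

/-- the functions of the second stage -/
def F2 (m v k a b : ℕ) : Fn (Fin m × Edge v) 0 (a + k * b) → Prop :=
  fun h => Ba h ∨ ∃ c : Fin k × Fin v, h = vt a b c

lemma cm_vt (c : Fin k × Fin v) :
    Cm (Ba (E := Fin m × Edge v) (s := 0) (t := a + k * b)) b (vt a b c) := by
  have h := cm_all (F := Ba (E := Fin m × Edge v) (s := 0) (t := a + k * b)) (n := 0)
    (Or.inr (Or.inl ⟨true, rfl⟩)) (fun p : Fin b => Cm.base (ba_eq (px a c.1 p)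
      ((c.2 : ℕ).testBit p))) (Finset.univ : Finset (Fin b)).toList
  rw [Finset.length_toList, Finset.card_univ, Fintype.card_fin, zero_add, one_mul] at h
  exact h

lemma card_edge (v : ℕ) : Fintype.card (Edge v) ≤ v ^ 2 := by
  have := Fintype.card_subtype_le (fun e : Fin v × Fin v => e.1 < e.2)
  rw [Fintype.card_prod, Fintype.card_fin] at this
  calc Fintype.card (Edge v) ≤ v * v := this
    _ = v ^ 2 := (sq v).symm

lemma len_prs (k : ℕ) : (prs k).length ≤ k ^ 2 := by
  unfold prs
  rw [Finset.length_toList]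
  refine (Finset.card_filter_le _ _).trans ?_
  rw [Finset.card_univ, Fintype.card_prod, Fintype.card_fin, sq]

lemma cm_ou : Cm (F2 m v k a b)
    ((a + ((4 + 1) * Fintype.card (Edge v) + 1) * (prs k).length + 1 + 1) * m)
    (ou m v k a b) := by
  have hT : F2 m v k a b (fun _ _ _ => true) := Or.inl (Or.inr (Or.inl ⟨true, rfl⟩))
  have hF : F2 m v k a b (fun _ _ _ => false) := Or.inl (Or.inr (Or.inl ⟨false, rfl⟩))
  have hv : ∀ c : Fin k × Fin v, Cm (F2 m v k a b) 0 (vt a b c) := fun c =>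
    Cm.base (Or.inr ⟨c, rfl⟩)
  have hpe : ∀ (i : Fin m) (c : Fin k × Fin k) (e : Edge v),
      Cm (F2 m v k a b) 4 (pe (a := a) (b := b) i c e) := fun i c e =>
    Cm.and (Cm.base (Or.inl (Or.inl ⟨(i, e), rfl⟩)))
      (Cm.or (Cm.and (hv (c.1, e.1.1)) (hv (c.2, e.1.2)))
        (Cm.and (hv (c.1, e.1.2)) (hv (c.2, e.1.1))))
  have hae : ∀ i : Fin m, Cm (F2 m v k a b)
      (((4 + 1) * Fintype.card (Edge v) + 1) * (prs k).length)
      (ae (k := k) (a := a) (b := b) i) := by
    intro i
    refine cm_all hT (fun c => ?_) (prs k)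
    have h := cm_any hF (fun e => hpe i c e) (Finset.univ : Finset (Edge v)).toList
    rw [Finset.length_toList, Finset.card_univ] at h
    exact h
  have hni : ∀ i : Fin m, Cm (F2 m v k a b) a (ni (a := a) k b i) := by
    intro i
    have h := cm_any (n := 0) hF (fun p : Fin a => Cm.base (F := F2 m v k a b) (Or.inl
      (ba_eq (Fin.castAdd (k * b) p) (!((i : ℕ).testBit p)))))
      (Finset.univ : Finset (Fin a)).toList
    rw [Finset.length_toList, Finset.card_univ, Fintype.card_fin, zero_add, one_mul] at h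
    exact h
  have h := cm_all hT (fun i : Fin m => Cm.or (hni i) (hae i)) (Finset.univ : Finset (Fin m)).toList
  rw [Finset.length_toList, Finset.card_univ, Fintype.card_fin] at h
  exact h

/-! ### its meaning -/

lemma vt_iff (c : Fin k × Fin v) (z : Fin m × Edge v → Bool) (u : Fin 0 → Bool)
    (w : Fin (a + k * b) → Bool) :
    vt a b c z u w = true ↔ ∀ p : Fin b, w (px a c.1 p) = (c.2 : ℕ).testBit p := by
  unfold vt
  rw [List.all_eq_true]
  simp [Finset.mem_toList]

lemma ni_iff (i : Fin m) (z : Fin m × Edge v → Bool) (u : Fin 0 → Bool)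
    (w : Fin (a + k * b) → Bool) :
    ni (a := a) k b i z u w = true ↔
      ∃ p : Fin a, w (Fin.castAdd (k * b) p) ≠ (i : ℕ).testBit p := by
  unfold ni
  rw [List.any_eq_true]
  constructor
  · rintro ⟨p, -, hp⟩
    refine ⟨p, ?_⟩
    rw [beq_iff_eq] at hp
    rw [hp]
    exact Bool.not_ne_self _
  · rintro ⟨p, hp⟩
    refine ⟨p, Finset.mem_toList.2 (Finset.mem_univ p), ?_⟩
    rw [beq_iff_eq]
    cases h1 : w (Fin.castAdd (k * b) p) <;> cases h2 : (i : ℕ).testBit p <;>
      simp_all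

lemma ae_iff (i : Fin m) (z : Fin m × Edge v → Bool) (u : Fin 0 → Bool)
    (w : Fin (a + k * b) → Bool) :
    ae (k := k) (a := a) (b := b) i z u w = true ↔
      ∀ j j' : Fin k, j < j' → ∃ e : Edge v, z (i, e) = true ∧
        ((vt a b (j, e.1.1) z u w = true ∧ vt a b (j', e.1.2) z u w = true) ∨
          (vt a b (j, e.1.2) z u w = true ∧ vt a b (j', e.1.1) z u w = true)) := by
  unfold ae prs
  rw [List.all_eq_true]
  constructor
  · intro h j j' hj
    have h1 := h (j, j') (Finset.mem_toList.2 (Finset.mem_filter.2 ⟨Finset.mem_univ _, hj⟩))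
    rw [List.any_eq_true] at h1
    obtain ⟨e, -, he⟩ := h1
    unfold pe at he
    simp only [Bool.and_eq_true, Bool.or_eq_true] at he
    exact ⟨e, he⟩
  · intro h c hc
    rw [List.any_eq_true]
    obtain ⟨e, he⟩ := h c.1 c.2 (Finset.mem_filter.1 (Finset.mem_toList.1 hc)).2
    refine ⟨e, Finset.mem_toList.2 (Finset.mem_univ e), ?_⟩
    unfold pe
    simp only [Bool.and_eq_true, Bool.or_eq_true]
    exact he

lemma ou_iff (z : Fin m × Edge v → Bool) (u : Fin 0 → Bool) (w : Fin (a + k * b) → Bool) :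
    ou m v k a b z u w = true ↔ ∀ i : Fin m, ni (a := a) k b i z u w = true ∨
      ae (k := k) (a := a) (b := b) i z u w = true := by
  unfold ou
  rw [List.all_eq_true]
  constructor
  · intro h i
    have := h i (Finset.mem_toList.2 (Finset.mem_univ i))
    rwa [Bool.or_eq_true] at this
  · intro h i _
    rw [Bool.or_eq_true]
    exact h i

lemma tb_inj {n x y : ℕ} (hx : x < 2 ^ n) (hy : y < 2 ^ n)
    (h : ∀ p : Fin n, x.testBit p = y.testBit p) : x = y := by
  apply Nat.eq_of_testBit_eq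
  intro i
  by_cases hi : i < n
  · exact h ⟨i, hi⟩
  · rw [Nat.testBit_lt_two_pow (hx.trans_le (Nat.pow_le_pow_right (by norm_num) (not_lt.1 hi))),
      Nat.testBit_lt_two_pow (hy.trans_le (Nat.pow_le_pow_right (by norm_num) (not_lt.1 hi)))]

end fn

section cliques

variable {m v k a b : ℕ}

/-- distinct vertices which are pairwise adjacent give a clique -/
lemma clq_of {g : Fin k → Fin v} {y : Edge v → Bool}
    (h : ∀ j j' : Fin k, j < j' → ∃ e : Edge v, y e = true ∧
      ((e.1.1 = g j ∧ e.1.2 = g j') ∨ (e.1.2 = g j ∧ e.1.1 = g j'))) : clq v k y = true := by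
  classical
  have hne : ∀ j j' : Fin k, j < j' → g j ≠ g j' := by
    intro j j' hj hg
    obtain ⟨e, -, h1 | h1⟩ := h j j' hj
    · have := e.2
      rw [h1.1, h1.2, hg] at this
      exact lt_irrefl _ this
    · have := e.2
      rw [h1.1, h1.2, hg] at this
      exact lt_irrefl _ this
  have hinj : Function.Injective g := by
    intro j j' hg
    rcases lt_trichotomy j j' with h1 | h1 | h1
    · exact absurd hg (hne _ _ h1)
    · exact h1
    · exact absurd hg.symm (hne _ _ h1)
  unfold clq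
  rw [decide_eq_true_eq]
  refine ⟨Finset.univ.image g, ?_, ?_⟩
  · rw [Finset.card_image_of_injective _ hinj, Finset.card_univ, Fintype.card_fin]
  · intro e h1 h2
    obtain ⟨j1, -, e1⟩ := Finset.mem_image.1 h1
    obtain ⟨j2, -, e2⟩ := Finset.mem_image.1 h2
    have he := e.2
    have key : ∀ e' : Edge v, e'.1.1 = e.1.1 → e'.1.2 = e.1.2 → e' = e := by
      intro e' q1 q2
      exact Subtype.ext (Prod.ext q1 q2)
    rcases lt_trichotomy j1 j2 with h3 | h3 | h3
    · obtain ⟨e', hy, h4 | h4⟩ := h j1 j2 h3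
      · rw [← key e' (h4.1.trans e1) (h4.2.trans e2)]
        exact hy
      · have := e'.2
        rw [h4.1, h4.2, e1, e2] at this
        exact absurd this (lt_asymm he)
    · rw [← e1, ← e2, h3] at he
      exact absurd he (lt_irrefl _)
    · obtain ⟨e', hy, h4 | h4⟩ := h j2 j1 h3
      · have := e'.2
        rw [h4.1, h4.2, e1, e2] at this
        exact absurd this (lt_asymm he)
      · rw [← key e' (h4.2.trans e1) (h4.1.trans e2)]
        exact hy

lemma vt_uniq (hvb : v ≤ 2 ^ b) {j : Fin k} {x y : Fin v} {z : Fin m × Edge v → Bool}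
    {u : Fin 0 → Bool} {w : Fin (a + k * b) → Bool} (hx : vt a b (j, x) z u w = true)
    (hy : vt a b (j, y) z u w = true) : x = y := by
  rw [vt_iff] at hx hy
  apply Fin.ext
  exact tb_inj (x.2.trans_le hvb) (y.2.trans_le hvb) fun p => (hx p).symm.trans (hy p)

lemma clq_ae (hvb : v ≤ 2 ^ b) (hk : 1 ≤ k) (hkv : k ≤ v) {i : Fin m}
    {z : Fin m × Edge v → Bool} {u : Fin 0 → Bool} {w : Fin (a + k * b) → Bool}
    (h : ae (k := k) (a := a) (b := b) i z u w = true) :
    clq v k (fun e => z (i, e)) = true := by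
  rw [ae_iff] at h
  rcases Nat.lt_or_ge 1 k with h1 | h1
  · have hex : ∀ j : Fin k, ∃ x : Fin v, vt a b (j, x) z u w = true := by
      intro j
      by_cases h0 : (j : ℕ) = 0
      · obtain ⟨e, -, h2 | h2⟩ := h j ⟨1, h1⟩ (by rw [Fin.lt_def, h0]; norm_num)
        · exact ⟨_, h2.1⟩
        · exact ⟨_, h2.1⟩
      · obtain ⟨e, -, h2 | h2⟩ := h ⟨0, by omega⟩ j (by rw [Fin.lt_def]; exact Nat.pos_of_ne_zero h0)
        · exact ⟨_, h2.2⟩
        · exact ⟨_, h2.2⟩
    choose g hg using hex
    apply clq_of (g := g)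
    intro j j' hj
    obtain ⟨e, he, h2 | h2⟩ := h j j' hj
    · exact ⟨e, he, Or.inl ⟨vt_uniq hvb h2.1 (hg j), vt_uniq hvb h2.2 (hg j')⟩⟩
    · exact ⟨e, he, Or.inr ⟨vt_uniq hvb h2.1 (hg j), vt_uniq hvb h2.2 (hg j')⟩⟩
  · have hk1 : k = 1 := le_antisymm h1 hk
    subst hk1
    apply clq_of (g := fun _ => (⟨0, by omega⟩ : Fin v))
    intro j j' hj
    exfalso
    have := j'.2
    have hj' : (j : ℕ) < j' := hj
    omega

lemma ae_clq {i : Fin m} {z : Fin m × Edge v → Bool} {u : Fin 0 → Bool}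
    {w : Fin (a + k * b) → Bool} {S : Finset (Fin v)} (hS : S.card = k)
    (hc : ∀ e : Edge v, e.1.1 ∈ S → e.1.2 ∈ S → z (i, e) = true)
    (hw : ∀ (j : Fin k) (p : Fin b), w (px a j p) = (S.orderEmbOfFin hS j : ℕ).testBit p) :
    ae (k := k) (a := a) (b := b) i z u w = true := by
  rw [ae_iff]
  intro j j' hj
  have hlt : S.orderEmbOfFin hS j < S.orderEmbOfFin hS j' := (S.orderEmbOfFin hS).strictMono hj
  refine ⟨⟨(S.orderEmbOfFin hS j, S.orderEmbOfFin hS j'), hlt⟩, hc _ ?_ ?_, Or.inl ⟨?_, ?_⟩⟩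
  · exact Finset.orderEmbOfFin_mem S hS j
  · exact Finset.orderEmbOfFin_mem S hS j'
  · rw [vt_iff]
    exact fun p => hw j p
  · rw [vt_iff]
    exact fun p => hw j' p

end cliques

/-- the list as a witness -/
def ww (n : ℕ) (l : List Bool) : Fin n → Bool := fun j => l.getD j false

lemma ww_left {a c : ℕ} {l1 l2 : List Bool} (h1 : l1.length = a) (p : Fin a) :
    ww (a + c) (l1 ++ l2) (Fin.castAdd c p) = l1.getD p false := by
  unfold ww
  rw [Fin.val_castAdd, List.getD_append _ _ _ _ (by rw [h1]; exact p.2)]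

lemma ww_right {a c : ℕ} {l1 l2 : List Bool} (h1 : l1.length = a) (q : Fin c) :
    ww (a + c) (l1 ++ l2) (Fin.natAdd a q) = l2.getD q false := by
  unfold ww
  rw [Fin.val_natAdd, List.getD_append_right _ _ _ _ (by rw [h1]; omega), h1]
  congr 1
  omega

lemma getD_ofFn {n : ℕ} (f : Fin n → Bool) (p : Fin n) : (List.ofFn f).getD p false = f p := by
  rw [List.getD_eq_getElem?_getD, List.getElem?_eq_getElem (by rw [List.length_ofFn]; exact p.2)]
  simp

/-- the game for the function -/
theorem game {m v k a b : ℕ} (hma : m ≤ 2 ^ a) (hvb : v ≤ 2 ^ b) (hk : 1 ≤ k) (hkv : k ≤ v)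
    (z : Fin m × Edge v → Bool) (u : List Bool → Fin 0 → Bool) :
    (∀ l1 : List Bool, l1.length = a → ∃ l2 : List Bool, l2.length = k * b ∧
      ou m v k a b z (u (l1 ++ l2)) (ww (a + k * b) (l1 ++ l2)) = true) ↔ AllClq m v k z := by
  classical
  constructor
  · intro h i
    obtain ⟨l2, h2, h3⟩ := h (List.ofFn fun p : Fin a => (i : ℕ).testBit p) (List.length_ofFn)
    rcases (ou_iff z _ _).1 h3 i with h4 | h4
    · obtain ⟨p, hp⟩ := (ni_iff i z _ _).1 h4
      rw [ww_left (List.length_ofFn), getD_ofFn] at hp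
      exact absurd rfl hp
    · exact clq_ae hvb hk hkv h4
  · intro h l1 h1
    by_cases hex : ∃ i : Fin m, ∀ p : Fin a, l1.getD p false = (i : ℕ).testBit p
    · obtain ⟨i, hi⟩ := hex
      have hcl := h i
      unfold clq at hcl
      rw [decide_eq_true_eq] at hcl
      obtain ⟨S, hS, hc⟩ := hcl
      refine ⟨List.ofFn fun q : Fin (k * b) =>
        (S.orderEmbOfFin hS (finProdFinEquiv.symm q).1 : ℕ).testBit (finProdFinEquiv.symm q).2,
        List.length_ofFn, ?_⟩
      rw [ou_iff]
      intro i'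
      by_cases hii : i' = i
      · right
        subst hii
        apply ae_clq hS hc
        intro j p
        unfold px
        rw [ww_right h1, getD_ofFn, Equiv.symm_apply_apply]
      · left
        rw [ni_iff]
        by_contra hcon
        push Not at hcon
        apply hii
        apply Fin.ext
        apply tb_inj (i'.2.trans_le hma) (i.2.trans_le hma)
        intro p
        rw [← hcon p, ww_left h1, hi p]
    · refine ⟨List.replicate (k * b) false, List.length_replicate, ?_⟩
      rw [ou_iff]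
      intro i
      left
      rw [ni_iff]
      by_contra hcon
      push Not at hcon
      apply hex
      refine ⟨i, fun p => ?_⟩
      rw [← hcon p, ww_left h1]

lemma bound {m v k a b E P : ℕ} (hm : 1 ≤ m) (hk : 1 ≤ k) (hv : 2 ≤ v) (hb : b ≤ v)
    (hE : E ≤ v ^ 2) (hP : P ≤ k ^ 2) :
    b * (k * v) + (a + ((4 + 1) * E + 1) * P + 1 + 1) * m ≤
      40 * (m * v ^ 2 * k ^ 2 * (a + 1)) := by
  set A := v ^ 2 * k ^ 2 with hA
  have hA1 : 1 ≤ A := Nat.one_le_iff_ne_zero.2 (by positivity)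
  have hk2 : k ≤ k ^ 2 := by nlinarith
  have e1 : b * (k * v) ≤ A := by
    calc b * (k * v) ≤ v * (k * v) := Nat.mul_le_mul_right _ hb
      _ = v ^ 2 * k := by ring
      _ ≤ A := Nat.mul_le_mul_left _ hk2
  have e2 : ((4 + 1) * E + 1) * P ≤ 6 * A := by
    have h1 : (4 + 1) * E + 1 ≤ 6 * v ^ 2 := by nlinarith
    calc ((4 + 1) * E + 1) * P ≤ (6 * v ^ 2) * k ^ 2 := Nat.mul_le_mul h1 hP
      _ = 6 * A := by rw [hA]; ring
  have e3 : (a + ((4 + 1) * E + 1) * P + 1 + 1) * m ≤ (a + 6 * A + 2) * m :=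
    Nat.mul_le_mul_right _ (by omega)
  have e4 : a * m ≤ a * (A * m) := Nat.mul_le_mul_left _ (by nlinarith)
  have e5 : A ≤ A * m := by nlinarith
  have e6 : m ≤ A * m := by nlinarith
  have e7 : 40 * (m * v ^ 2 * k ^ 2 * (a + 1)) = 40 * (a * (A * m)) + 40 * (A * m) := by
    rw [hA]; ring
  have e8 : (a + 6 * A + 2) * m = a * m + 6 * (A * m) + 2 * m := by ring
  rw [e7]
  rw [e8] at e3
  have e9 : 0 ≤ a * (A * m) := Nat.zero_le _
  omega

end UPPM

open UPPM in
theorem UPP_thm : Stmt_UPP := by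
  intro m v k hm hk hkv hv
  have hma : m ≤ 2 ^ Nat.clog 2 m := Nat.le_pow_clog (by norm_num) m
  have hvb : v ≤ 2 ^ Nat.clog 2 v := Nat.le_pow_clog (by norm_num) v
  have hb : Nat.clog 2 v ≤ v := Nat.clog_le_of_le_pow (Nat.lt_two_pow_self).le
  obtain ⟨C, h1, h2, h3, h4⟩ := two (vt (Nat.clog 2 m) (Nat.clog 2 v))
    (ou m v k (Nat.clog 2 m) (Nat.clog 2 v)) cm_vt cm_ou
  refine ⟨C, h1, h2, ?_, fun z => ?_⟩
  · rw [Fintype.card_prod, Fintype.card_fin, Fintype.card_fin] at h3
    exact h3.trans (bound hm hk hv hb (card_edge v) (len_prs k))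
  · unfold Pspace
    rw [alt_false]
    simp only [alt_true, h4]
    exact game hma hvb hk hkv z (fun l i => l.getD (i.elim0) false)

end Pool.Agent.NPP
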