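import Pool.Agent.NPP.Stmts
import Pool.Agent.NegLim.Prog

/-!
# BLK: from a circuit with NOT gates for `m` graphs to one without NOT gates for `m'` graphs
-/

set_option autoImplicit false

namespace Pool.Agent.NPP

open Finset Pool.Agent.NegLim Pool.Agent.NLM Pool.Agent.NEG72

namespace BLKM

lemma clq_true {v k : ℕ} (hk : k ≤ v) : clq v k (fun _ => true) = true := by
  unfold clq
  rw [decide_eq_true_iff]
  obtain ⟨S, -, hS⟩ := Finset.exists_subset_card_eq (s := (univ : Finset (Fin v))) (n := k)
    (by rw [card_univ, Fintype.card_fin]; exact hk)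
  exact ⟨S, hS, fun _ _ _ => rfl⟩

end BLKM

open BLKM in
theorem BLK_thm (hTRF : Stmt_TRF) : Stmt_BLK := by
  classical
  intro m v k s t m' θ C hk hN hm hC
  set M := 2 ^ (s + C.nots) with hM
  let idx : Fin M → Fin m' → Fin m := fun g j => Fin.castLE hm (finProdFinEquiv (g, j))
  have hidx : ∀ g j g' j', idx g j = idx g' j' → g = g' ∧ j = j' := by
    intro g i g' i' h
    have h1 := finProdFinEquiv.injective (Fin.castLE_injective hm h)
    exact ⟨congrArg Prod.fst h1, congrArg Prod.snd h1⟩
  obtain ⟨A, hA, hAF⟩ := hTRF (Fin m × Edge v) (Fin M) s t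
    (fun g => {e | ∃ j, e.1 = idx g j})
    (fun g g' hgg => Set.disjoint_left.2 (by
      rintro e ⟨j, h1⟩ ⟨j', h2⟩
      exact hgg (hidx g j g' j' (h1.symm.trans h2)).1))
    (fun _ => true) (fun g x => decide (AllClq m' v k fun q => x (idx g q.1, q.2)))
    (by
      intro g x x' hx
      have h1 : (fun q : Fin m' × Edge v => x (idx g q.1, q.2)) =
          fun q => x' (idx g q.1, q.2) := by
        funext q
        exact hx _ ⟨q.1, rfl⟩
      simp only [h1])
    (fun g => decide_eq_true fun i => clq_true hk) C hN θ
    (by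
      intro x hx
      rw [hC x]
      constructor
      · intro h g
        exact decide_eq_true fun j => h (idx g j)
      · intro h i
        by_cases hj : ∃ g j, idx g j = i
        · obtain ⟨g, j, rfl⟩ := hj
          exact (of_decide_eq_true (h g)) j
        · have h1 : (fun e : Edge v => x (i, e)) = fun _ => true := by
            funext e
            apply hx
            rintro g ⟨j, hj'⟩
            exact hj ⟨g, j, hj'.symm⟩
          rw [h1]
          exact clq_true hk)
  obtain ⟨g, hg⟩ : ∃ g, g ∉ A := by
    by_contra hall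
    push Not at hall
    have h3 : (univ : Finset (Fin M)) ⊆ A := fun i _ => hall i
    have h4 := Finset.card_le_card h3
    rw [Finset.card_univ, Fintype.card_fin] at h4
    have h5 : 0 < 2 ^ s := by positivity
    have h6 : 0 < 2 ^ C.nots := by positivity
    have h7 : 2 ^ s * (2 ^ C.nots - 1) < 2 ^ s * 2 ^ C.nots :=
      Nat.mul_lt_mul_of_pos_left (by omega) h5
    rw [← pow_add] at h7
    omega
  obtain ⟨D, hDs, hD⟩ := hAF g hg
  -- the substitution
  let σ : (Fin m' × Edge v → Bool) → Fin m × Edge v → Bool := fun z e =>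
    if h : ∃ j, e.1 = idx g j then z (h.choose, e.2) else true
  have hσ : IsProj σ := by
    intro e
    by_cases h : ∃ j, e.1 = idx g j
    · right; left
      refine ⟨(h.choose, e.2), ?_⟩
      funext y
      simp only [σ, dif_pos h]
    · right; right
      refine ⟨true, ?_⟩
      funext y
      simp only [σ, dif_neg h]
  have hσ1 : ∀ (z : Fin m' × Edge v → Bool) (j : Fin m') (e : Edge v),
      σ z (idx g j, e) = z (j, e) := by
    intro z j e
    have h : ∃ j', (idx g j, e).1 = idx g j' := ⟨j, rfl⟩
    have h2 : h.choose = j := ((hidx g j g _ h.choose_spec).2).symm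
    simp only [σ, dif_pos h]
    rw [h2]
  refine ⟨fun p z => D p (σ z), fun p => (hDs p).comp hσ, fun z => ?_⟩
  rw [← hD (σ z), decide_eq_true_iff]
  have h1 : (fun q : Fin m' × Edge v => σ z (idx g q.1, q.2)) = z := by
    funext q
    exact hσ1 z q.1 q.2
  rw [h1]

end Pool.Agent.NPP
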