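import Pool.Agent.NPP.TRF2
import Pool.Agent.NPP.BLK

/-!
# From a circuit with NOT gates for `m` graphs to programs without NOT gates for `m'` graphs
-/

set_option autoImplicit false

namespace Pool.Agent.NPP

open Finset Pool.Agent.NegLim Pool.Agent.NLM Pool.Agent.NEG72

open BLKM in
theorem blk2 {m v k s t m' : ℕ} (C : NCirc (Fin m × Edge v) s t) (hk : k ≤ v) (hN : C.NotsFree)
    (hm : 2 ^ (s + C.nots) * m' ≤ m) :
    ∃ (Z : (Fin m' × Edge v → Bool) → Fin m × Edge v → Bool) (R : Fin m × Edge v → Bool)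
      (D : (Fin s → Bool) × (Fin t → Bool) → (Fin m' × Edge v → Bool) → Bool)
      (Q : (Fin m' × Edge v → Bool) → Bool),
      AllClq m v k R ∧ (∀ z, AllClq m v k (Z z) ↔ AllClq m' v k z) ∧
      (∀ p, MonSize (D p) (C.gates.length + 1)) ∧
      (∀ z, AllClq m' v k z → ∀ p, D p z = outp C (Z z) p.1 p.2) ∧
      (∀ z p, D p z = true → outp C (Z z) p.1 p.2 = true) ∧
      MonSize Q (2 ^ s * (C.gates.length + 1)) ∧
      (∀ z, AllClq m' v k z → Q z = true) ∧
      ∀ z, Q z = true → ∀ p : (Fin s → Bool) × (Fin t → Bool),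
        outp C (Z z) p.1 p.2 = true → outp C R p.1 p.2 = true := by
  classical
  set M := 2 ^ (s + C.nots) with hM
  let idx : Fin M → Fin m' → Fin m := fun g j => Fin.castLE hm (finProdFinEquiv (g, j))
  have hidx : ∀ g j g' j', idx g j = idx g' j' → g = g' ∧ j = j' := by
    intro g i g' i' h
    have h1 := finProdFinEquiv.injective (Fin.castLE_injective hm h)
    exact ⟨congrArg Prod.fst h1, congrArg Prod.snd h1⟩
  let B : Fin M → Set (Fin m × Edge v) := fun g => {e | ∃ j, e.1 = idx g j}
  let φ : Fin M → (Fin m × Edge v → Bool) → Bool := fun g x =>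
    decide (AllClq m' v k fun q => x (idx g q.1, q.2))
  -- all functions are true: all graphs have cliques
  have hall : ∀ x : Fin m × Edge v → Bool, (∀ e, (∀ g, e ∉ B g) → x e = true) →
      (∀ g, φ g x = true) → AllClq m v k x := by
    intro x hx h i
    by_cases hj : ∃ g j, idx g j = i
    · obtain ⟨g, j, rfl⟩ := hj
      exact (of_decide_eq_true (h g)) j
    · have h1 : (fun e : Edge v => x (i, e)) = fun _ => true := by
        funext e
        apply hx
        rintro g ⟨j, hj'⟩
        exact hj ⟨g, j, hj'.symm⟩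
      rw [h1]
      exact clq_true hk
  obtain ⟨A, hA, hAF⟩ := trf2 B
    (fun g g' hgg => Set.disjoint_left.2 (by
      rintro e ⟨j, h1⟩ ⟨j', h2⟩
      exact hgg (hidx g j g' j' (h1.symm.trans h2)).1))
    (fun _ => true) φ
    (by
      intro g x x' hx
      have h1 : (fun q : Fin m' × Edge v => x (idx g q.1, q.2)) =
          fun q => x' (idx g q.1, q.2) := by
        funext q
        exact hx _ ⟨q.1, rfl⟩
      simp only [φ, h1])
    (fun g => decide_eq_true fun i => clq_true hk) C hN
  obtain ⟨g, hg⟩ : ∃ g, g ∉ A := by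
    by_contra hall
    push Not at hall
    have h3 : (univ : Finset (Fin M)) ⊆ A := fun i _ => hall i
    have h4 := Finset.card_le_card h3
    rw [Finset.card_univ, Fintype.card_fin] at h4
    have h5 : 0 < 2 ^ s := by positivity
    have h6 : 0 < 2 ^ C.nots := by positivity
    have h7 : 2 ^ s * (2 ^ C.nots - 1) < 2 ^ s * 2 ^ C.nots :=
      Nat.mul_lt_mul_of_pos_left (by omega) h5
    rw [← pow_add] at h7
    omega
  obtain ⟨R, D, Q, ⟨hR1, hR2⟩, ⟨hu1, hu2, hu3⟩, ⟨hD1, hD2, hD3⟩, hQ1, hQ2, hQ3⟩ := hAF g hg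
  -- the substitution
  let σ : (Fin m' × Edge v → Bool) → Fin m × Edge v → Bool := fun z e =>
    if h : ∃ j, e.1 = idx g j then z (h.choose, e.2) else true
  have hσ : IsProj σ := by
    intro e
    by_cases h : ∃ j, e.1 = idx g j
    · right; left
      refine ⟨(h.choose, e.2), ?_⟩
      funext y
      simp only [σ, dif_pos h]
    · right; right
      refine ⟨true, ?_⟩
      funext y
      simp only [σ, dif_neg h]
  have hσ1 : ∀ (z : Fin m' × Edge v → Bool) (j : Fin m') (e : Edge v),
      σ z (idx g j, e) = z (j, e) := by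
    intro z j e
    have h : ∃ j', (idx g j, e).1 = idx g j' := ⟨j, rfl⟩
    have h2 : h.choose = j := ((hidx g j g _ h.choose_spec).2).symm
    simp only [σ, dif_pos h]
    rw [h2]
  have hφ : ∀ z, φ g (σ z) = true ↔ AllClq m' v k z := by
    intro z
    simp only [φ, decide_eq_true_iff]
    have h1 : (fun q : Fin m' × Edge v => σ z (idx g q.1, q.2)) = z := by
      funext q
      exact hσ1 z q.1 q.2
    rw [h1]
  refine ⟨fun z => upd R (B g) (σ z), R, fun p z => D p (σ z), fun z => Q (σ z),
    hall R hR1 hR2, fun z => ⟨fun h => ?_, fun h => ?_⟩, fun p => (hD1 p).comp hσ,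
    fun z hz p => hD2 (σ z) ((hφ z).2 hz) p, fun z p h => hD3 (σ z) p h, hQ1.comp hσ,
    fun z hz => hQ2 (σ z) ((hφ z).2 hz), fun z hz p h => hQ3 (σ z) hz p h⟩
  · rw [← hφ z, ← hu2]
    simp only [φ, decide_eq_true_iff]
    intro j
    exact h (idx g j)
  · refine hall _ (hu1 (σ z)) fun g' => ?_
    by_cases hgg : g' = g
    · subst hgg
      rw [hu2]
      exact (hφ z).2 h
    · exact hu3 (σ z) g' hgg

end Pool.Agent.NPP
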