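import Pool.Agent.NPP.Stmts

/-!
# The hybrid argument
-/

set_option autoImplicit false

namespace Pool.Agent.NPP

open Finset

namespace HYBM

theorem sum_cons {P : Type} [Fintype P] (n : ℕ) (g : (Fin (n + 1) → P) → ℝ) :
    ∑ a : Fin (n + 1) → P, g a = ∑ a0 : P, ∑ a' : Fin n → P, g (Fin.cons a0 a') := by
  rw [← Fintype.sum_prod_type' (f := fun (a0 : P) (a' : Fin n → P) => g (Fin.cons a0 a'))]
  exact (Fintype.sum_equiv (Fin.consEquiv fun _ : Fin (n + 1) => P) _ _ fun _ => rfl).symm

theorem comp_cons {P Y : Type} (pos : P → Y) (n : ℕ) (a0 : P) (a' : Fin n → P) :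
    (fun i => pos ((Fin.cons a0 a' : Fin (n + 1) → P) i)) =
      Fin.cons (pos a0) (fun i => pos (a' i)) := by
  funext i
  refine Fin.cases ?_ (fun j => ?_) i
  · rfl
  · rfl

/-- The hybrid argument for real functions. -/
theorem hyb {Y P Q : Type} [Fintype P] [Fintype Q] [Nonempty P] [Nonempty Q] (pos : P → Y)
    (neg : Q → Y) (δ : ℝ) (n : ℕ) : ∀ (f : (Fin n → Y) → ℝ),
    (∀ (i : Fin n) (z : Fin n → Y),
      (∑ a : P, f (Function.update z i (pos a))) / Fintype.card P ≤
      (∑ b : Q, f (Function.update z i (neg b))) / Fintype.card Q + δ) →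
    (∑ a : Fin n → P, f (fun i => pos (a i))) / (Fintype.card P : ℝ) ^ n ≤
      (∑ b : Fin n → Q, f (fun i => neg (b i))) / (Fintype.card Q : ℝ) ^ n + n * δ := by
  induction n with
  | zero =>
    intro f _
    simp only [pow_zero, div_one, Nat.cast_zero, zero_mul, add_zero]
    rw [Fintype.sum_unique, Fintype.sum_unique]
    refine le_of_eq (congrArg f ?_)
    funext i
    exact i.elim0
  | succ n ih =>
    intro f hf
    have hP : (0 : ℝ) < Fintype.card P := by exact_mod_cast Fintype.card_pos
    have hQ : (0 : ℝ) < Fintype.card Q := by exact_mod_cast Fintype.card_pos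
    obtain ⟨p0⟩ := (inferInstance : Nonempty P)
    -- the first step
    have h1 : ∀ y : Y, (∑ a' : Fin n → P, f (Fin.cons y (fun i => pos (a' i)))) /
        (Fintype.card P : ℝ) ^ n ≤ (∑ b' : Fin n → Q, f (Fin.cons y (fun i => neg (b' i)))) /
        (Fintype.card Q : ℝ) ^ n + n * δ := by
      intro y
      refine ih (fun z => f (Fin.cons y z)) fun i z => ?_
      have := hf i.succ (Fin.cons y z)
      simp only [← Fin.cons_update] at this
      exact this
    -- the second step
    have h2 : ∀ b' : Fin n → Q, (∑ a0 : P, f (Fin.cons (pos a0) (fun i => neg (b' i)))) /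
        Fintype.card P ≤ (∑ b0 : Q, f (Fin.cons (neg b0) (fun i => neg (b' i)))) /
        Fintype.card Q + δ := by
      intro b'
      have := hf 0 (Fin.cons (pos p0) (fun i => neg (b' i)))
      simp only [Fin.update_cons_zero] at this
      exact this
    rw [sum_cons, sum_cons]
    simp only [comp_cons]
    have e1 : (∑ a0 : P, ∑ a' : Fin n → P, f (Fin.cons (pos a0) (fun i => pos (a' i)))) /
        (Fintype.card P : ℝ) ^ (n + 1) = (∑ a0 : P,
          (∑ a' : Fin n → P, f (Fin.cons (pos a0) (fun i => pos (a' i)))) /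
            (Fintype.card P : ℝ) ^ n) / Fintype.card P := by
      rw [← Finset.sum_div, div_div, pow_succ]
    have e2 : (∑ a0 : P, ((∑ b' : Fin n → Q, f (Fin.cons (pos a0) (fun i => neg (b' i)))) /
        (Fintype.card Q : ℝ) ^ n + n * δ)) / Fintype.card P =
        (∑ b' : Fin n → Q, (∑ a0 : P, f (Fin.cons (pos a0) (fun i => neg (b' i)))) /
          Fintype.card P) / (Fintype.card Q : ℝ) ^ n + n * δ := by
      rw [Finset.sum_add_distrib, ← Finset.sum_div, Finset.sum_comm, ← Finset.sum_div,
        Finset.sum_const, Finset.card_univ, nsmul_eq_mul]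
      field_simp
    have e3 : (∑ b' : Fin n → Q, ((∑ b0 : Q, f (Fin.cons (neg b0) (fun i => neg (b' i)))) /
        Fintype.card Q + δ)) / (Fintype.card Q : ℝ) ^ n =
        (∑ b0 : Q, ∑ b' : Fin n → Q, f (Fin.cons (neg b0) (fun i => neg (b' i)))) /
          (Fintype.card Q : ℝ) ^ (n + 1) + δ := by
      rw [Finset.sum_add_distrib, ← Finset.sum_div, Finset.sum_comm, Finset.sum_const,
        Finset.card_univ, nsmul_eq_mul, Fintype.card_fun, Fintype.card_fin]
      push_cast
      field_simp
      ring
    rw [e1]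
    refine (div_le_div_of_nonneg_right (Finset.sum_le_sum fun a0 _ => h1 (pos a0)) hP.le).trans ?_
    rw [e2]
    refine (add_le_add_left (div_le_div_of_nonneg_right (Finset.sum_le_sum fun b' _ => h2 b')
      (by positivity)) _).trans ?_
    rw [e3]
    push_cast
    exact le_of_eq (by ring)

end HYBM

open Classical in
theorem HYB_thm : Stmt_HYB := by
  intro Y P Q _ _ _ _ pos neg δ n D h
  have key : ∀ {A : Type} [Fintype A] (g : A → Bool),
      ((univ.filter fun a : A => g a = true).card : ℝ) = ∑ a : A, (if g a = true then (1 : ℝ) else 0) := by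
    intro A _ g
    rw [Finset.sum_boole]
  have h1 := HYBM.hyb pos neg δ n (fun z => if D z = true then (1 : ℝ) else 0) (fun i z => by
    have := h i z
    rw [key, key] at this
    exact this)
  rw [key, key]
  exact h1

end Pool.Agent.NPP
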