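import Pool.Agent.NPP.Stmts

/-!
# The inequality for one graph (module ONE of NPP, MP_153864_lc)
-/

set_option autoImplicit false

namespace Pool.Agent.NPP

open Finset Pool.Agent.NegLim Pool.Agent.NLM Pool.Agent.NEG72

namespace ONEM

/-! ### monotone programs compute monotone functions -/

/-- monotone in the elementary sense -/
def Mo {V : Type} (f : (V → Bool) → Bool) : Prop :=
  ∀ x y : V → Bool, (∀ i, x i = true → y i = true) → f x = true → f y = true

theorem avail_mo {V : Type} {L : List ((V → Bool) → Bool)} {f : (V → Bool) → Bool}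
    (hL : ∀ g ∈ L, Mo g) (h : Avail L f) : Mo f := by
  rcases h with h | ⟨i, rfl⟩ | ⟨b, rfl⟩
  · exact hL f h
  · exact fun x y hxy hx => hxy i hx
  · exact fun x y _ hx => hx

theorem mon_mo {V : Type} {L : List ((V → Bool) → Bool)} (h : Mon L) : ∀ g ∈ L, Mo g := by
  induction h with
  | nil => simp
  | and hL hf hg ih =>
    intro g' hg'
    rcases List.mem_cons.1 hg' with rfl | hg'
    · intro x y hxy hx
      simp only [Bool.and_eq_true] at hx ⊢
      exact ⟨avail_mo ih hf x y hxy hx.1, avail_mo ih hg x y hxy hx.2⟩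
    · exact ih g' hg'
  | or hL hf hg ih =>
    intro g' hg'
    rcases List.mem_cons.1 hg' with rfl | hg'
    · intro x y hxy hx
      simp only [Bool.or_eq_true] at hx ⊢
      rcases hx with hx | hx
      · exact Or.inl (avail_mo ih hf x y hxy hx)
      · exact Or.inr (avail_mo ih hg x y hxy hx)
    · exact ih g' hg'

theorem monSize_mo {V : Type} {f : (V → Bool) → Bool} {T : ℕ} (h : MonSize f T) : Mo f := by
  obtain ⟨L, hL, _, hf⟩ := h
  exact avail_mo (mon_mo hL) hf

/-! ### the positive tests -/

theorem vtx_inj {v k b : ℕ} (hv : k * b ≤ v) {i i' : Fin k} {j j' : Fin b}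
    (h : vtx hv i j = vtx hv i' j') : i = i' ∧ j = j' := by
  unfold vtx at h
  have h1 := finProdFinEquiv.injective (Fin.castLE_injective hv h)
  exact ⟨congrArg Prod.fst h1, congrArg Prod.snd h1⟩

open Classical in
/-- few positive tests contain a given set -/
theorem count {v k b : ℕ} (hb : 0 < b) (hv : k * b ≤ v) (Y : Finset (Fin v)) :
    ((univ : Finset (Fin k → Fin b)).filter fun τ => Y ⊆ kset hv τ).card * b ^ Y.card ≤
      Fintype.card (Fin k → Fin b) := by
  by_cases hne : ∃ τ₀ : Fin k → Fin b, Y ⊆ kset hv τ₀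
  · obtain ⟨τ₀, h0⟩ := hne
    set I : Finset (Fin k) := univ.filter fun i => vtx hv i (τ₀ i) ∈ Y with hI
    have hYI : Y.card ≤ I.card := by
      have h1 : Y ⊆ I.image fun i => vtx hv i (τ₀ i) := by
        intro y hy
        obtain ⟨i, _, rfl⟩ := mem_image.1 (h0 hy)
        exact mem_image.2 ⟨i, mem_filter.2 ⟨mem_univ _, hy⟩, rfl⟩
      exact (Finset.card_le_card h1).trans Finset.card_image_le
    have hfix : ∀ τ : Fin k → Fin b, Y ⊆ kset hv τ → ∀ i ∈ I, τ i = τ₀ i := by
      intro τ hτ i hi
      obtain ⟨i', _, hi'⟩ := mem_image.1 (hτ (mem_filter.1 hi).2)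
      obtain ⟨rfl, h⟩ := vtx_inj hv hi'
      exact h
    have h2 : (((univ : Finset (Fin k → Fin b)).filter fun τ => Y ⊆ kset hv τ) ×ˢ
        (univ : Finset (I → Fin b))).card ≤ (univ : Finset (Fin k → Fin b)).card := by
      apply Finset.card_le_card_of_injOn
        (fun q => fun i => if hi : i ∈ I then q.2 ⟨i, hi⟩ else q.1 i)
      · intro q _
        exact mem_coe.2 (mem_univ _)
      · rintro ⟨τ, g⟩ hq ⟨τ', g'⟩ hq' h
        rw [mem_coe, mem_product, mem_filter] at hq hq'
        have hτ := hfix τ hq.1.2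
        have hτ' := hfix τ' hq'.1.2
        have h3 : ∀ i, (if hi : i ∈ I then g ⟨i, hi⟩ else τ i) =
            (if hi : i ∈ I then g' ⟨i, hi⟩ else τ' i) := fun i => congrFun h i
        have e1 : τ = τ' := by
          funext i
          by_cases hi : i ∈ I
          · rw [hτ i hi, hτ' i hi]
          · have := h3 i
            rwa [dif_neg hi, dif_neg hi] at this
        have e2 : g = g' := by
          funext ⟨i, hi⟩
          have := h3 i
          rwa [dif_pos hi, dif_pos hi] at this
        rw [e1, e2]
    rw [card_product, card_univ, card_univ, Fintype.card_fun, Fintype.card_fin,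
      Fintype.card_coe] at h2
    exact (Nat.mul_le_mul_left _ (Nat.pow_le_pow_right hb hYI)).trans h2
  · push Not at hne
    have h1 : ((univ : Finset (Fin k → Fin b)).filter fun τ => Y ⊆ kset hv τ) = ∅ := by
      rw [Finset.filter_eq_empty_iff]
      exact fun τ _ => hne τ
    rw [h1]
    simp

/-- the geometric sum -/
theorem geo (n : ℕ) : ∑ a ∈ Finset.Ico 2 n, ((1 : ℝ) / 4) ^ a ≤ 1 / 12 := by
  have h := geom_sum_Ico_le_of_lt_one (x := (1 : ℝ) / 4) (m := 2) (n := n) (by norm_num)
    (by norm_num)
  refine h.trans (by norm_num)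

open Classical in
/-- the sum over the sets of the family -/
theorem fam_sum {V : Type} (A : Finset (Finset V)) {l p b : ℕ} (hb : 0 < b)
    (h4 : 4 * (p * l) ≤ b) (h1 : ∀ X ∈ A, X.card ≤ l) (h2 : ∀ X ∈ A, 2 ≤ X.card)
    (hA : ∀ a, (A.filter fun X => X.card = a).card ≤ (p * l) ^ a) :
    ∑ X ∈ A, ((1 : ℝ) / (b : ℝ) ^ X.card) ≤ 1 / 12 := by
  have hb' : (0 : ℝ) < b := by exact_mod_cast hb
  have hmap : ∀ X ∈ A, X.card ∈ Finset.Ico 2 (l + 1) := fun X hX => by
    rw [Finset.mem_Ico]; exact ⟨h2 X hX, Nat.lt_succ_of_le (h1 X hX)⟩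
  rw [← Finset.sum_fiberwise_of_maps_to hmap]
  refine (Finset.sum_le_sum fun a _ => ?_).trans (geo (l + 1))
  have e : ∑ X ∈ A.filter (fun X => X.card = a), ((1 : ℝ) / (b : ℝ) ^ X.card) =
      ((A.filter fun X => X.card = a).card : ℝ) * (1 / (b : ℝ) ^ a) := by
    rw [Finset.sum_congr rfl (g := fun _ => (1 : ℝ) / (b : ℝ) ^ a)]
    · rw [Finset.sum_const, nsmul_eq_mul]
    · intro X hX
      rw [(mem_filter.1 hX).2]
  rw [e]
  have h3 : ((A.filter fun X => X.card = a).card : ℝ) ≤ ((p * l : ℕ) : ℝ) ^ a := by
    exact_mod_cast hA a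
  have h5 : ((p * l : ℕ) : ℝ) ≤ 1 / 4 * b := by
    have : (4 : ℝ) * ((p * l : ℕ) : ℝ) ≤ b := by exact_mod_cast h4
    linarith
  have h6 : ((p * l : ℕ) : ℝ) ^ a ≤ (1 / 4 * (b : ℝ)) ^ a :=
    pow_le_pow_left₀ (by positivity) h5 a
  rw [mul_one_div, div_le_iff₀ (by positivity), ← mul_pow]
  exact h3.trans h6

end ONEM

open ONEM

open Classical in
theorem ONE_thm (hAPP : Stmt_APP) : Stmt_ONE := by
  intro v k b h p T hv f hh hk hp hb hT hf
  have hb0 : 0 < b := by
    have : 0 < p * (2 * h) := by positivity
    omega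
  have hkc : 2 ≤ k - 1 := by
    have : 2 * 1 ≤ 2 * h * (2 * h - 1) := Nat.mul_le_mul (by omega) (by omega)
    omega
  have hmo := monSize_mo hf
  set ε : ℝ := 2 * T * ((2 * h * p : ℕ) : ℝ) ^ (4 * h) / 2 ^ p with hε
  have hε0 : 0 ≤ ε := by positivity
  set M : ℝ := ((k - 1 : ℕ) : ℝ) ^ v with hM
  have hM0 : 0 < M := by
    have : (0 : ℝ) < ((k - 1 : ℕ) : ℝ) := by exact_mod_cast (by omega : 0 < k - 1)
    positivity
  have hbk : (0 : ℝ) < (b : ℝ) ^ k := by
    have : (0 : ℝ) < b := by exact_mod_cast hb0
    positivity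
  set S := univ.filter fun τ : Fin k → Fin b => f (posG hv τ) = true with hS
  set Ng := univ.filter fun a : Bool × (Fin v → Fin (k - 1)) => f (negG a) = true with hNg
  have hScard : (S.card : ℝ) ≤ (b : ℝ) ^ k := by
    have h1 : S.card ≤ b ^ k := by
      have := Finset.card_le_univ S
      rwa [Fintype.card_fun, Fintype.card_fin, Fintype.card_fin] at this
    exact_mod_cast h1
  by_cases h1 : f (fun _ => true) = true
  · -- the negative tests with the coin `true`
    have hN1 : ∀ B : Finset (Fin v → Fin (k - 1)), (∀ χ, χ ∉ B → f (negIn χ) = true) →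
        2 * M - B.card ≤ Ng.card := by
      intro B hB
      have h2 : (univ : Finset (Fin v → Fin (k - 1))).image (fun χ => (true, χ)) ∪
          (univ \ B).image (fun χ => (false, χ)) ⊆ Ng := by
        intro a ha
        rw [hNg, mem_filter]
        refine ⟨mem_univ _, ?_⟩
        rcases mem_union.1 ha with ha | ha
        · obtain ⟨χ, _, rfl⟩ := mem_image.1 ha
          have e : negG (true, χ) = fun _ => true := by
            funext e; simp [negG]
          rw [e]; exact h1
        · obtain ⟨χ, hχ, rfl⟩ := mem_image.1 ha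
          have e : negG (false, χ) = negIn χ := by
            funext e; simp [negG]
          rw [e]
          exact hB χ (mem_sdiff.1 hχ).2
      have h3 := Finset.card_le_card h2
      rw [Finset.card_union_of_disjoint, Finset.card_image_of_injective,
        Finset.card_image_of_injective, Finset.card_sdiff_of_subset (subset_univ _), card_univ,
        Fintype.card_fun, Fintype.card_fin, Fintype.card_fin] at h3
      · have h4 : B.card ≤ (k - 1) ^ v := by
          have := Finset.card_le_univ B
          rwa [Fintype.card_fun, Fintype.card_fin, Fintype.card_fin] at this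
        have h5 : 2 * (k - 1) ^ v ≤ Ng.card + B.card := by omega
        have h6 : (2 : ℝ) * M ≤ Ng.card + B.card := by
          rw [hM]; exact_mod_cast h5
        linarith
      · intro x y hxy
        simpa using hxy
      · intro x y hxy
        simpa using hxy
      · rw [Finset.disjoint_left]
        intro a ha ha'
        obtain ⟨χ, _, rfl⟩ := mem_image.1 ha
        obtain ⟨χ', _, h⟩ := mem_image.1 ha'
        simp at h
    have hN2 : M ≤ Ng.card := by
      have h2 : (univ : Finset (Fin v → Fin (k - 1))).image (fun χ => (true, χ)) ⊆ Ng := by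
        intro a ha
        rw [hNg, mem_filter]
        refine ⟨mem_univ _, ?_⟩
        obtain ⟨χ, _, rfl⟩ := mem_image.1 ha
        have e : negG (true, χ) = fun _ => true := by
          funext e; simp [negG]
        rw [e]; exact h1
      have h3 := Finset.card_le_card h2
      rw [Finset.card_image_of_injective, card_univ,
        Fintype.card_fun, Fintype.card_fin, Fintype.card_fin] at h3
      · rw [hM]; exact_mod_cast h3
      · intro x y hxy
        simpa using hxy
    obtain ⟨A, BP, BN, a1, a2, a3, a4, a5, a6⟩ := hAPP (Fin v) (Edge v) (Fin k → Fin b)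
      (k - 1) h p b (posG hv) (kset hv) negIn hh hk hp hb (by
        intro e
        refine ⟨{{e.1.1, e.1.2}}, ?_, by simp, ?_, ?_⟩
        · intro X hX
          rw [mem_singleton] at hX
          rw [hX]
          exact Finset.card_le_two.trans (by omega)
        · intro τ hτ
          simp only [posG, posIn, Bool.and_eq_true, decide_eq_true_eq] at hτ
          refine ⟨{e.1.1, e.1.2}, by simp, ?_⟩
          intro a ha
          rw [mem_insert, mem_singleton] at ha
          rcases ha with rfl | rfl
          · exact hτ.1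
          · exact hτ.2
        · rintro χ ⟨X, hX, hXχ⟩
          rw [mem_singleton] at hX
          subst hX
          simp only [negIn, decide_eq_true_eq]
          intro h
          have := hXχ (by simp : e.1.1 ∈ (({e.1.1, e.1.2} : Finset (Fin v)) : Set (Fin v)))
            (by simp : e.1.2 ∈ (({e.1.1, e.1.2} : Finset (Fin v)) : Set (Fin v))) h
          exact absurd this (ne_of_lt e.2)) (fun Y => count hb0 hv Y) f T hf
    rw [Fintype.card_fun, Fintype.card_fin, Fintype.card_fin] at a3
    rw [Fintype.card_fin] at a4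
    by_cases hsm : ∃ X ∈ A, X.card ≤ 1
    · -- the family accepts all colourings
      obtain ⟨X, hX, hX1⟩ := hsm
      have h2 : ∀ χ, χ ∉ BN → f (negIn χ) = true := fun χ hχ => a6 χ hχ ⟨X, hX, by
        intro a ha a' ha' _
        exact Finset.card_le_one.1 hX1 a (mem_coe.1 ha) a' (mem_coe.1 ha')⟩
      have h3 := hN1 BN h2
      have h4 : (BN.card : ℝ) ≤ ε * (2 * M) := by
        have h5 : (BN.card : ℝ) * 2 ^ p ≤
            T * (4 * ((p * (2 * h) : ℕ) : ℝ) ^ (4 * h)) * M := by
          rw [hM]; exact_mod_cast a4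
        have h6 : ε * (2 * M) * 2 ^ p = T * (4 * ((p * (2 * h) : ℕ) : ℝ) ^ (4 * h)) * M := by
          have e : (2 * h * p : ℕ) = p * (2 * h) := by ring
          rw [hε, e]
          have : (2 : ℝ) ^ p ≠ 0 := by positivity
          field_simp
          ring
        have h7 : (0 : ℝ) < 2 ^ p := by positivity
        rw [← h6] at h5
        exact le_of_mul_le_mul_right h5 h7
      have h5 : (1 : ℝ) ≤ Ng.card / (2 * M) + ε := by
        have h6 : 2 * M - ε * (2 * M) ≤ Ng.card := by linarith
        have h7 : 1 - ε ≤ (Ng.card : ℝ) / (2 * M) := by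
          rw [le_div_iff₀ (by positivity)]
          linarith
        linarith
      exact (div_le_one_of_le₀ hScard hbk.le).trans h5
    · -- few positive tests are accepted
      push Not at hsm
      have h2 : S ⊆ BP ∪ A.biUnion fun X => univ.filter fun τ => X ⊆ kset hv τ := by
        intro τ hτ
        by_cases hB : τ ∈ BP
        · exact mem_union_left _ hB
        · obtain ⟨X, hX, hXK⟩ := a5 τ hB (mem_filter.1 hτ).2
          exact mem_union_right _ (mem_biUnion.2 ⟨X, hX, mem_filter.2 ⟨mem_univ _, hXK⟩⟩)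
      have h3 : (S.card : ℝ) ≤ BP.card + ∑ X ∈ A,
          ((univ.filter fun τ : Fin k → Fin b => X ⊆ kset hv τ).card : ℝ) := by
        have h4 : S.card ≤ BP.card + ∑ X ∈ A,
            (univ.filter fun τ : Fin k → Fin b => X ⊆ kset hv τ).card :=
          (Finset.card_le_card h2).trans ((Finset.card_union_le _ _).trans
            (Nat.add_le_add_left Finset.card_biUnion_le _))
        exact_mod_cast h4
      have h4 : (BP.card : ℝ) ≤ 1 / 4 * (b : ℝ) ^ k := by
        have h5 : 4 * (BP.card * 2 ^ (2 * h)) ≤ 2 ^ (2 * h) * b ^ k := by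
          calc 4 * (BP.card * 2 ^ (2 * h)) ≤ 4 * (T * b ^ k) := Nat.mul_le_mul_left _ a3
            _ = 4 * T * b ^ k := by ring
            _ ≤ 2 ^ (2 * h) * b ^ k := Nat.mul_le_mul_right _ hT
        have h6 : 4 * BP.card ≤ b ^ k := by
          have h7 : (4 * BP.card) * 2 ^ (2 * h) ≤ b ^ k * 2 ^ (2 * h) := by
            calc (4 * BP.card) * 2 ^ (2 * h) = 4 * (BP.card * 2 ^ (2 * h)) := by ring
              _ ≤ 2 ^ (2 * h) * b ^ k := h5
              _ = b ^ k * 2 ^ (2 * h) := by ring
          exact Nat.le_of_mul_le_mul_right h7 (by positivity)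
        have h8 : (4 : ℝ) * BP.card ≤ (b : ℝ) ^ k := by exact_mod_cast h6
        linarith
      have h5 : ∑ X ∈ A, ((univ.filter fun τ : Fin k → Fin b => X ⊆ kset hv τ).card : ℝ) ≤
          1 / 12 * (b : ℝ) ^ k := by
        have h6 : ∀ X ∈ A, ((univ.filter fun τ : Fin k → Fin b => X ⊆ kset hv τ).card : ℝ) ≤
            (1 / (b : ℝ) ^ X.card) * (b : ℝ) ^ k := by
          intro X _
          have h7 := count hb0 hv X
          rw [Fintype.card_fun, Fintype.card_fin, Fintype.card_fin] at h7
          have h8 : ((univ.filter fun τ : Fin k → Fin b => X ⊆ kset hv τ).card : ℝ) *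
              (b : ℝ) ^ X.card ≤ (b : ℝ) ^ k := by exact_mod_cast h7
          have h9 : (0 : ℝ) < (b : ℝ) ^ X.card := by
            have : (0 : ℝ) < b := by exact_mod_cast hb0
            positivity
          rw [one_div, inv_mul_eq_div, le_div_iff₀ h9]
          exact h8
        refine (Finset.sum_le_sum h6).trans ?_
        rw [← Finset.sum_mul]
        refine mul_le_mul_of_nonneg_right ?_ hbk.le
        exact fam_sum A hb0 hb a1 (fun X hX => hsm X hX) a2
      have h6 : (S.card : ℝ) / (b : ℝ) ^ k ≤ 1 / 2 := by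
        rw [div_le_iff₀ hbk]
        linarith
      have h7 : (1 : ℝ) / 2 ≤ Ng.card / (2 * M) := by
        rw [le_div_iff₀ (by positivity)]
        linarith
      linarith
  · -- the circuit rejects the complete graph
    have h2 : S = ∅ := by
      rw [hS, Finset.filter_eq_empty_iff]
      intro τ _ h3
      exact h1 (hmo _ _ (fun _ _ => rfl) h3)
    rw [h2]
    simp only [Finset.card_empty, Nat.cast_zero, zero_div]
    positivity

end Pool.Agent.NPP
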