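import Pool.Agent.NPP.CMP
import Pool.Agent.NPP.HYB
import Pool.Agent.NPP.ONE
import Pool.Agent.NPP.APP
import Pool.Agent.NPP.PLK

/-!
# The contradiction for families without NOT gates, with two thresholds, and for one function
-/

set_option autoImplicit false

namespace Pool.Agent.NPP

open Finset Pool.Agent.NegLim Pool.Agent.NLM Pool.Agent.NEG72

open Classical in
/-- If all inputs with `n` cliques are accepted by at least `a₁` and the other ones by at most `a₂`
of the `2 ^ (s + t)` small monotone programs then `a₁ - a₂` is small. -/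
theorem cmp2 (n v k b h p T s t : ℕ) (hv : k * b ≤ v)
    (D : (Fin s → Bool) × (Fin t → Bool) → (Fin n × Edge v → Bool) → Bool) (h1 : 1 ≤ h)
    (hk : 2 * h * (2 * h - 1) ≤ k - 1) (hp : 2 ≤ p) (hb : 4 * (p * (2 * h)) ≤ b)
    (hT : 4 * T ≤ 2 ^ (2 * h)) (hD : ∀ q, MonSize (D q) T) (a₁ a₂ : ℝ) (ha₂ : 0 ≤ a₂)
    (hC1 : ∀ z, AllClq n v k z → a₁ ≤ (univ.filter fun q => D q z = true).card)
    (hC2 : ∀ z, ¬ AllClq n v k z → ((univ.filter fun q => D q z = true).card : ℝ) ≤ a₂) :
    a₁ ≤ a₂ + 2 ^ (s + t) *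
      (1 / 2 ^ n + n * (2 * T * ((2 * h * p : ℕ) : ℝ) ^ (4 * h) / 2 ^ p)) := by
  have hHYB : Stmt_HYB := HYB_thm
  have hONE : Stmt_ONE := ONE_thm (APP_thm PLK_thm)
  have hk1 : 1 ≤ k := by
    by_contra hcon
    have h2 : k = 0 := by omega
    subst h2
    have h3 : 2 ≤ 2 * h * (2 * h - 1) := by
      have h4 : 1 ≤ 2 * h - 1 := by omega
      nlinarith
    omega
  have hk2 : 2 ≤ k - 1 := by
    have h4 : 1 ≤ 2 * h - 1 := by omega
    nlinarith
  have hb1 : 0 < b := by
    have h4 : 1 ≤ p * (2 * h) := by nlinarith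
    omega
  have : Nonempty (Fin b) := ⟨⟨0, hb1⟩⟩
  have : Nonempty (Fin (k - 1)) := ⟨⟨0, by omega⟩⟩
  set δ : ℝ := 2 * T * ((2 * h * p : ℕ) : ℝ) ^ (4 * h) / 2 ^ p with hδ
  -- one witness
  have key : ∀ q, ((univ.filter fun a : Fin n → (Fin k → Fin b) =>
        D q (fun ie => posG hv (a ie.1) ie.2) = true).card : ℝ) /
          (Fintype.card (Fin k → Fin b) : ℝ) ^ n ≤
      ((univ.filter fun a : Fin n → (Bool × (Fin v → Fin (k - 1))) =>
        D q (fun ie => negG (a ie.1) ie.2) = true).card : ℝ) /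
          (Fintype.card (Bool × (Fin v → Fin (k - 1))) : ℝ) ^ n + n * δ := by
    intro q
    refine hHYB (Edge v → Bool) (Fin k → Fin b) (Bool × (Fin v → Fin (k - 1))) (posG hv) negG δ n
      (fun z => D q (fun ie => z ie.1 ie.2)) ?_
    intro i z
    have hm : MonSize (fun y : Edge v → Bool =>
        D q (fun ie => Function.update z i y ie.1 ie.2)) T := by
      refine (hD q).comp (σ := fun y ie => Function.update z i y ie.1 ie.2) ?_
      rintro ⟨j, e⟩
      by_cases hj : j = i
      · subst hj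
        refine Or.inr (Or.inl ⟨e, ?_⟩)
        funext y
        simp
      · refine Or.inr (Or.inr ⟨z j e, ?_⟩)
        funext y
        simp [hj]
    have h5 := hONE v k b h p T hv _ h1 hk hp hb hT hm
    have e1 : (Fintype.card (Fin k → Fin b) : ℝ) = (b : ℝ) ^ k := by
      rw [Fintype.card_fun, Fintype.card_fin, Fintype.card_fin]
      push_cast
      ring
    have e2 : (Fintype.card (Bool × (Fin v → Fin (k - 1))) : ℝ) =
        2 * ((k - 1 : ℕ) : ℝ) ^ v := by
      rw [Fintype.card_prod, Fintype.card_fun, Fintype.card_fin, Fintype.card_fin,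
        Fintype.card_bool]
      push_cast
      ring
    rw [e1, e2]
    exact h5
  -- sizes
  set cP : ℕ := Fintype.card (Fin k → Fin b) ^ n with hcP
  set cQ : ℕ := Fintype.card (Bool × (Fin v → Fin (k - 1))) ^ n with hcQ
  have hcP0 : (0 : ℝ) < cP := by
    rw [hcP]
    exact_mod_cast Nat.pos_of_ne_zero (pow_ne_zero _ Fintype.card_ne_zero)
  have hcQ0 : (0 : ℝ) < cQ := by
    rw [hcQ]
    exact_mod_cast Nat.pos_of_ne_zero (pow_ne_zero _ Fintype.card_ne_zero)
  -- the positive tests
  have hposR : a₁ * cP ≤ ∑ q, ((univ.filter fun a : Fin n → (Fin k → Fin b) =>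
      D q (fun ie => posG hv (a ie.1) ie.2) = true).card : ℝ) := by
    have h6 : ∀ a : Fin n → (Fin k → Fin b), a₁ ≤ ((univ.filter fun q =>
        D q (fun ie => posG hv (a ie.1) ie.2) = true).card : ℝ) := by
      intro a
      exact hC1 _ (fun i => CMPM.clq_posG hv (a i))
    have h7 := CMPM.swap (fun q (a : Fin n → (Fin k → Fin b)) =>
      D q (fun ie => posG hv (a ie.1) ie.2))
    have h8 : (∑ q, ((univ.filter fun a : Fin n → (Fin k → Fin b) =>
        D q (fun ie => posG hv (a ie.1) ie.2) = true).card : ℝ)) =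
        ∑ a : Fin n → (Fin k → Fin b), ((univ.filter fun q =>
          D q (fun ie => posG hv (a ie.1) ie.2) = true).card : ℝ) := by
      exact_mod_cast h7
    rw [h8]
    calc a₁ * cP = ∑ _a : Fin n → (Fin k → Fin b), a₁ := by
          rw [sum_const, card_univ, Fintype.card_fun (α := Fin n), Fintype.card_fin n,
            nsmul_eq_mul, mul_comm]
      _ ≤ _ := sum_le_sum fun a _ => h6 a
  -- the negative tests
  have hnegR : (∑ q, ((univ.filter fun a : Fin n → (Bool × (Fin v → Fin (k - 1))) =>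
      D q (fun ie => negG (a ie.1) ie.2) = true).card : ℝ)) * 2 ^ n ≤
        a₂ * cQ * 2 ^ n + 2 ^ (s + t) * cQ := by
    have h6 : ∀ a : Fin n → (Bool × (Fin v → Fin (k - 1))), ((univ.filter fun q =>
        D q (fun ie => negG (a ie.1) ie.2) = true).card : ℝ) ≤
          a₂ + if ∀ i, (a i).1 = true then 2 ^ (s + t) else 0 := by
      intro a
      by_cases ha : ∀ i, (a i).1 = true
      · rw [if_pos ha]
        have h7 : (univ.filter fun q : (Fin s → Bool) × (Fin t → Bool) =>
            D q (fun ie => negG (a ie.1) ie.2) = true).card ≤ 2 ^ (s + t) := by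
          refine (card_filter_le _ _).trans ?_
          rw [card_univ, Fintype.card_prod, Fintype.card_fun, Fintype.card_fun,
            Fintype.card_fin, Fintype.card_fin, Fintype.card_bool, pow_add]
        have h8 : ((univ.filter fun q : (Fin s → Bool) × (Fin t → Bool) =>
            D q (fun ie => negG (a ie.1) ie.2) = true).card : ℝ) ≤ 2 ^ (s + t) := by
          exact_mod_cast h7
        linarith
      · rw [if_neg ha, add_zero]
        refine hC2 _ fun h7 => ?_
        push Not at ha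
        obtain ⟨i, hi⟩ := ha
        exact CMPM.not_clq_negG hk1 (a i) (by simpa using hi) (h7 i)
    have h7 := CMPM.swap (fun q (a : Fin n → (Bool × (Fin v → Fin (k - 1)))) =>
      D q (fun ie => negG (a ie.1) ie.2))
    have h8 : (∑ q, ((univ.filter fun a : Fin n → (Bool × (Fin v → Fin (k - 1))) =>
        D q (fun ie => negG (a ie.1) ie.2) = true).card : ℝ)) =
        ∑ a : Fin n → (Bool × (Fin v → Fin (k - 1))), ((univ.filter fun q =>
          D q (fun ie => negG (a ie.1) ie.2) = true).card : ℝ) := by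
      exact_mod_cast h7
    have h9 : (∑ a : Fin n → (Bool × (Fin v → Fin (k - 1))), ((univ.filter fun q =>
        D q (fun ie => negG (a ie.1) ie.2) = true).card : ℝ)) ≤ cQ * a₂ +
          ((univ.filter fun a : Fin n → (Bool × (Fin v → Fin (k - 1))) =>
            ∀ i, (a i).1 = true).card : ℝ) * 2 ^ (s + t) := by
      refine (sum_le_sum fun a _ => h6 a).trans (le_of_eq ?_)
      rw [sum_add_distrib, sum_const, card_univ, Fintype.card_fun (α := Fin n),
        Fintype.card_fin n, nsmul_eq_mul, ← sum_filter, sum_const, nsmul_eq_mul]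
    have h10 := CMPM.coins (n := n) (X := Fin v → Fin (k - 1))
    have h11 : ((univ.filter fun a : Fin n → (Bool × (Fin v → Fin (k - 1))) =>
        ∀ i, (a i).1 = true).card : ℝ) * 2 ^ n = cQ := by
      rw [hcQ]
      exact_mod_cast h10
    rw [h8]
    calc _ ≤ (cQ * a₂ + ((univ.filter fun a : Fin n → (Bool × (Fin v → Fin (k - 1))) =>
            ∀ i, (a i).1 = true).card : ℝ) * 2 ^ (s + t)) * 2 ^ n :=
          mul_le_mul_of_nonneg_right h9 (by positivity)
      _ = a₂ * cQ * 2 ^ n + 2 ^ (s + t) * (((univ.filter fun a :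
            Fin n → (Bool × (Fin v → Fin (k - 1))) => ∀ i, (a i).1 = true).card : ℝ) *
              2 ^ n) := by ring
      _ = a₂ * cQ * 2 ^ n + 2 ^ (s + t) * cQ := by rw [h11]
  -- sum over the witnesses
  have hcard : (Fintype.card ((Fin s → Bool) × (Fin t → Bool)) : ℝ) = 2 ^ (s + t) := by
    rw [Fintype.card_prod, Fintype.card_fun, Fintype.card_fun,
      Fintype.card_fin, Fintype.card_fin, Fintype.card_bool, pow_add]
    push_cast
    ring
  have hsum := sum_le_sum fun q (_ : q ∈ (univ : Finset ((Fin s → Bool) × (Fin t → Bool)))) => key q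
  rw [sum_add_distrib, sum_const, card_univ, nsmul_eq_mul, hcard, ← sum_div, ← sum_div] at hsum
  have e3 : (Fintype.card (Fin k → Fin b) : ℝ) ^ n = cP := by
    rw [hcP]
    push_cast
    ring
  have e4 : (Fintype.card (Bool × (Fin v → Fin (k - 1))) : ℝ) ^ n = cQ := by
    rw [hcQ]
    push_cast
    ring
  rw [e3, e4] at hsum
  have h10 : a₁ ≤ (∑ q, ((univ.filter fun a : Fin n → (Fin k → Fin b) =>
      D q (fun ie => posG hv (a ie.1) ie.2) = true).card : ℝ)) / cP := by
    rw [le_div_iff₀ hcP0]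
    exact hposR
  have h11 : (∑ q, ((univ.filter fun a : Fin n → (Bool × (Fin v → Fin (k - 1))) =>
      D q (fun ie => negG (a ie.1) ie.2) = true).card : ℝ)) / cQ ≤
        a₂ + 2 ^ (s + t) / 2 ^ n := by
    have h2n : (0 : ℝ) < 2 ^ n := by positivity
    rw [div_le_iff₀ hcQ0]
    have h12 : (a₂ + (2 : ℝ) ^ (s + t) / 2 ^ n) * cQ * 2 ^ n =
        a₂ * cQ * 2 ^ n + 2 ^ (s + t) * cQ := by
      field_simp
    rw [← h12] at hnegR
    exact le_of_mul_le_mul_right hnegR h2n
  have h13 : (2 : ℝ) ^ (s + t) * (1 / 2 ^ n + n * δ) =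
      2 ^ (s + t) / 2 ^ n + 2 ^ (s + t) * (n * δ) := by ring
  rw [h13]
  linarith

open Classical in
/-- The clique function has no small monotone programs. -/
theorem one_clq (v k b h p T : ℕ) (hv : k * b ≤ v) (h1 : 1 ≤ h)
    (hk : 2 * h * (2 * h - 1) ≤ k - 1) (hp : 2 ≤ p) (hb : 4 * (p * (2 * h)) ≤ b)
    (hT : 4 * T ≤ 2 ^ (2 * h)) (hf : MonSize (clq v k) T) :
    1 / 2 ≤ 2 * T * ((2 * h * p : ℕ) : ℝ) ^ (4 * h) / 2 ^ p := by
  have hONE : Stmt_ONE := ONE_thm (APP_thm PLK_thm)
  have hk1 : 1 ≤ k - 1 := by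
    have h4 : 1 ≤ 2 * h - 1 := by omega
    nlinarith
  have hb1 : 0 < b := by
    have h4 : 1 ≤ p * (2 * h) := by nlinarith
    omega
  have h5 := hONE v k b h p T hv _ h1 hk hp hb hT hf
  have h6 : (univ.filter fun τ : Fin k → Fin b => clq v k (posG hv τ) = true) = univ :=
    Finset.filter_true_of_mem fun τ _ => CMPM.clq_posG hv τ
  have h7 : (univ.filter fun a : Bool × (Fin v → Fin (k - 1)) => clq v k (negG a) = true) ⊆
      ({true} : Finset Bool) ×ˢ univ := by
    intro a ha
    rw [mem_filter] at ha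
    rw [mem_product, mem_singleton]
    refine ⟨?_, mem_univ _⟩
    by_contra hcon
    exact CMPM.not_clq_negG (by omega) a (by simpa using hcon) ha.2
  have h8 := Finset.card_le_card h7
  rw [card_product, card_singleton, one_mul, card_univ, Fintype.card_fun, Fintype.card_fin,
    Fintype.card_fin] at h8
  rw [h6, card_univ, Fintype.card_fun, Fintype.card_fin, Fintype.card_fin] at h5
  have hbk : (0 : ℝ) < (b : ℝ) ^ k := by
    have : (0 : ℝ) < b := by exact_mod_cast hb1
    positivity
  have hck : (0 : ℝ) < ((k - 1 : ℕ) : ℝ) ^ v := by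
    have : (0 : ℝ) < ((k - 1 : ℕ) : ℝ) := by exact_mod_cast hk1
    positivity
  have h9 : ((b ^ k : ℕ) : ℝ) / (b : ℝ) ^ k = 1 := by
    push_cast
    exact div_self hbk.ne'
  rw [h9] at h5
  have h10 : ((univ.filter fun a : Bool × (Fin v → Fin (k - 1)) =>
      clq v k (negG a) = true).card : ℝ) / (2 * ((k - 1 : ℕ) : ℝ) ^ v) ≤ 1 / 2 := by
    rw [div_le_div_iff₀ (by positivity) (by norm_num)]
    have : ((univ.filter fun a : Bool × (Fin v → Fin (k - 1)) =>
      clq v k (negG a) = true).card : ℝ) ≤ ((k - 1 : ℕ) : ℝ) ^ v := by exact_mod_cast h8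
    linarith
  linarith

end Pool.Agent.NPP
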