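import Pool.Agent.NLM.Defs
import Pool.Agent.NNDT.Lit
import Pool.Agent.NEG72.Appr
import Pool.Agent.Lib_helper26.TQ.Alt

/-!
# PP mode and PSPACE mode of circuits with few negations

The circuits are those of `Pool.Agent.NegLim.Defs`, the PP mode (`Maj`) is that of
`Pool.Agent.NLM.Defs`. `acc` is the number of the witnesses with the output `true`; in the PSPACE
mode the bits of `w` are quantified one after the other, with a fixed string of quantifiers, and
`u` consists of some of the bits of `w`.
-/

set_option autoImplicit false

namespace Pool.Agent.NPP

open Finset Pool.Agent.NegLim Pool.Agent.NLM Pool.Agent.NEG72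
open Pool.Agent.Lib_helper26.TQ (Alt)

variable {E : Type} {s t : ℕ}

/-- The number of the witnesses `(u, w)` for which the output is `true`. -/
def acc (C : NCirc E s t) (x : E → Bool) : ℕ :=
  (univ.filter fun p : (Fin s → Bool) × (Fin t → Bool) => outp C x p.1 p.2 = true).card

/-- The PSPACE mode with the string of quantifiers `qs` (`true`: there is a bit, `false`: for all
bits): the bits of `w` are chosen one after the other, and `u` consists of the bits of `w` with the
numbers `ρ 0, ρ 1, …` -/
def Pspace (C : NCirc E s t) (qs : List Bool) (ρ : Fin s → ℕ) (x : E → Bool) : Prop :=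
  Alt qs fun l => outp C x (fun i => l.getD (ρ i) false) (fun j => l.getD j false) = true

/-- `m` graphs on `v` vertices, each of which has a clique of `k` vertices. -/
def AllClq (m v k : ℕ) (z : Fin m × Edge v → Bool) : Prop :=
  ∀ i, clq v k (fun e => z (i, e)) = true

/-! ### test inputs -/

/-- The vertex number `j` of the part number `i`; there are `k` parts of `b` vertices. -/
def vtx {v k b : ℕ} (hv : k * b ≤ v) (i : Fin k) (j : Fin b) : Fin v :=
  Fin.castLE hv (finProdFinEquiv (i, j))

/-- The clique with one vertex of each part. -/
def kset {v k b : ℕ} (hv : k * b ≤ v) (τ : Fin k → Fin b) : Finset (Fin v) :=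
  univ.image fun i => vtx hv i (τ i)

/-- The positive tests. -/
def posG {v k b : ℕ} (hv : k * b ≤ v) (τ : Fin k → Fin b) : Edge v → Bool := posIn (kset hv τ)

/-- The negative tests: with a coin `true` the complete graph, otherwise the complete multipartite
graph of a colouring. -/
def negG {v c : ℕ} (a : Bool × (Fin v → Fin c)) : Edge v → Bool := fun e => a.1 || negIn a.2 e

end Pool.Agent.NPP
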