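import Pool.Agent.NPP.Stmts

/-!
# The numbers of the final statement
-/

set_option autoImplicit false

namespace Pool.Agent.NPP

open Finset Pool.Agent.NegLim Pool.Agent.NLM Pool.Agent.NEG72 Pool.Agent.NNDT

namespace FINM

theorem card_edge (v : ℕ) : Fintype.card (Edge v) = v * (v - 1) / 2 := by
  classical
  rw [Fintype.card_subtype]
  have h1 : ((univ : Finset (Fin v × Fin v)).filter fun e => e.1 < e.2).card * 2 = v * (v - 1) := by
    have h2 : ((univ : Finset (Fin v × Fin v)).filter fun e => e.1 < e.2).card =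
        ((univ : Finset (Fin v × Fin v)).filter fun e => e.2 < e.1).card := by
      apply Finset.card_bij (fun e _ => (e.2, e.1))
      · intro e he
        simpa using he
      · rintro ⟨a, b⟩ _ ⟨a', b'⟩ _ h
        simp only [Prod.mk.injEq] at h
        rw [h.1, h.2]
      · rintro ⟨a, b⟩ hb
        exact ⟨(b, a), by simpa using hb, rfl⟩
    have h3 : ((univ : Finset (Fin v × Fin v)).filter fun e => e.1 = e.2).card = v := by
      have h4 : ((univ : Finset (Fin v × Fin v)).filter fun e => e.1 = e.2) =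
          (univ : Finset (Fin v)).image fun a => (a, a) := by
        ext ⟨a, b⟩
        simp only [mem_filter, mem_univ, true_and, mem_image, Prod.mk.injEq]
        constructor
        · rintro rfl
          exact ⟨a, rfl, rfl⟩
        · rintro ⟨c, rfl, rfl⟩
          rfl
      rw [h4, Finset.card_image_of_injective _ (fun a b h => (Prod.mk.inj h).1), card_univ,
        Fintype.card_fin]
    have h5 : ((univ : Finset (Fin v × Fin v)).filter fun e => e.1 < e.2).card +
        (((univ : Finset (Fin v × Fin v)).filter fun e => e.1 = e.2).card +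
        ((univ : Finset (Fin v × Fin v)).filter fun e => e.2 < e.1).card) = v * v := by
      rw [← Finset.card_union_of_disjoint, ← Finset.card_union_of_disjoint]
      · have : (univ : Finset (Fin v × Fin v)).card = v * v := by
          rw [card_univ, Fintype.card_prod, Fintype.card_fin]
        rw [← this]
        congr 1
        ext ⟨a, b⟩
        simp only [mem_union, mem_filter, mem_univ, true_and, iff_true]
        rcases lt_trichotomy a b with h | h | h
        · exact Or.inl h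
        · exact Or.inr (Or.inl h)
        · exact Or.inr (Or.inr h)
      · rw [Finset.disjoint_left]
        rintro ⟨a, b⟩ h1 h2
        simp only [mem_filter, mem_univ, true_and, mem_union] at h1 h2
        rcases h2 with h2 | h2
        · exact absurd h2 (ne_of_lt h1)
        · exact absurd h2 (not_lt.2 h1.le)
      · rw [Finset.disjoint_left]
        rintro ⟨a, b⟩ h1 h2
        simp only [mem_filter, mem_univ, true_and] at h1 h2
        exact absurd h1 (ne_of_gt h2)
    rw [h3, ← h2] at h5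
    rcases Nat.eq_zero_or_pos v with rfl | hv
    · simp at h5 ⊢
    · have h6 : v * (v - 1) = v * v - v := by
        rw [Nat.mul_sub, mul_one]
      omega
  omega

/-- the number of the quantified bits -/
theorem bits {c d q : ℕ} (hd : 3 * d + 1 ≤ q) (hq : (5 * (3 * c + 6)) ^ 2 ≤ q) :
    Nat.clog 2 ((q ^ (3 * c + 6)) ^ (3 * d)) + (4 * q ^ 2 + 1) * Nat.clog 2 (q ^ (3 * c + 6)) ≤
      q ^ 3 := by
  have hpow : ∀ j : ℕ, Nat.clog 2 (q ^ j) ≤ j * Nat.clog 2 q := by
    intro j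
    apply Nat.clog_le_of_le_pow
    calc q ^ j ≤ (2 ^ Nat.clog 2 q) ^ j :=
          Nat.pow_le_pow_left (Nat.le_pow_clog (by norm_num) q) j
      _ = 2 ^ (j * Nat.clog 2 q) := by rw [← pow_mul, mul_comm]
  set K := 5 * (3 * c + 6) with hK
  have hK30 : 30 ≤ K := by omega
  set a := q / K with ha
  have haK : K ≤ a := by
    rw [ha, Nat.le_div_iff_mul_le (by omega), ← sq]
    exact hq
  have hqa : q ≤ 2 ^ a := by
    have h1 : q < K * (a + 1) := by
      rw [ha]
      exact Nat.lt_mul_div_succ q (by omega)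
    have h2 : ∀ a : ℕ, 6 ≤ a → (a + 1) ^ 2 ≤ 2 ^ a := by
      intro a ha
      induction a, ha using Nat.le_induction with
      | base => norm_num
      | succ n hn ih =>
        rw [pow_succ 2 n]
        nlinarith
    have h3 := h2 a (by omega)
    nlinarith
  have hcl : Nat.clog 2 q ≤ a := Nat.clog_le_of_le_pow hqa
  have haq : K * a ≤ q := by
    rw [ha]
    exact Nat.mul_div_le q K
  have h1 : Nat.clog 2 ((q ^ (3 * c + 6)) ^ (3 * d)) ≤ (3 * c + 6) * (3 * d) * a := by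
    rw [← pow_mul]
    exact (hpow _).trans (Nat.mul_le_mul_left _ hcl)
  have h2 : Nat.clog 2 (q ^ (3 * c + 6)) ≤ (3 * c + 6) * a :=
    (hpow _).trans (Nat.mul_le_mul_left _ hcl)
  have h3 : 3 * d + (4 * q ^ 2 + 1) ≤ 5 * q ^ 2 := by nlinarith
  calc _ ≤ (3 * c + 6) * (3 * d) * a + (4 * q ^ 2 + 1) * ((3 * c + 6) * a) :=
        Nat.add_le_add h1 (Nat.mul_le_mul_left _ h2)
    _ = (3 * d + (4 * q ^ 2 + 1)) * ((3 * c + 6) * a) := by ring
    _ ≤ 5 * q ^ 2 * ((3 * c + 6) * a) := Nat.mul_le_mul_right _ h3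
    _ = q ^ 2 * (K * a) := by rw [hK]; ring
    _ ≤ q ^ 2 * q := Nat.mul_le_mul_left _ haq
    _ = q ^ 3 := by ring

/-- the size of the circuit -/
theorem size {c d q v m k N : ℕ} (hd : 1 ≤ d) (hq : 10000 ≤ q) (hb : Nat.clog 2 m + 1 ≤ q ^ 4)
    (hv : v = q ^ (3 * c + 6)) (hm : m = v ^ (3 * d)) (hk : k = 4 * q ^ 2 + 1)
    (hN : N = m * (v * (v - 1) / 2)) :
    40 * (m * v ^ 2 * k ^ 2 * (Nat.clog 2 m + 1)) ≤ N ^ 2 := by
  have hq0 : 0 < q := by omega
  have hv6 : q ^ 6 ≤ v := by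
    rw [hv]
    exact Nat.pow_le_pow_right hq0 (by omega)
  have hv0 : 0 < v := lt_of_lt_of_le (by positivity) hv6
  have hm3 : v ^ 3 ≤ m := by
    rw [hm]
    exact Nat.pow_le_pow_right hv0 (by omega)
  have hv2 : 2 ≤ v := by
    calc 2 ≤ q := by omega
      _ ≤ q ^ 6 := Nat.le_self_pow (by norm_num) q
      _ ≤ v := hv6
  have h1 : v ^ 2 ≤ 4 * (v * (v - 1) / 2) := by
    obtain ⟨w, rfl⟩ : ∃ w, v = w + 2 := ⟨v - 2, by omega⟩
    have h2 : w + 2 - 1 = w + 1 := by omega
    rw [h2]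
    have h3 : (w + 2) * (w + 1) % 2 = 0 := by
      have := Nat.even_mul_succ_self (w + 1)
      rw [mul_comm]
      exact Nat.even_iff.1 this
    have h4 : 2 * ((w + 2) * (w + 1) / 2) = (w + 2) * (w + 1) := by omega
    nlinarith
  have h2 : m * v ^ 2 ≤ 4 * N := by
    rw [hN]
    calc m * v ^ 2 ≤ m * (4 * (v * (v - 1) / 2)) := Nat.mul_le_mul_left m h1
      _ = _ := by ring
  have h3 : k ^ 2 ≤ 25 * q ^ 4 := by
    rw [hk]
    have : 4 * q ^ 2 + 1 ≤ 5 * q ^ 2 := by nlinarith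
    calc _ ≤ (5 * q ^ 2) ^ 2 := Nat.pow_le_pow_left this 2
      _ = _ := by ring
  have h4 : 4000 * q ^ 8 ≤ N := by
    have h5 : q ^ 12 ≤ v ^ 2 := by
      calc q ^ 12 = (q ^ 6) ^ 2 := by ring
        _ ≤ v ^ 2 := Nat.pow_le_pow_left hv6 2
    have h6 : 4 ≤ m := by
      calc 4 ≤ 2 ^ 3 := by norm_num
        _ ≤ v ^ 3 := Nat.pow_le_pow_left hv2 3
        _ ≤ m := hm3
    have h7 : 4 * v ^ 2 ≤ 4 * N := (Nat.mul_le_mul_right _ h6).trans h2
    have h8 : 4000 * q ^ 8 ≤ q ^ 12 := by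
      calc 4000 * q ^ 8 ≤ q ^ 4 * q ^ 8 := by
            apply Nat.mul_le_mul_right
            calc 4000 ≤ q := by omega
              _ ≤ q ^ 4 := Nat.le_self_pow (by norm_num) q
        _ = _ := by ring
    omega
  calc 40 * (m * v ^ 2 * k ^ 2 * (Nat.clog 2 m + 1)) ≤
        40 * (4 * N * (25 * q ^ 4) * q ^ 4) := by gcongr
    _ = N * (4000 * q ^ 8) := by ring
    _ ≤ N * N := Nat.mul_le_mul_left N h4
    _ = N ^ 2 := (sq N).symm

/-- the condition on the NOT gates -/
theorem cond {d q c v m N a : ℕ} (hd : 1 ≤ d) (hq : 1 ≤ q) (hv : v = q ^ (3 * c + 6))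
    (hm : m = v ^ (3 * d)) (hN : N = m * (v * (v - 1) / 2))
    (h : ((2 ^ a : ℕ) : ℝ) ≤ (N : ℝ) ^ (1 - 1 / (d : ℝ))) : 2 ^ a * v ≤ m := by
  have hv1 : 1 ≤ v := by
    rw [hv]
    exact Nat.one_le_pow _ _ hq
  have hvR : (1 : ℝ) ≤ v := by exact_mod_cast hv1
  have hdR : (1 : ℝ) ≤ d := by exact_mod_cast hd
  have hN1 : N ≤ v ^ (3 * d + 2) := by
    rw [hN, hm, pow_add]
    apply Nat.mul_le_mul_left
    calc v * (v - 1) / 2 ≤ v * (v - 1) := Nat.div_le_self _ _
      _ ≤ v * v := Nat.mul_le_mul_left _ (Nat.sub_le _ _)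
      _ = v ^ 2 := (sq v).symm
  have e1 : (0 : ℝ) ≤ 1 - 1 / (d : ℝ) := by
    rw [sub_nonneg, div_le_one (by linarith)]
    exact hdR
  have h1 : (N : ℝ) ^ (1 - 1 / (d : ℝ)) ≤ ((v : ℝ) ^ (3 * d + 2)) ^ (1 - 1 / (d : ℝ)) := by
    apply Real.rpow_le_rpow (by positivity) _ e1
    exact_mod_cast hN1
  have h2 : ((v : ℝ) ^ (3 * d + 2)) ^ (1 - 1 / (d : ℝ)) * v ≤ (v : ℝ) ^ (3 * d) := by
    rw [← Real.rpow_natCast (v : ℝ) (3 * d + 2), ← Real.rpow_mul (by linarith),
      ← Real.rpow_natCast (v : ℝ) (3 * d)]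
    nth_rewrite 2 [← Real.rpow_one (v : ℝ)]
    rw [← Real.rpow_add (by linarith)]
    apply Real.rpow_le_rpow_of_exponent_le hvR
    push_cast
    have e2 : (3 * (d : ℝ) + 2) * (1 - 1 / d) + 1 = 3 * d - 2 / d := by
      field_simp
      ring
    rw [e2]
    have : 0 ≤ 2 / (d : ℝ) := by positivity
    linarith
  have h3 : ((2 ^ a * v : ℕ) : ℝ) ≤ ((m : ℕ) : ℝ) := by
    rw [hm]
    push_cast at h ⊢
    calc (2 : ℝ) ^ a * v ≤ ((v : ℝ) ^ (3 * d + 2)) ^ (1 - 1 / (d : ℝ)) * v := by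
          apply mul_le_mul_of_nonneg_right (h.trans h1) (by linarith)
      _ ≤ _ := h2
  exact_mod_cast h3

end FINM

end Pool.Agent.NPP
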