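import Pool.Agent.NPP.Stmts
import Pool.Agent.Lib_helper45.PPQ2.Alt

/-!
# INC: the PP mode is a PSPACE mode
-/

set_option autoImplicit false

namespace Pool.Agent.NPP

open Finset Pool.Agent.NegLim Pool.Agent.NLM
open Pool.Agent.Lib_helper26.TQ (Alt)
open Pool.Agent.Lib_helper45.PPQ2 (Game qq dec evl cn game_count length_qq)

namespace INCM

theorem alt_iff_game : ∀ (q : List Bool) (R : List Bool → Prop), Alt q R ↔ Game q R
  | [], _ => Iff.rfl
  | true :: q, R => by
    unfold Alt Game
    exact exists_congr fun b => alt_iff_game q _
  | false :: q, R => by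
    unfold Alt Game
    exact forall_congr' fun b => alt_iff_game q _

theorem alt_congr_len : ∀ (q : List Bool) (R R' : List Bool → Prop),
    (∀ l : List Bool, l.length = q.length → (R l ↔ R' l)) → (Alt q R ↔ Alt q R')
  | [], _, _, h => h [] rfl
  | true :: q, R, R', h => by
    unfold Alt
    exact exists_congr fun b => alt_congr_len q _ _ fun l hl => h (b :: l) (by simp [hl])
  | false :: q, R, R', h => by
    unfold Alt
    exact forall_congr' fun b => alt_congr_len q _ _ fun l hl => h (b :: l) (by simp [hl])

/-- the place of the universal bit number `k` -/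
def pos : ℕ → ℕ → ℕ
  | 0, _ => 0
  | h + 1, 0 => h + 1
  | h + 1, k + 1 => h + 2 + pos h k

theorem getD_drop (w : List Bool) (n m : ℕ) : (w.drop n).getD m false = w.getD (n + m) false := by
  simp [List.getD_eq_getElem?_getD, List.getElem?_drop]

/-- the universal bits are the digits of the number of the question -/
theorem dec_bits : ∀ (h k j₀ : ℕ) (w : List Bool) (j : ℕ), dec h k j₀ w = Sum.inr j →
    j / 2 ^ h = j₀ ∧ ∀ i, i < h → w.getD (pos h i) false = j.testBit (h - 1 - i)
  | 0, k, j₀, w, j, hd => by
    unfold dec at hd
    split_ifs at hd with h0 h1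
    simp only [Sum.inr.injEq] at hd
    refine ⟨by simp [hd], ?_⟩
    intro i hi
    exact absurd hi (Nat.not_lt_zero i)
  | h + 1, k, j₀, w, j, hd => by
    have key : ∀ (b : Bool) (w' : List Bool), w.drop (h + 1) = b :: w' →
        j / 2 ^ h = 2 * j₀ + (if b = true then 1 else 0) →
        (∀ i, i < h → w'.getD (pos h i) false = j.testBit (h - 1 - i)) →
        j / 2 ^ (h + 1) = j₀ ∧
          ∀ i, i < h + 1 → w.getD (pos (h + 1) i) false = j.testBit (h + 1 - 1 - i) := by
      intro b w' hw hj hi
      constructor
      · rw [pow_succ, ← Nat.div_div_eq_div_mul, hj]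
        split_ifs <;> omega
      · intro i hlt
        rcases i with _ | i
        · have e1 : w.getD (h + 1) false = b := by
            have := getD_drop w (h + 1) 0
            rw [hw] at this
            simpa using this.symm
          show w.getD (h + 1) false = _
          rw [e1]
          simp only [Nat.add_sub_cancel, Nat.sub_zero]
          rw [Nat.testBit_eq_decide_div_mod_eq, hj]
          cases b
          · simp
          · simp
        · have e1 : w' = w.drop (h + 2) := by
            have : w.drop (h + 2) = (w.drop (h + 1)).drop 1 := by rw [List.drop_drop]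
            rw [this, hw]
            rfl
          show w.getD (h + 2 + pos h i) false = _
          rw [← getD_drop, ← e1, hi i (by omega)]
          congr 1
          omega
    unfold dec at hd
    split at hd
    · exact absurd hd (by simp)
    · rename_i w' hw
      obtain ⟨h1, h2⟩ := dec_bits h _ _ w' j hd
      exact key true w' hw (by rw [h1]; simp) h2
    · rename_i w' hw
      obtain ⟨h1, h2⟩ := dec_bits h _ _ w' j hd
      exact key false w' hw (by rw [h1]; simp) h2

section circuits

variable {E : Type} {s t t' : ℕ}

/-- substitute the bits `w` -/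
def trW (f : (Fin t' → Bool) → (Fin t → Bool)) : Wire E s t → Wire E s t'
  | Wire.inp e => Wire.inp e
  | Wire.wit φ => Wire.wit fun u w => φ u (f w)
  | Wire.gate n => Wire.gate n

/-- substitute the bits `w` -/
def trG (f : (Fin t' → Bool) → (Fin t → Bool)) : Gate E s t → Gate E s t'
  | Gate.and a b => Gate.and (trW f a) (trW f b)
  | Gate.or a b => Gate.or (trW f a) (trW f b)
  | Gate.not a => Gate.not (trW f a)

theorem trW_val (f : (Fin t' → Bool) → (Fin t → Bool)) (a : Wire E s t) (x : E → Bool)
    (u : Fin s → Bool) (w : Fin t' → Bool) (l : List Bool) :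
    (trW f a).val x u w l = a.val x u (f w) l := by
  cases a <;> rfl

theorem trG_val (f : (Fin t' → Bool) → (Fin t → Bool)) (g : Gate E s t) (x : E → Bool)
    (u : Fin s → Bool) (w : Fin t' → Bool) (l : List Bool) :
    (trG f g).val x u w l = g.val x u (f w) l := by
  cases g <;> simp [trG, Gate.val, trW_val]

theorem vals_concat (L : List (Gate E s t)) (g : Gate E s t) (x : E → Bool) (u : Fin s → Bool)
    (w : Fin t → Bool) : vals (L ++ [g]) x u w = vals L x u w ++ [g.val x u w (vals L x u w)] := by
  simp [vals, List.foldl_append]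

theorem vals_length (L : List (Gate E s t)) (x : E → Bool) (u : Fin s → Bool)
    (w : Fin t → Bool) : (vals L x u w).length = L.length := by
  induction L using List.reverseRecOn with
  | nil => rfl
  | append_singleton L g ih => rw [vals_concat]; simp [ih]

theorem vals_map (f : (Fin t' → Bool) → (Fin t → Bool)) (L : List (Gate E s t)) (x : E → Bool)
    (u : Fin s → Bool) (w : Fin t' → Bool) : vals (L.map (trG f)) x u w = vals L x u (f w) := by
  induction L using List.reverseRecOn with
  | nil => rfl
  | append_singleton L g ih =>
    rw [List.map_append, List.map_cons, List.map_nil, vals_concat, vals_concat, ih, trG_val]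

/-- the new circuit -/
def newC (C : NCirc E s t) (f : (Fin t' → Bool) → (Fin t → Bool))
    (q c : (Fin t' → Bool) → Bool) : NCirc E s t' where
  gates := C.gates.map (trG f) ++ [Gate.and (Wire.wit fun _ w => q w) (trW f C.out)] ++
    [Gate.or (Wire.gate C.gates.length) (Wire.wit fun _ w => c w)]
  out := Wire.gate (C.gates.length + 1)

theorem newC_outp (C : NCirc E s t) (f : (Fin t' → Bool) → (Fin t → Bool))
    (q c : (Fin t' → Bool) → Bool) (x : E → Bool) (u : Fin s → Bool) (w : Fin t' → Bool) :
    outp (newC C f q c) x u w = ((q w && outp C x u (f w)) || c w) := by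
  have h1 := vals_length C.gates x u (f w)
  have h2 : (Gate.and (Wire.wit fun _ w => q w) (trW f C.out) : Gate E s t').val x u w
      (vals C.gates x u (f w)) = (q w && outp C x u (f w)) := by
    show (q w && (trW f C.out).val x u w (vals C.gates x u (f w))) = _
    rw [trW_val]
    rfl
  have h3 : vals (newC C f q c).gates x u w = vals C.gates x u (f w) ++
      [q w && outp C x u (f w)] ++ [(q w && outp C x u (f w)) || c w] := by
    unfold newC
    simp only
    rw [vals_concat, vals_concat, vals_map, h2]
    congr 2
    show ((vals C.gates x u (f w) ++ [q w && outp C x u (f w)]).getD C.gates.length false ||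
      c w) = _
    rw [← h1]
    simp [List.getD_eq_getElem?_getD]
  show (vals (newC C f q c).gates x u w).getD (C.gates.length + 1) false = _
  rw [h3, ← h1]
  simp [List.getD_eq_getElem?_getD]

theorem newC_len (C : NCirc E s t) (f : (Fin t' → Bool) → (Fin t → Bool))
    (q c : (Fin t' → Bool) → Bool) : (newC C f q c).gates.length = C.gates.length + 2 := by
  simp [newC]

theorem newC_nots (C : NCirc E s t) (f : (Fin t' → Bool) → (Fin t → Bool))
    (q c : (Fin t' → Bool) → Bool) : (newC C f q c).nots = C.nots := by
  unfold NCirc.nots newC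
  simp only [List.countP_append, List.countP_map]
  have h1 : (Gate.isNot ∘ trG f : Gate E s t → Bool) = Gate.isNot := by
    funext g
    cases g <;> rfl
  rw [h1]
  simp [Gate.isNot]

theorem newC_free (C : NCirc E s t) (hC : C.NotsFree) (f : (Fin t' → Bool) → (Fin t → Bool))
    (q c : (Fin t' → Bool) → Bool) : (newC C f q c).NotsFree := by
  rintro n ⟨a, ha⟩ x u w w'
  have hlen : ∀ w, (vals C.gates x u (f w)).length = C.gates.length := fun w =>
    vals_length C.gates x u (f w)
  by_cases hn : n < C.gates.length
  · have h1 : (C.gates.map (trG f))[n]? = some (Gate.not a) := by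
      rw [← ha]
      simp only [newC]
      rw [List.append_assoc, List.getElem?_append_left (by simpa using hn)]
    rw [List.getElem?_map] at h1
    obtain ⟨g, hg, hg'⟩ := Option.map_eq_some_iff.mp h1
    have h2 : ∃ a', C.gates[n]? = some (Gate.not a') := by
      cases g with
      | and a b => simp [trG] at hg'
      | or a b => simp [trG] at hg'
      | not a' => exact ⟨a', hg⟩
    have h3 := hC n h2 x u (f w) (f w')
    have h4 : ∀ w, (vals (newC C f q c).gates x u w)[n]? = (vals C.gates x u (f w))[n]? := by
      intro w
      simp only [newC]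
      rw [vals_concat, vals_concat, vals_map, List.append_assoc,
        List.getElem?_append_left (by rw [hlen]; exact hn)]
    rw [h4, h4, h3]
  · exfalso
    simp only [newC] at ha
    rw [List.append_assoc, List.getElem?_append_right (by simpa using hn)] at ha
    obtain ⟨m, hm⟩ : ∃ m, m = n - (C.gates.map (trG f)).length := ⟨_, rfl⟩
    rw [← hm] at ha
    rcases m with _ | _ | m
    · simp at ha
    · simp at ha
    · simp at ha

end circuits

section count

variable (s t : ℕ)

/-- the bits of a number -/
def bits (i : ℕ) : (Fin s → Bool) × (Fin t → Bool) :=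
  (fun a => i.testBit (s + t - 1 - a), fun b => i.testBit (s + t - 1 - (s + b)))

theorem bits_inj (i j : ℕ) (hi : i < 2 ^ (s + t)) (hj : j < 2 ^ (s + t))
    (h : bits s t i = bits s t j) : i = j := by
  apply Nat.eq_of_testBit_eq
  intro k
  by_cases hk : k < s + t
  · by_cases hs : s + t - 1 - k < s
    · have h1 := congrFun (congrArg Prod.fst h) ⟨s + t - 1 - k, hs⟩
      simp only [bits] at h1
      have e : s + t - 1 - (s + t - 1 - k) = k := by omega
      rwa [e] at h1
    · have h1 := congrFun (congrArg Prod.snd h) ⟨s + t - 1 - k - s, by omega⟩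
      simp only [bits] at h1
      have e : s + t - 1 - (s + (s + t - 1 - k - s)) = k := by omega
      rwa [e] at h1
  · have hk' : 2 ^ (s + t) ≤ 2 ^ k := Nat.pow_le_pow_right (by norm_num) (by omega)
    rw [Nat.testBit_lt_two_pow (by omega), Nat.testBit_lt_two_pow (by omega)]

open Classical in
theorem card_bits (P : (Fin s → Bool) × (Fin t → Bool) → Prop) :
    cn (fun i => P (bits s t i)) (s + t) 0 = (univ.filter fun p => P p).card := by
  have hbij : Function.Bijective (fun i : Fin (2 ^ (s + t)) => bits s t i) := by
    rw [Fintype.bijective_iff_injective_and_card]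
    refine ⟨fun i j h => Fin.ext (bits_inj s t i j i.2 j.2 h), ?_⟩
    simp [pow_add]
  obtain ⟨e, he⟩ : ∃ e : Fin (2 ^ (s + t)) ≃ (Fin s → Bool) × (Fin t → Bool),
      ∀ i, e i = bits s t i := ⟨Equiv.ofBijective _ hbij, fun i => rfl⟩
  unfold cn
  simp only [zero_mul, zero_add]
  symm
  refine card_bij (fun p _ => ((e.symm p : Fin (2 ^ (s + t))) : ℕ)) ?_ ?_ ?_
  · intro p hp
    rw [mem_filter] at hp
    rw [mem_filter, mem_range]
    refine ⟨(e.symm p).2, ?_⟩
    rw [← he, Equiv.apply_symm_apply]
    exact hp.2
  · intro p _ p' _ h
    exact e.symm.injective (Fin.ext h)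
  · intro i hi
    rw [mem_filter, mem_range] at hi
    refine ⟨bits s t i, ?_, ?_⟩
    · rw [mem_filter]
      exact ⟨mem_univ _, hi.2⟩
    · have := he ⟨i, hi.1⟩
      simp only at this
      rw [← this, Equiv.symm_apply_apply]

end count

end INCM

open INCM in
theorem INC_thm : Stmt_INC := by
  classical
  intro E s t C hC
  obtain ⟨W, hW⟩ : ∃ W, W = s + t := ⟨_, rfl⟩
  obtain ⟨T, hT⟩ : ∃ T, T = (s + t) * (s + t + 3) / 2 := ⟨_, rfl⟩
  have hlen : (qq W).length = T := by
    have := length_qq W
    rw [hT, ← hW]
    omega
  rw [← hT]
  let K := 2 ^ W / 2 + 1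
  let f : (Fin T → Bool) → (Fin t → Bool) := fun w j =>
    (List.ofFn w).getD (pos W (s + j)) false
  let qq' : (Fin T → Bool) → Bool := fun w => (dec W K 0 (List.ofFn w)).isRight
  let cc : (Fin T → Bool) → Bool := fun w => decide (dec W K 0 (List.ofFn w) = Sum.inl true)
  refine ⟨newC C f qq' cc, qq W, fun i => pos W i, newC_free C hC f qq' cc,
    newC_nots C f qq' cc, newC_len C f qq' cc, hlen, ?_⟩
  intro x
  let p : ℕ → Prop := fun i => outp C x (bits s t i).1 (bits s t i).2 = true
  have h1 : Pspace (newC C f qq' cc) (qq W) (fun i => pos W i) x ↔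
      Alt (qq W) (fun l => evl p (dec W K 0 l)) := by
    unfold Pspace
    apply alt_congr_len
    intro l hl
    rw [hlen] at hl
    rw [newC_outp]
    have e1 : (List.ofFn fun j : Fin T => l.getD (j : ℕ) false) = l := by
      apply List.ext_getElem
      · simp [hl]
      · intro n h2 h3
        simp [List.getD_eq_getElem?_getD, h3]
    have e2 : f (fun j : Fin T => l.getD (j : ℕ) false) =
        fun j : Fin t => l.getD (pos W (s + j)) false := by
      funext j
      simp only [f, e1]
    have e3 : qq' (fun j : Fin T => l.getD (j : ℕ) false) = (dec W K 0 l).isRight := by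
      simp only [qq', e1]
    have e4 : cc (fun j : Fin T => l.getD (j : ℕ) false) =
        decide (dec W K 0 l = Sum.inl true) := by
      simp only [cc, e1]
    rw [e2, e3, e4]
    rcases hdec : dec W K 0 l with b | j
    · simp [evl]
    · obtain ⟨-, hb⟩ := dec_bits W K 0 l j hdec
      have e5 : (fun i : Fin s => l.getD (pos W i) false) = (bits s t j).1 := by
        funext i
        rw [hb i (by have := i.2; omega)]
        simp only [bits, hW]
      have e6 : (fun i : Fin t => l.getD (pos W (s + i)) false) = (bits s t j).2 := by
        funext i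
        rw [hb (s + i) (by have := i.2; omega)]
        simp only [bits, hW]
      rw [e5, e6]
      simp [evl, p]
  rw [h1, alt_iff_game, game_count]
  have h2 : cn p W 0 = (univ.filter fun q : (Fin s → Bool) × (Fin t → Bool) =>
      outp C x q.1 q.2 = true).card := by
    rw [hW]
    have h4 := card_bits s t (fun q => outp C x q.1 q.2 = true)
    convert h4
  rw [h2]
  unfold Maj
  rw [← hW]
  have h3 : ∀ c : ℕ, K ≤ c ↔ 2 ^ W < 2 * c := by
    intro c
    show 2 ^ W / 2 + 1 ≤ c ↔ _
    omega
  rw [h3]

end Pool.Agent.NPP
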