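import Pool.Agent.NPP.Stmts

/-!
# The lower bound with explicit parameters
-/

set_option autoImplicit false

namespace Pool.Agent.NPP

open Finset Pool.Agent.NegLim Pool.Agent.NLM Pool.Agent.NEG72

namespace LOWM

/-- the numerical contradiction -/
theorem num {s t n T q S p x : ℕ} (hst : s + t ≤ S) (hn : n = S + 2) (hT : T ≤ 2 ^ q)
    (hx : x ≤ 2 ^ (p - (2 * S + 3 + q))) (hp : 2 * S + 3 + q ≤ p)
    (h : (1 : ℝ) ≤ 2 ^ (s + t) * (1 / 2 ^ n + n * (2 * T * (x : ℝ) / 2 ^ p))) : False := by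
  have h1 : (2 : ℝ) ^ (s + t) * (1 / 2 ^ n) ≤ 1 / 4 := by
    rw [mul_one_div, div_le_div_iff₀ (by positivity) (by norm_num)]
    have : (2 : ℝ) ^ (s + t) * 4 = 2 ^ (s + t + 2) := by rw [pow_add _ (s + t)]; norm_num
    rw [this, one_mul]
    exact pow_le_pow_right₀ (by norm_num) (by omega)
  have h2 : (2 : ℝ) ^ (s + t) * (n * (2 * T * (x : ℝ) / 2 ^ p)) ≤ 1 / 2 := by
    have e1 : (2 : ℝ) ^ (s + t) ≤ 2 ^ S := pow_le_pow_right₀ (by norm_num) hst
    have e2 : (n : ℝ) ≤ 2 ^ (S + 1) := by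
      have : n < 2 ^ (S + 1) + 1 := by
        have h3 : S + 1 < 2 ^ (S + 1) := Nat.lt_two_pow_self
        omega
      exact_mod_cast Nat.lt_succ_iff.1 this
    have e3 : (T : ℝ) ≤ 2 ^ q := by exact_mod_cast hT
    have e4 : (x : ℝ) ≤ 2 ^ (p - (2 * S + 3 + q)) := by exact_mod_cast hx
    have e5 : (2 : ℝ) ^ (s + t) * (n * (2 * T * (x : ℝ))) ≤
        2 ^ S * (2 ^ (S + 1) * (2 * 2 ^ q * 2 ^ (p - (2 * S + 3 + q)))) := by
      gcongr
    have e6 : (2 : ℝ) ^ S * (2 ^ (S + 1) * (2 * 2 ^ q * 2 ^ (p - (2 * S + 3 + q)))) * 2 =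
        2 ^ p := by
      have : p = S + (S + 1) + 1 + q + (p - (2 * S + 3 + q)) + 1 := by omega
      calc _ = (2 : ℝ) ^ (S + (S + 1) + 1 + q + (p - (2 * S + 3 + q)) + 1) := by
            rw [pow_add, pow_add, pow_add, pow_add, pow_add, pow_one]
            ring
        _ = 2 ^ p := by rw [← this]
    have e7 : (2 : ℝ) ^ (s + t) * (n * (2 * T * (x : ℝ) / 2 ^ p)) =
        2 ^ (s + t) * (n * (2 * T * (x : ℝ))) / 2 ^ p := by ring
    rw [e7, div_le_div_iff₀ (by positivity) (by norm_num)]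
    linarith
  rw [mul_add] at h
  linarith

end LOWM

theorem LOW_thm (hBLK : Stmt_BLK) (hCMP : Stmt_CMP) : Stmt_LOW := by
  classical
  intro c d hc hd
  refine ⟨12 * c + 40, fun q hq v m k hv hm hk s t θ C hN hC hst hsr => ?_⟩
  by_contra hlt
  push Not at hlt
  have hq0 : 0 < q := by omega
  set S := q ^ (3 * c) with hS
  have hS' : (q ^ 3) ^ c = S := by rw [hS, pow_mul]
  rw [hS'] at hst
  have hS3 : q ^ 3 ≤ S := Nat.pow_le_pow_right hq0 (by omega)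
  have hvS : v = S * q ^ 6 := by rw [hv, hS, pow_add]
  have hq3 : q ≤ q ^ 3 := Nat.le_self_pow (by norm_num) q
  have hnv : S + 2 ≤ v := by
    rw [hvS]
    have h1 : 3 ≤ q ^ 6 := by
      calc 3 ≤ q := by omega
        _ ≤ q ^ 6 := Nat.le_self_pow (by norm_num) q
    have h2 : S * 3 ≤ S * q ^ 6 := Nat.mul_le_mul_left S h1
    omega
  have hkv : k ≤ v := by
    rw [hvS, hk]
    have h1 : 4 * q ^ 2 + 1 ≤ q ^ 3 := by nlinarith
    have h2 : 1 ≤ q ^ 6 := Nat.one_le_pow _ _ hq0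
    calc _ ≤ q ^ 3 := h1
      _ ≤ S := hS3
      _ = S * 1 := (mul_one _).symm
      _ ≤ _ := Nat.mul_le_mul_left S h2
  obtain ⟨D, hD1, hD2⟩ := hBLK m v k s t (S + 2) θ C hkv hN
    ((Nat.mul_le_mul_left _ hnv).trans hsr) hC
  have hT : C.gates.length + 1 ≤ 2 ^ q := hlt
  have hb : k * (8 * (S * q ^ 3)) ≤ v := by
    rw [hvS, hk]
    have h1 : (4 * q ^ 2 + 1) * 8 ≤ q ^ 3 := by nlinarith
    calc _ = (4 * q ^ 2 + 1) * 8 * (S * q ^ 3) := by ring
      _ ≤ q ^ 3 * (S * q ^ 3) := Nat.mul_le_mul_right _ h1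
      _ = _ := by ring
  have hx : (2 * q * (S * q ^ 2)) ^ (4 * q) ≤ 2 ^ (S * q ^ 2 - (2 * S + 3 + q)) := by
    have h1 : q < 2 ^ q := Nat.lt_two_pow_self
    have h2 : 2 * q * (S * q ^ 2) ≤ 2 ^ ((3 * c + 4) * q) := by
      calc 2 * q * (S * q ^ 2) = 2 * q ^ (3 * c + 3) := by rw [hS]; ring
        _ ≤ 2 * (2 ^ q) ^ (3 * c + 3) :=
            Nat.mul_le_mul_left 2 (Nat.pow_le_pow_left h1.le _)
        _ = 2 ^ (1 + q * (3 * c + 3)) := by rw [← pow_mul, pow_add, pow_one]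
        _ ≤ 2 ^ ((3 * c + 4) * q) := Nat.pow_le_pow_right (by norm_num) (by nlinarith)
    calc _ ≤ (2 ^ ((3 * c + 4) * q)) ^ (4 * q) := Nat.pow_le_pow_left h2 _
      _ = 2 ^ ((3 * c + 4) * q * (4 * q)) := by rw [← pow_mul]
      _ ≤ _ := by
        apply Nat.pow_le_pow_right (by norm_num)
        have h3 : (3 * c + 4) * q * (4 * q) ≤ q ^ 3 := by nlinarith
        have h4 : S * 5 ≤ S * q ^ 2 := Nat.mul_le_mul_left S (by nlinarith)
        omega
  have hp : 2 * S + 3 + q ≤ S * q ^ 2 := by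
    have h4 : S * 5 ≤ S * q ^ 2 := Nat.mul_le_mul_left S (by nlinarith)
    omega
  have h := hCMP (S + 2) v k (8 * (S * q ^ 3)) q (S * q ^ 2) (C.gates.length + 1) s t θ hb D
    (by omega) (by
      rw [hk, Nat.add_sub_cancel]
      calc 2 * q * (2 * q - 1) ≤ 2 * q * (2 * q) := Nat.mul_le_mul_left _ (Nat.sub_le _ _)
        _ = _ := by ring) (by
      have h1 : 2 ≤ S := by omega
      have h2 : 1 ≤ q ^ 2 := Nat.one_le_pow _ _ hq0
      calc 2 ≤ S * 1 := by omega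
        _ ≤ _ := Nat.mul_le_mul_left S h2) (le_of_eq (by ring)) (by
      calc 4 * (C.gates.length + 1) ≤ 4 * 2 ^ q := Nat.mul_le_mul_left 4 hT
        _ = 2 ^ (q + 2) := by rw [pow_add]; ring
        _ ≤ 2 ^ (2 * q) := Nat.pow_le_pow_right (by norm_num) (by omega)) hD1 hD2
  refine LOWM.num (s := s) (t := t) (n := S + 2) (T := C.gates.length + 1) (q := q) (S := S)
    (p := S * q ^ 2) (x := (2 * q * (S * q ^ 2)) ^ (4 * q)) hst rfl hT hx hp ?_
  push_cast at h ⊢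
  exact h

end Pool.Agent.NPP
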