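import Pool.Agent.NPP.Mode
import Pool.Agent.NPP.BLK2
import Pool.Agent.NPP.CMP2

/-!
# The lower bound
-/

set_option autoImplicit false

namespace Pool.Agent.NPP

open Finset Pool.Agent.NegLim Pool.Agent.NLM Pool.Agent.NEG72

namespace LOW2M

/-- the numerical contradiction -/
theorem num {T q W p x : ℕ} (hT : T ≤ 2 ^ q)
    (hx : x ≤ 2 ^ (p - (2 * W + 3 + q))) (hp : 2 * W + 3 + q ≤ p)
    (h : (1 : ℝ) / 2 ^ W ≤ 1 / 2 ^ (W + 2) + (W + 2 : ℕ) * (2 * T * (x : ℝ) / 2 ^ p)) :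
    False := by
  have h2 : ((W + 2 : ℕ) : ℝ) * (2 * T * (x : ℝ) / 2 ^ p) ≤ 1 / 2 ^ (W + 1) := by
    have e2 : ((W + 2 : ℕ) : ℝ) ≤ 2 ^ (W + 1) := by
      have : W + 2 < 2 ^ (W + 1) + 1 := by
        have h3 : W + 1 < 2 ^ (W + 1) := Nat.lt_two_pow_self
        omega
      exact_mod_cast Nat.lt_succ_iff.1 this
    have e3 : (T : ℝ) ≤ 2 ^ q := by exact_mod_cast hT
    have e4 : (x : ℝ) ≤ 2 ^ (p - (2 * W + 3 + q)) := by exact_mod_cast hx
    have e5 : ((W + 2 : ℕ) : ℝ) * (2 * T * (x : ℝ)) ≤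
        2 ^ (W + 1) * (2 * 2 ^ q * 2 ^ (p - (2 * W + 3 + q))) := by
      gcongr
    have e6 : (2 : ℝ) ^ (W + 1) * (2 * 2 ^ q * 2 ^ (p - (2 * W + 3 + q))) * 2 ^ (W + 1) =
        2 ^ p := by
      have : p = (W + 1) + 1 + q + (p - (2 * W + 3 + q)) + (W + 1) := by omega
      calc _ = (2 : ℝ) ^ ((W + 1) + 1 + q + (p - (2 * W + 3 + q)) + (W + 1)) := by
            rw [pow_add (2 : ℝ) ((W + 1) + 1 + q + (p - (2 * W + 3 + q))) (W + 1),
              pow_add (2 : ℝ) ((W + 1) + 1 + q) (p - (2 * W + 3 + q)),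
              pow_add (2 : ℝ) ((W + 1) + 1) q, pow_add (2 : ℝ) (W + 1) 1, pow_one]
            ring
        _ = 2 ^ p := by rw [← this]
    have e7 : ((W + 2 : ℕ) : ℝ) * (2 * T * (x : ℝ) / 2 ^ p) =
        ((W + 2 : ℕ) : ℝ) * (2 * T * (x : ℝ)) / 2 ^ p := by ring
    rw [e7, div_le_div_iff₀ (by positivity) (by positivity), one_mul, ← e6]
    exact mul_le_mul_of_nonneg_right e5 (by positivity)
  have h3 : (1 : ℝ) / 2 ^ (W + 2) = (1 / 2 ^ W) * (1 / 4) := by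
    rw [pow_add]
    norm_num
    ring
  have h4 : (1 : ℝ) / 2 ^ (W + 1) = (1 / 2 ^ W) * (1 / 2) := by
    rw [pow_add]
    norm_num
    ring
  have h5 : (0 : ℝ) < 1 / 2 ^ W := by positivity
  rw [h3] at h
  rw [h4] at h2
  linarith

/-- the lower bound with parameters -/
theorem low {v k m W s t h p b q : ℕ} (C : NCirc (Fin m × Edge v) s t) (hN : C.NotsFree)
    (hm : 2 ^ (s + C.nots) * (W + 2) ≤ m) (hkv : k ≤ v) (hb : k * b ≤ v) (h1 : 1 ≤ h)
    (hk : 2 * h * (2 * h - 1) ≤ k - 1) (hp : 2 ≤ p) (hpb : 4 * (p * (2 * h)) ≤ b)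
    (hq : q + 2 ≤ 2 * h) (hx : (2 * h * p) ^ (4 * h) ≤ 2 ^ (p - (2 * W + 3 + q)))
    (hpW : 2 * W + 3 + q ≤ p) (θ : ℝ) (hC : Gap C θ (1 / 2 ^ W) (AllClq m v k)) :
    2 ^ q ≤ C.gates.length := by
  classical
  by_contra hlt
  push Not at hlt
  obtain ⟨Z, R, D, Q, -, hZ, hD1, hD2, hD3, -⟩ := blk2 (m' := W + 2) C hkv hN hm
  have hk1 : 1 ≤ k - 1 := by
    have h4 : 1 ≤ 2 * h - 1 := by omega
    nlinarith
  -- the threshold is nonnegative
  have hθ : 0 ≤ θ * 2 ^ (s + t) := by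
    have h0 : ¬ AllClq (W + 2) v k fun _ => false := by
      intro h2
      have h3 := h2 0
      have h0k : 0 < k - 1 := by omega
      let χ₀ : Fin v → Fin (k - 1) := fun _ => ⟨0, h0k⟩
      have h4 := CMPM.not_clq_negG (v := v) (k := k) (by omega) (false, χ₀) rfl
      apply h4
      have h5 : (negG (false, χ₀) : Edge v → Bool) = fun _ => false := by
        funext e
        simp [negG, negIn, χ₀]
      rw [h5]
      exact h3
    have h6 := (hC (Z fun _ => false)).2 (fun h7 => h0 ((hZ _).1 h7))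
    exact (Nat.cast_nonneg _).trans h6
  have hT : C.gates.length + 1 ≤ 2 ^ q := hlt
  have hc := cmp2 (W + 2) v k b h p (C.gates.length + 1) s t hb D h1 hk hp hpb (by
      calc 4 * (C.gates.length + 1) ≤ 4 * 2 ^ q := Nat.mul_le_mul_left 4 hT
        _ = 2 ^ (q + 2) := by rw [pow_add]; ring
        _ ≤ 2 ^ (2 * h) := Nat.pow_le_pow_right (by norm_num) hq) hD1
    ((θ + 1 / 2 ^ W) * 2 ^ (s + t)) (θ * 2 ^ (s + t)) hθ (by
      intro z hz
      have h2 := (hC (Z z)).1 ((hZ z).2 hz)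
      have h3 : (univ.filter fun q => D q z = true).card = acc C (Z z) := by
        unfold acc
        congr 1
        apply Finset.filter_congr
        intro p _
        rw [hD2 z hz p]
      rw [h3]
      exact h2) (by
      intro z hz
      have h2 := (hC (Z z)).2 (fun h3 => hz ((hZ z).1 h3))
      refine le_trans ?_ h2
      have h3 : (univ.filter fun q => D q z = true).card ≤ acc C (Z z) := by
        unfold acc
        apply Finset.card_le_card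
        intro p hp
        rw [mem_filter] at hp ⊢
        exact ⟨mem_univ _, hD3 z p hp.2⟩
      exact_mod_cast h3)
  have h2 : (0 : ℝ) < 2 ^ (s + t) := by positivity
  have h3 : (1 : ℝ) / 2 ^ W * 2 ^ (s + t) ≤ (1 / 2 ^ (W + 2) + (W + 2 : ℕ) *
      (2 * (C.gates.length + 1 : ℕ) * ((2 * h * p : ℕ) : ℝ) ^ (4 * h) / 2 ^ p)) *
        2 ^ (s + t) := by
    rw [add_mul] at hc
    linarith
  have h4 := le_of_mul_le_mul_right h3 h2
  refine num (T := C.gates.length + 1) (q := q) (W := W) (p := p) (x := (2 * h * p) ^ (4 * h))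
    hT hx hpW ?_
  push_cast at h4 ⊢
  exact h4

/-- the parameters -/
theorem params (ε : ℝ) (hε : 0 < ε) (hε1 : ε ≤ 1) : ∃ v₀ : ℕ, ∀ v ≥ v₀, ∀ k W : ℕ,
    k = ⌊(v : ℝ) ^ (ε / 4)⌋₊ → (W : ℝ) ≤ (v : ℝ) ^ (1 - ε) →
    ∃ h p b q : ℕ, k ≤ v ∧ k * b ≤ v ∧ 1 ≤ h ∧ 2 * h * (2 * h - 1) ≤ k - 1 ∧ 2 ≤ p ∧
      4 * (p * (2 * h)) ≤ b ∧ q + 2 ≤ 2 * h ∧ (2 * h * p) ^ (4 * h) ≤ 2 ^ (p - (2 * W + 3 + q)) ∧
      2 * W + 3 + q ≤ p ∧ (v : ℝ) ^ (ε / 10) ≤ q := by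
  have h1 : Filter.Tendsto (fun v : ℕ => (v : ℝ) ^ (ε / 40)) Filter.atTop Filter.atTop :=
    (tendsto_rpow_atTop (by positivity)).comp tendsto_natCast_atTop_atTop
  have h2 : ∀ᶠ v : ℕ in Filter.atTop, ‖Real.log (v : ℝ)‖ ≤ 1 / 2 * ‖(v : ℝ) ^ (ε / 40)‖ :=
    tendsto_natCast_atTop_atTop.eventually
      ((isLittleO_log_rpow_atTop (by positivity : 0 < ε / 40)).bound (by norm_num : (0 : ℝ) < 1 / 2))
  have h3 := (h1.eventually_ge_atTop 100).and (h2.and (Filter.eventually_ge_atTop 2))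
  obtain ⟨v₀, hv₀⟩ := Filter.eventually_atTop.1 h3
  refine ⟨v₀, fun v hv k W hk hW => ?_⟩
  obtain ⟨hy, hlog, hv2⟩ := hv₀ v hv
  have hv0 : (0 : ℝ) < v := by
    have : (2 : ℝ) ≤ v := by exact_mod_cast hv2
    linarith
  have hv1 : (1 : ℝ) ≤ v := by
    have : (2 : ℝ) ≤ v := by exact_mod_cast hv2
    linarith
  set y : ℝ := (v : ℝ) ^ (ε / 40) with hydef
  have hpow : ∀ j : ℕ, (v : ℝ) ^ (j * ε / 40) = y ^ j := by
    intro j
    rw [hydef, ← Real.rpow_natCast, ← Real.rpow_mul hv0.le]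
    congr 1
    ring
  have e4 : (v : ℝ) ^ (ε / 10) = y ^ 4 := by
    rw [← hpow 4]; congr 1; push_cast; ring
  have e10 : (v : ℝ) ^ (ε / 4) = y ^ 10 := by
    rw [← hpow 10]; congr 1; push_cast; ring
  set P : ℝ := (v : ℝ) ^ (1 - ε) with hP
  have hP1 : 1 ≤ P := Real.one_le_rpow hv1 (by linarith)
  have eP : ∀ j : ℕ, (v : ℝ) ^ (1 - ε + j * ε / 40) = P * y ^ j := by
    intro j
    rw [Real.rpow_add hv0, hpow j]
  have ev : (v : ℝ) = P * y ^ 40 := by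
    rw [← eP 40]
    have : 1 - ε + ((40 : ℕ) : ℝ) * ε / 40 = 1 := by push_cast; ring
    rw [this, Real.rpow_one]
  have hlog2 : Real.logb 2 v ≤ y := by
    have h4 : Real.log v ≤ 1 / 2 * y := by
      have := hlog
      rw [Real.norm_of_nonneg (Real.log_nonneg hv1), Real.norm_of_nonneg (by linarith)] at this
      exact this
    rw [Real.logb, div_le_iff₀ (Real.log_pos (by norm_num))]
    have h5 := Real.log_two_gt_d9
    nlinarith
  have hy0 : (0 : ℝ) < y := by linarith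
  -- powers of y
  have hy4 : (100 : ℝ) ^ 4 ≤ y ^ 4 := pow_le_pow_left₀ (by norm_num) hy 4
  have hy5 : y ^ 5 = y ^ 4 * y := by ring
  -- k
  have hk1 : (k : ℝ) ≤ y ^ 10 := by
    rw [hk, ← e10]
    exact Nat.floor_le (by positivity)
  have hk2 : y ^ 10 < k + 1 := by
    rw [hk, ← e10]
    exact Nat.lt_floor_add_one _
  set h : ℕ := ⌊y ^ 5 / 4⌋₊ with hh
  have hh1 : (h : ℝ) ≤ y ^ 5 / 4 := Nat.floor_le (by positivity)
  have hh2 : y ^ 5 / 4 < h + 1 := Nat.lt_floor_add_one _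
  set b : ℕ := ⌊P * y ^ 30⌋₊ with hb
  have hb1 : (b : ℝ) ≤ P * y ^ 30 := Nat.floor_le (by positivity)
  have hb2 : P * y ^ 30 < b + 1 := Nat.lt_floor_add_one _
  set p : ℕ := ⌊P * y ^ 20⌋₊ with hp
  have hp1 : (p : ℝ) ≤ P * y ^ 20 := Nat.floor_le (by positivity)
  have hp2 : P * y ^ 20 < p + 1 := Nat.lt_floor_add_one _
  set q : ℕ := ⌈y ^ 4⌉₊ with hq
  have hq1 : y ^ 4 ≤ q := Nat.le_ceil _
  have hq2 : (q : ℝ) < y ^ 4 + 1 := Nat.ceil_lt_add_one (by positivity)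
  have hy20 : y ^ 20 = y ^ 6 * y ^ 14 := by ring
  have hy6 : y ^ 6 = y ^ 4 * (y * y) := by ring
  have hy14 : (100 : ℝ) ≤ y ^ 14 := hy.trans (le_self_pow₀ (by linarith) (by norm_num))
  have hPy : y ^ 20 ≤ P * y ^ 20 := le_mul_of_one_le_left (by positivity) hP1
  have h2hp : 2 * (h : ℝ) * p ≤ v := by
    rw [ev]
    calc 2 * (h : ℝ) * p ≤ 2 * (y ^ 5 / 4) * (P * y ^ 20) := by gcongr
      _ = P * y ^ 25 * (1 / 2) := by ring
      _ ≤ P * y ^ 25 * y ^ 15 := by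
        apply mul_le_mul_of_nonneg_left _ (by positivity)
        have : (1 : ℝ) ≤ y ^ 15 := one_le_pow₀ (by linarith)
        linarith
      _ = P * y ^ 40 := by ring
  have hbig : (2 * W + 3 + q : ℝ) + 4 * h * (y + 1) ≤ p := by
    have h4 : 4 * (h : ℝ) * (y + 1) ≤ y ^ 5 * (y + 1) := by
      have : 4 * (h : ℝ) ≤ y ^ 5 := by linarith
      exact mul_le_mul_of_nonneg_right this (by linarith)
    have h5 : y ^ 5 * (y + 1) ≤ 2 * y ^ 6 := by
      have : y ^ 5 * (y + 1) = y ^ 6 + y ^ 5 := by ring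
      have h6 : y ^ 5 ≤ y ^ 6 := pow_le_pow_right₀ (by linarith) (by norm_num)
      linarith
    have h6 : y ^ 4 ≤ y ^ 6 := pow_le_pow_right₀ (by linarith) (by norm_num)
    have h7 : P * (y ^ 6 * 100) ≤ P * y ^ 20 := by
      rw [hy20]
      gcongr
    have h8 : y ^ 6 ≤ P * y ^ 6 := le_mul_of_one_le_left (by positivity) hP1
    have h9 : P ≤ P * y ^ 6 := le_mul_of_one_le_right (by linarith) (one_le_pow₀ (by linarith))
    have h10 : (1 : ℝ) ≤ P * y ^ 6 := hP1.trans h9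
    linarith
  refine ⟨h, p, b, q, ?_, ?_, ?_, ?_, ?_, ?_, ?_, ?_, ?_, ?_⟩
  · have : (k : ℝ) ≤ v := by
      rw [ev]
      calc (k : ℝ) ≤ y ^ 10 := hk1
        _ ≤ y ^ 40 := pow_le_pow_right₀ (by linarith) (by norm_num)
        _ ≤ P * y ^ 40 := le_mul_of_one_le_left (by positivity) hP1
    exact_mod_cast this
  · have : (k : ℝ) * b ≤ v := by
      rw [ev]
      calc (k : ℝ) * b ≤ y ^ 10 * (P * y ^ 30) := by gcongr
        _ = P * y ^ 40 := by ring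
    exact_mod_cast this
  · have : (1 : ℝ) ≤ y ^ 5 / 4 := by
      rw [hy5]
      nlinarith
    exact Nat.le_floor (by exact_mod_cast this)
  · have h4 : (2 * (h : ℝ)) * (2 * h) + 2 ≤ k + 1 := by
      have h5 : 2 * (h : ℝ) ≤ y ^ 5 / 2 := by linarith
      have h6 : (2 * (h : ℝ)) * (2 * h) ≤ y ^ 5 / 2 * (y ^ 5 / 2) := by gcongr
      have h7 : y ^ 5 / 2 * (y ^ 5 / 2) = y ^ 10 / 4 := by ring
      have h8 : (100 : ℝ) ≤ y ^ 10 := hy.trans (le_self_pow₀ (by linarith) (by norm_num))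
      linarith
    have h5 : 2 * h * (2 * h) + 1 ≤ k := by
      have : ((2 * h * (2 * h) + 1 : ℕ) : ℝ) ≤ k := by
        push_cast
        linarith
      exact_mod_cast this
    have h6 : 2 * h * (2 * h - 1) ≤ 2 * h * (2 * h) := Nat.mul_le_mul_left _ (Nat.sub_le _ _)
    omega
  · have : (3 : ℝ) < p + 1 := by
      have h8 : (100 : ℝ) ≤ y ^ 20 := hy.trans (le_self_pow₀ (by linarith) (by norm_num))
      linarith
    have : (2 : ℝ) < p := by linarith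
    have h9 : 2 < p := by exact_mod_cast this
    omega
  · have h4 : (4 * (p * (2 * h)) : ℝ) < b + 1 := by
      calc (4 * (p * (2 * h)) : ℝ) = 8 * (p * h) := by ring
        _ ≤ 8 * (P * y ^ 20 * (y ^ 5 / 4)) := by gcongr
        _ = P * y ^ 25 * 2 := by ring
        _ ≤ P * y ^ 25 * y ^ 5 := by
          apply mul_le_mul_of_nonneg_left _ (by positivity)
          have : (100 : ℝ) ≤ y ^ 5 := hy.trans (le_self_pow₀ (by linarith) (by norm_num))
          linarith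
        _ = P * y ^ 30 := by ring
        _ < b + 1 := hb2
    have h5 : 4 * (p * (2 * h)) < b + 1 := by exact_mod_cast h4
    omega
  · have h4 : ((q + 2 : ℕ) : ℝ) ≤ ((2 * h : ℕ) : ℝ) := by
      push_cast
      have h5 : y ^ 5 / 4 - 1 ≤ h := by linarith
      have h6 : (100 : ℝ) * y ^ 4 ≤ y ^ 5 := by
        rw [hy5]
        nlinarith
      have h7 : (100 : ℝ) ≤ y ^ 4 := hy.trans (le_self_pow₀ (by linarith) (by norm_num))
      linarith
    exact_mod_cast h4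
  · -- the power
    have h4 : 2 * h * p ≤ v := by exact_mod_cast h2hp
    have h5 : v ≤ 2 ^ Nat.clog 2 v := Nat.le_pow_clog (by norm_num) v
    have h6 : ((Nat.clog 2 v : ℕ) : ℝ) ≤ y + 1 := by
      have h7 : Nat.clog 2 v ≤ Nat.log 2 v + 1 := Nat.clog_le_of_le_pow
        (Nat.lt_pow_succ_log_self (by norm_num) v).le
      have h8 : ((Nat.log 2 v : ℕ) : ℝ) ≤ Real.logb 2 v := by
        have := Real.natLog_le_logb v 2
        exact_mod_cast this
      have h9 : ((Nat.clog 2 v : ℕ) : ℝ) ≤ ((Nat.log 2 v + 1 : ℕ) : ℝ) := by exact_mod_cast h7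
      push_cast at h9
      linarith
    calc (2 * h * p) ^ (4 * h) ≤ (2 ^ Nat.clog 2 v) ^ (4 * h) :=
          Nat.pow_le_pow_left (h4.trans h5) _
      _ = 2 ^ (Nat.clog 2 v * (4 * h)) := by rw [← pow_mul]
      _ ≤ 2 ^ (p - (2 * W + 3 + q)) := by
        apply Nat.pow_le_pow_right (by norm_num)
        have h7 : ((2 * W + 3 + q : ℕ) : ℝ) + ((Nat.clog 2 v * (4 * h) : ℕ) : ℝ) ≤ p := by
          push_cast
          have h8 : ((Nat.clog 2 v : ℕ) : ℝ) * (4 * h) ≤ (y + 1) * (4 * h) :=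
            mul_le_mul_of_nonneg_right h6 (by positivity)
          linarith
        have h9 : (2 * W + 3 + q) + Nat.clog 2 v * (4 * h) ≤ p := by exact_mod_cast h7
        omega
  · have h4 : (0 : ℝ) ≤ 4 * h * (y + 1) := by positivity
    have h5 : ((2 * W + 3 + q : ℕ) : ℝ) ≤ p := by
      push_cast
      linarith
    exact_mod_cast h5
  · rw [e4]
    exact hq1

end LOW2M

/-- A threshold with few random bits is a gap. -/
theorem gap_of_thr {E : Type} {s t W : ℕ} (C : NCirc E s t) (F : (E → Bool) → Prop) (θ : ℕ)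
    (hW : s + t ≤ W) (h : ∀ z, θ < acc C z ↔ F z) :
    Gap C ((θ : ℝ) / 2 ^ (s + t)) (1 / 2 ^ W) F := by
  intro x
  have h2 : (0 : ℝ) < 2 ^ (s + t) := by positivity
  constructor
  · intro hF
    have h3 : θ + 1 ≤ acc C x := (h x).2 hF
    have h4 : ((θ : ℝ) + 1) ≤ acc C x := by exact_mod_cast h3
    refine le_trans ?_ h4
    rw [add_mul, div_mul_cancel₀ _ h2.ne']
    have h5 : (1 : ℝ) / 2 ^ W * 2 ^ (s + t) ≤ 1 := by
      rw [one_div_mul_eq_div, div_le_one (by positivity)]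
      exact pow_le_pow_right₀ (by norm_num) hW
    linarith
  · intro hF
    rw [div_mul_cancel₀ _ h2.ne']
    have h3 : acc C x ≤ θ := by
      by_contra hcon
      exact hF ((h x).1 (not_le.1 hcon))
    exact_mod_cast h3

/-- **The lower bound.** -/
theorem lower (ε : ℝ) (hε : 0 < ε) (hε1 : ε ≤ 1) : ∃ v₀ : ℕ, ∀ v ≥ v₀, ∀ (k m W s t : ℕ)
    (C : NCirc (Fin m × Edge v) s t), k = ⌊(v : ℝ) ^ (ε / 4)⌋₊ → (W : ℝ) ≤ (v : ℝ) ^ (1 - ε) →
    C.NotsFree → 2 ^ (s + C.nots) * (W + 2) ≤ m →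
    ((∃ θ : ℕ, s + t ≤ W ∧ ∀ z, θ < acc C z ↔ AllClq m v k z) ∨
      ∃ θ : ℝ, Gap C θ (1 / 2 ^ W) (AllClq m v k)) →
    (2 : ℝ) ^ ((v : ℝ) ^ (ε / 10)) ≤ C.gates.length := by
  obtain ⟨v₀, hv₀⟩ := LOW2M.params ε hε hε1
  refine ⟨v₀, fun v hv k m W s t C hk hW hN hm hC => ?_⟩
  obtain ⟨h, p, b, q, a1, a2, a3, a4, a5, a6, a7, a8, a9, a10⟩ := hv₀ v hv k W hk hW
  have hgap : ∃ θ : ℝ, Gap C θ (1 / 2 ^ W) (AllClq m v k) := by
    rcases hC with ⟨θ, h1, h2⟩ | h1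
    · exact ⟨_, gap_of_thr C _ θ h1 h2⟩
    · exact h1
  obtain ⟨θ, hθ⟩ := hgap
  have h1 := LOW2M.low C hN hm a1 a2 a3 a4 a5 a6 a7 a8 a9 θ hθ
  calc (2 : ℝ) ^ ((v : ℝ) ^ (ε / 10)) ≤ (2 : ℝ) ^ (q : ℝ) :=
        Real.rpow_le_rpow_of_exponent_le (by norm_num) a10
    _ = 2 ^ q := Real.rpow_natCast 2 q
    _ ≤ C.gates.length := by exact_mod_cast h1

end Pool.Agent.NPP
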