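import Pool.Agent.NPP.Defs

/-!
# Acceptance with a gap
-/

set_option autoImplicit false

namespace Pool.Agent.NPP

open Pool.Agent.NegLim

variable {E : Type} {s t : ℕ}

/-- The circuit accepts `F` with the gap `γ`: for random witnesses the output is `true` with
probability at least `θ + γ` on the inputs with `F`, and at most `θ` on the other inputs. -/
def Gap (C : NCirc E s t) (θ γ : ℝ) (F : (E → Bool) → Prop) : Prop :=
  ∀ x, (F x → (θ + γ) * 2 ^ (s + t) ≤ acc C x) ∧ (¬ F x → (acc C x : ℝ) ≤ θ * 2 ^ (s + t))

end Pool.Agent.NPP
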