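import Pool.Agent.NPP.Defs

/-!
# The statements of the modules of the project NPP

PP is properly inside PSPACE for circuits with few negations. Every `Stmt_X` is proved in the file
`Pool/Agent/NPP/X.lean` as `theorem X_thm : Stmt_X` (parts that use other parts get them as
hypotheses first).
-/

set_option autoImplicit false

namespace Pool.Agent.NPP

open Finset Pool.Agent.NegLim Pool.Agent.NLM Pool.Agent.NEG72

open Classical in
/-- TRF, the transfer theorem for the PP mode (any threshold). Copy the proof of
`Pool.Agent.NegLim.transfer_and` (`NegLim/Transfer.lean`): the same `Adm`, `greedy`, `Phi`, `hle`,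
`hout`, `hφi`, `hφj`, `hgoodR`, `hgood`. For `i ∉ A` take
`D p y = (chkA (guess C R p.1) C.gates (upd R (B i) y) p.1 p.2) && C.out.val .. (gvals ..)`, which
has a monotone program of size `C.gates.length + 1` by `prog` (see `h5` there). If `φ i y = true`
then `D p y = outp C (upd R (B i) y) p.1 p.2` for all `p` (`chkA_of_good`, `Good.gvals`), so the
two numbers are equal and the claim is `hC`. If `φ i y = false` then `D p y = true` implies
`outp C .. = true` (`keyA`), so the number for `D` is at most `acc C (upd ..) ≤ θ`. -/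
def Stmt_TRF : Prop :=
  ∀ (E ι : Type) (s t : ℕ) (B : ι → Set E), (∀ i j, i ≠ j → Disjoint (B i) (B j)) →
    ∀ (c : E → Bool) (φ : ι → (E → Bool) → Bool),
      (∀ i x x', (∀ e ∈ B i, x e = x' e) → φ i x = φ i x') →
      (∀ i, φ i (fun _ => true) = true) → ∀ (C : NCirc E s t), C.NotsFree → ∀ θ : ℕ,
      (∀ x, (∀ e, (∀ i, e ∉ B i) → x e = c e) → (θ < acc C x ↔ ∀ i, φ i x = true)) →
      ∃ A : Finset ι, A.card ≤ 2 ^ s * (2 ^ C.nots - 1) ∧ ∀ i, i ∉ A →
        ∃ D : (Fin s → Bool) × (Fin t → Bool) → (E → Bool) → Bool,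
          (∀ p, MonSize (D p) (C.gates.length + 1)) ∧
          ∀ y, φ i y = true ↔ θ < (univ.filter fun p => D p y = true).card

open Classical in
/-- BLK, from a circuit with NOT gates for `m` graphs to one without NOT gates for `m'` graphs.
Apply TRF with `ι = Fin (2 ^ (s + C.nots))`, where the block `B g` consists of the variables of the
`m'` graphs with the numbers `g * m' + j`, `j < m'` (use `Fin.castLE` and `finProdFinEquiv` as in
`Pool.Agent.NNDT.core`, file `NNDT/Core.lean`), `c = fun _ => true`, `φ g z` = all `m'` graphs of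
the block have a `k`-clique. The graph without zeros has a `k`-clique (`k ≤ v`), so the graphs
outside the blocks play no role. Since `2 ^ s * (2 ^ r - 1) < 2 ^ (s + r)` some block is not in
`A`. Its function `D p`, with the substitution that puts `z (j, e)` at the variable
`(g * m' + j, e)` and `true` elsewhere (`MonSize.comp`, `IsProj`), is the wanted family. -/
def Stmt_BLK : Prop :=
  ∀ (m v k s t m' θ : ℕ) (C : NCirc (Fin m × Edge v) s t), k ≤ v → C.NotsFree →
    2 ^ (s + C.nots) * m' ≤ m → (∀ z, θ < acc C z ↔ AllClq m v k z) →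
    ∃ D : (Fin s → Bool) × (Fin t → Bool) → (Fin m' × Edge v → Bool) → Bool,
      (∀ p, MonSize (D p) (C.gates.length + 1)) ∧
      ∀ z, AllClq m' v k z ↔ θ < (univ.filter fun p => D p z = true).card

open Classical in
/-- PLK, plucking with a bound for the number of the sets of every size. Compare
`Pool.Agent.NEG72.exists_pluck` (`NEG72/Pluck.lean`), whose proof by induction on `N` can be copied:
if some `a` has more than `(p * l) ^ a` sets of size `a` in `A` then `a ≤ l`, and `sunflower`
(`NEG72/Sun.lean`, with `a` in place of `l`; `(p * a) ^ a ≤ (p * l) ^ a`) gives a sunflower of `p`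
sets of size `a`, which is replaced by its core; `card_sun` bounds the number of the new
colourings. -/
def Stmt_PLK : Prop :=
  ∀ (V : Type) [Fintype V] [DecidableEq V] (c l p : ℕ), l * (l - 1) ≤ c → 2 ≤ p →
    ∀ (N : ℕ) (A : Finset (Finset V)), A.card ≤ N → (∀ X ∈ A, X.card ≤ l) →
    ∃ B : Finset (Finset V), (∀ X ∈ B, X.card ≤ l) ∧
      (∀ a, (B.filter fun X => X.card = a).card ≤ (p * l) ^ a) ∧
      (∀ K, AccP A K → AccP B K) ∧
      ((univ : Finset (V → Fin c)).filter fun χ => AccN B χ ∧ ¬ AccN A χ).card * 2 ^ p ≤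
        N * c ^ Fintype.card V

open Classical in
/-- APP, the approximation of monotone programs. Compare `Pool.Agent.NEG72.mon_appr`
(`NEG72/MonAppr.lean`); the induction on the program is the same, with `PLK` in place of
`exists_pluck`; the invariant for the family `A` of an available function is: sets of size at most
`l = 2 * h`, at most `(p * l) ^ a` sets of size `a` for every `a`, and the two implications outside
`BP` and `BN`. All families have at most `∑_{a ≤ l} (p l) ^ a ≤ 2 (p l) ^ l` sets, so a join or a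
union has at most `4 (p l) ^ (2 l)` sets before plucking, which gives the bound for `BN`. For
`BP`: if `X ∪ Y ⊆ K π` with `X ∈ A`, `Y ∈ B` has more than `2 h` elements, then `X` or `Y` has more
than `h` elements; the number of `π` with `X ⊆ K π` for some `X ∈ A` with more than `h` elements is
at most `∑_{h < a ≤ 2h} (p l) ^ a |P| / b ^ a ≤ |P| ∑_{a > h} 4 ^ (- a) = |P| 4 ^ (- h) / 3`, the
same for `B`, together at most `|P| / 2 ^ l`. -/
def Stmt_APP : Prop :=
  ∀ (V E P : Type) [Fintype V] [DecidableEq V] [Fintype P] [DecidableEq P] (c h p b : ℕ)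
    (pos : P → E → Bool) (K : P → Finset V) (neg : (V → Fin c) → E → Bool),
    1 ≤ h → 2 * h * (2 * h - 1) ≤ c → 2 ≤ p → 4 * (p * (2 * h)) ≤ b →
    (∀ e : E, ∃ A : Finset (Finset V), (∀ X ∈ A, X.card ≤ 2 * h) ∧ A.card ≤ 1 ∧
      (∀ π, pos π e = true → AccP A (K π)) ∧ ∀ χ, AccN A χ → neg χ e = true) →
    (∀ Y : Finset V, ((univ : Finset P).filter fun π => Y ⊆ K π).card * b ^ Y.card ≤
      Fintype.card P) →
    ∀ (f : (E → Bool) → Bool) (T : ℕ), MonSize f T →
    ∃ (A : Finset (Finset V)) (BP : Finset P) (BN : Finset (V → Fin c)),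
      (∀ X ∈ A, X.card ≤ 2 * h) ∧
      (∀ a, (A.filter fun X => X.card = a).card ≤ (p * (2 * h)) ^ a) ∧
      BP.card * 2 ^ (2 * h) ≤ T * Fintype.card P ∧
      BN.card * 2 ^ p ≤ T * (4 * (p * (2 * h)) ^ (4 * h)) * c ^ Fintype.card V ∧
      (∀ π, π ∉ BP → f (pos π) = true → AccP A (K π)) ∧
      ∀ χ, χ ∉ BN → AccN A χ → f (neg χ) = true

open Classical in
/-- ONE, the inequality for one graph: a small monotone program does not accept the positive tests
with a much larger probability than the negative tests. PROOF. Let `S` be the number of positive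
tests with `f = 1`. If `f` is `0` at the graph without zeros then `f = 0` (`MonSize.monotone`) and
`S = 0`. Otherwise all negative tests with the coin `true` have `f = 1`; it is enough to bound
`S / b ^ k`. Apply APP with `V = Fin v`, `P = Fin k → Fin b`, `K = kset hv`, `pos = posG hv`,
`neg = negIn`, `c = k - 1` (the family of the variable `e` is `{{e.1.1, e.1.2}}`, see `mono_clq_raw`
in `NEG72/MonClq.lean`; a set with two elements in the same part is in no `kset`, otherwise exactly
`b ^ (k - |Y|)` of the `b ^ k` maps are good; for `Y` not contained in the parts none). Case (i): `A`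
contains a set `X` with at most one element. Then `AccN A χ` for all `χ`, so `f (negIn χ) = 1` for
`χ ∉ BN`, and the number of negative tests with `f = 1` is at least `2 (k-1)^v - |BN|`; the error
term is `2 T (2 h p)^(4 h) / 2 ^ p ≥ |BN| / (2 (k-1)^v)`, so the right-hand side is at least `1`.
Case (ii): otherwise `S ≤ |BP| + #{τ : some X ∈ A, |X| ≥ 2, X ⊆ kset τ} ≤ T b ^ k / 2 ^ (2 h) +
b ^ k ∑_{a ≥ 2} (p 2 h / b) ^ a ≤ b ^ k / 4 + b ^ k / 12 ≤ b ^ k / 2`, and the negative tests with
the coin `true` are one half. -/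
def Stmt_ONE : Prop :=
  ∀ (v k b h p T : ℕ) (hv : k * b ≤ v) (f : (Edge v → Bool) → Bool), 1 ≤ h →
    2 * h * (2 * h - 1) ≤ k - 1 → 2 ≤ p → 4 * (p * (2 * h)) ≤ b → 4 * T ≤ 2 ^ (2 * h) →
    MonSize f T →
    ((univ.filter fun τ : Fin k → Fin b => f (posG hv τ) = true).card : ℝ) / (b : ℝ) ^ k ≤
      ((univ.filter fun a : Bool × (Fin v → Fin (k - 1)) => f (negG a) = true).card : ℝ) /
        (2 * ((k - 1 : ℕ) : ℝ) ^ v) +
      2 * T * ((2 * h * p : ℕ) : ℝ) ^ (4 * h) / 2 ^ p

open Classical in
/-- HYB, the hybrid argument. Induction on `n` (for all `D`): write `z = Fin.cons y z'`. For fixed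
`a` the function `D (Fin.cons (pos a) ·)` satisfies the hypothesis, hence
`E_{a, a'} D (cons (pos a) (pos ∘ a')) ≤ E_{a, b'} D (cons (pos a) (neg ∘ b')) + n δ`, and the
hypothesis for the coordinate `0` gives `≤ E_{b, b'} D (cons (neg b) (neg ∘ b')) + (n + 1) δ`. -/
def Stmt_HYB : Prop :=
  ∀ (Y P Q : Type) [Fintype P] [Fintype Q] [Nonempty P] [Nonempty Q] (pos : P → Y) (neg : Q → Y)
    (δ : ℝ) (n : ℕ) (D : (Fin n → Y) → Bool),
    (∀ (i : Fin n) (z : Fin n → Y),
      ((univ.filter fun a : P => D (Function.update z i (pos a)) = true).card : ℝ) /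
        Fintype.card P ≤
      ((univ.filter fun b : Q => D (Function.update z i (neg b)) = true).card : ℝ) /
        Fintype.card Q + δ) →
    ((univ.filter fun a : Fin n → P => D (fun i => pos (a i)) = true).card : ℝ) /
        (Fintype.card P : ℝ) ^ n ≤
      ((univ.filter fun b : Fin n → Q => D (fun i => neg (b i)) = true).card : ℝ) /
        (Fintype.card Q : ℝ) ^ n + n * δ

open Classical in
/-- CMP, the contradiction for families without NOT gates. `D p` reads `n` graphs, as a function on
`Fin n → (Edge v → Bool)`; fixing all graphs but one is a substitution (`MonSize.comp`,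
`IsProj`), so ONE and HYB give for every `p`: `P_p ≤ N_p + n δ` with
`δ = 2 T (2 h p')^(4 h) / 2 ^ p'`, where `P_p`, `N_p` are the probabilities of `D p = 1` for
independent positive tests and for independent negative tests. All `n` positive graphs have a
`k`-clique, so `∑_p P_p ≥ θ + 1` (average over the tests of the number of `p` with `D p = 1`). A
complete multipartite graph with `k - 1` classes has no `k`-clique
(`Pool.Agent.NEG72.not_hasClique_negIn`, `clq_iff`), so `AllClq` is true for the negative tests
only if all coins are `true`, with probability `1 / 2 ^ n`, hence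
`∑_p N_p ≤ θ + 2 ^ (s + t) / 2 ^ n`. Together `1 ≤ 2 ^ (s + t) (1 / 2 ^ n + n δ)`. -/
def Stmt_CMP : Prop :=
  ∀ (n v k b h p T s t θ : ℕ) (_ : k * b ≤ v)
    (D : (Fin s → Bool) × (Fin t → Bool) → (Fin n × Edge v → Bool) → Bool), 1 ≤ h →
    2 * h * (2 * h - 1) ≤ k - 1 → 2 ≤ p → 4 * (p * (2 * h)) ≤ b → 4 * T ≤ 2 ^ (2 * h) →
    (∀ q, MonSize (D q) T) →
    (∀ z, AllClq n v k z ↔ θ < (univ.filter fun q => D q z = true).card) →
    (1 : ℝ) ≤ 2 ^ (s + t) *
      (1 / 2 ^ n + n * (2 * T * ((2 * h * p : ℕ) : ℝ) ^ (4 * h) / 2 ^ p))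

/-- LOW, the lower bound with explicit parameters, from BLK and CMP. Put `h = q`,
`b' = 8 q ^ (3 c + 3)`, `p = q ^ (3 c + 2)`, `n = m' = q ^ (3 c) + 2`, `T = G + 1`. Then
`k b' = (4 q² + 1) 8 q ^ (3 c + 3) ≤ q ^ (3 c + 6) = v` and `m' ≤ v`. If `G < 2 ^ q` then
`4 T ≤ 2 ^ (2 q)`, and `2 ^ (s + t) / 2 ^ n ≤ 1 / 4`, and the other term is less than `1 / 4`
since `s + t + log n + 1 + q + 4 q log2 (2 q p) < p - 2` for large `q`. -/
def Stmt_LOW : Prop :=
  ∀ c d : ℕ, 1 ≤ c → 1 ≤ d → ∃ q₀ : ℕ, ∀ q ≥ q₀, ∀ v m k : ℕ, v = q ^ (3 * c + 6) →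
    m = v ^ (3 * d) → k = 4 * q ^ 2 + 1 → ∀ (s t θ : ℕ) (C : NCirc (Fin m × Edge v) s t),
    C.NotsFree → (∀ z, θ < acc C z ↔ AllClq m v k z) → s + t ≤ (q ^ 3) ^ c →
    2 ^ (s + C.nots) * v ≤ m → 2 ^ q ≤ C.gates.length

open Pool.Agent.NNDT in
/-- UPP, the upper bound in the PSPACE mode. The first `Nat.clog 2 m` bits are the number `i` of a
graph (for all bits; if the number is at least `m` accept), the other `k * Nat.clog 2 v` bits are
`k` vertices `a 0, …, a (k-1)` (there are bits). The circuit computes from the literals of the bits: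
`I i` = the first bits are the number `i` (for `i < m`), `A j a` = the vertex number `j` is `a` (for
`j < k`, `a < v`), `S a` = some `A j a`; `dist` = for all `j < j'` and all `a` not both `A j a` and
`A j' a`, and every `j` has some `a` with `A j a`; the output is: (no `I i`) or (`dist` and for
all `i < m` and all edges `e`: not `I i` or not `S e.1.1` or not `S e.1.2` or `z (i, e)`). All
negations are of functions of the bits, which are built from literals by AND and OR (push the
negations to the literals). There are fewer than `30 (m v k)^2 ..` gates; only `Lit`, `nots = 0`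
and the given bound are needed, so be generous. -/
def Stmt_UPP : Prop :=
  ∀ m v k : ℕ, 1 ≤ m → 1 ≤ k → k ≤ v → 2 ≤ v →
    ∃ C : NCirc (Fin m × Edge v) 0 (Nat.clog 2 m + k * Nat.clog 2 v), Lit C ∧ C.nots = 0 ∧
      C.gates.length ≤ 40 * (m * v ^ 2 * k ^ 2 * (Nat.clog 2 m + 1)) ∧
      ∀ z, Pspace C (List.replicate (Nat.clog 2 m) false ++
        List.replicate (k * Nat.clog 2 v) true) (fun i => i.elim0) z ↔ AllClq m v k z

/-- INC, the PP mode is a PSPACE mode. With `W = s + t`: in the game `game_count`
(`Lib_helper45/PPQ2/Alt.lean`, quantifiers `qq W`, leaves `dec W (2 ^ W / 2 + 1) 0`) the bits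
chosen by the universal player are the witness `(u, w)`, first `u`, then `w`; the leaf is a
constant or the question whether the output for `(u, w)` is `true`. The new circuit has the gates
of `C` in which `w` is replaced by the last `t` universal bits (these are functions of the new
bits, which are free wires), `u` is kept and is read at the positions of the first `s` universal
bits, and two more gates: output `= (leaf is a question) AND (old output), OR (leaf is the constant
true)`. NOT gates: the same, they do not depend on the new `w`. -/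
def Stmt_INC : Prop :=
  ∀ (E : Type) (s t : ℕ) (C : NCirc E s t), C.NotsFree →
    ∃ (C' : NCirc E s ((s + t) * (s + t + 3) / 2)) (qs : List Bool) (ρ : Fin s → ℕ),
      C'.NotsFree ∧ C'.nots = C.nots ∧ C'.gates.length = C.gates.length + 2 ∧
      qs.length = (s + t) * (s + t + 3) / 2 ∧ ∀ x, Pspace C' qs ρ x ↔ Maj C x

/-- THR, with `r ≥ 1 + log2 (N + 1)` NOT gates the restriction on the NOT gates is void, in every
mode: the new circuit has the same outputs. Copy the proof of `Pool.Agent.NegLim.upper`
(`NegLim/Up3.lean`) with `s = 0`: the check `Lc, Uc` is always positive since `wnum u = 0` and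
`countP / 2 ^ q = 0` (`q = r - 1`, `countP ≤ N < 2 ^ q`), so the output is `Pa` and this is the
output of `D`; use `conv` and `conv_wire` instead of `conv_circ`. -/
def Stmt_THR : Prop :=
  ∀ (E : Type) [Fintype E] (t r : ℕ), 1 ≤ r → Fintype.card E + 1 ≤ 2 ^ (r - 1) →
    ∀ D : NCirc E 0 t, ∃ C : NCirc E 0 t, C.nots = r ∧ C.NotsFree ∧
      C.gates.length ≤ 2 * D.gates.length + 12 * (Fintype.card E + r) ^ 3 ∧
      ∀ x u w, outp C x u w = outp D x u w

end Pool.Agent.NPP
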