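import Pool.Agent.NPP.Stmts
import Pool.Agent.NegLim.Up3

/-!
# THR: many NOT gates, every mode

The proof follows `Pool.Agent.NegLim.upper`.
-/

set_option autoImplicit false

namespace Pool.Agent.NPP

open Finset Pool.Agent.NegLim Pool.Agent.NLM Pool.Agent.NEG72

theorem THR_thm : Stmt_THR := by
  intro E _ t r hr hN D
  classical
  obtain ⟨q, rfl⟩ : ∃ q, r = q + 1 := ⟨r - 1, by omega⟩
  set N := Fintype.card E with hNdef
  have hN' : N < 2 ^ q := by
    have : q + 1 - 1 = q := by omega
    rw [this] at hN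
    omega
  set l : List E := (univ : Finset E).toList with hl
  have hlen : l.length = N := by rw [hl, Finset.length_toList, Finset.card_univ]
  have hmem : ∀ e, e ∈ l := fun e => by simp [hl]
  have hW : ∀ x : E → Bool, l.countP (fun e => x e) ≤ N := by
    intro x
    rw [← hlen]
    exact List.countP_le_length
  have hWe : ∀ (x : E → Bool) (e : E), l.countP (fun e => x e) =
      (l.erase e).countP (fun e => x e) + (x e).toNat := by
    intro x e
    rw [(List.perm_cons_erase (hmem e)).countP_eq, List.countP_cons]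
    cases x e <;> simp
  set S : Set (Fn E 0 t) := {f | ∃ a, f = thr l a} ∪
    {f | ∃ e ∈ l, f ∈ {f : Fn E 0 t | ∃ a, f = thr (l.erase e) a}} with hS
  have h0 : Makes (∅ : Set (Fn E 0 t)) (2 * N * (N + 1) ^ 2) S := by
    have h1 := makes_thr_all (∅ : Set (Fn E 0 t)) l
    have h2 := Makes.list (S := (∅ : Set (Fn E 0 t))) (K := N * (2 * (N + 1)))
      (T := fun e => {f : Fn E 0 t | ∃ a, f = thr (l.erase e) a}) l (by
        intro e _
        have h3 : (l.erase e).length ≤ N := by
          rw [← hlen]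
          exact List.length_erase_le
        exact (makes_thr_all (∅ : Set (Fn E 0 t)) (l.erase e)).le
          (Nat.mul_le_mul h3 (Nat.mul_le_mul_left 2 (by omega))))
    refine (h1.union h2).le ?_
    rw [hlen]
    exact le_of_eq (by ring)
  obtain ⟨L, p1, p2, p3, p4⟩ := prg_ind q l N (S := S) (fun a => Or.inl ⟨a, rfl⟩) h0 q
  set T : Set (Fn E 0 t) := S ∪ {f | ∃ c ≤ N, f = ind q l N q c} with hT
  have hLT : ∀ f ∈ T, Av L f := by
    rintro f (hf | ⟨c, hc, rfl⟩)
    · exact p3 f hf
    · exact p4 c hc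
  set Lc : Fn E 0 t := fun x u w => (List.range (N + 1)).any fun c =>
    decide (wnum u = c) && thr l (c * 2 ^ q) x u w with hLc
  set Uc : Fn E 0 t := fun x u w => (List.range (N + 1)).any fun c =>
    decide (wnum u = c) && thr l ((c + 1) * 2 ^ q) x u w with hUc
  set neg : E → Fn E 0 t := fun e x u w => (List.range (N + 1)).any fun c =>
    ind q l N q c x u w && thr (l.erase e) c x u w with hneg
  have mthr : ∀ (R : Set (Fn E 0 t)) a, Makes (T ∪ R) 0 {(thr l a : Fn E 0 t)} := by
    intro R a
    apply Makes.of_mem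
    intro f hf
    rw [Set.mem_singleton_iff.1 hf]
    exact Or.inl (Or.inl (Or.inl ⟨a, rfl⟩))
  have mwit : ∀ (R : Set (Fn E 0 t)) (c : ℕ), Makes (T ∪ R) 0
      {(fun _ u _ => decide (wnum u = c) : Fn E 0 t)} := fun R c =>
    Makes.wit _ fun u _ => decide (wnum u = c)
  have mLc : ∀ R : Set (Fn E 0 t), Makes (T ∪ R) ((N + 1) * 2) {Lc} := by
    intro R
    have := Makes.any (S := T ∪ R) (K := 1) (F := fun c x u w => decide (wnum u = c) &&
      thr l (c * 2 ^ q) x u w) (List.range (N + 1)) (fun c _ => (mwit R c).and (mthr R _))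
    rw [List.length_range] at this
    exact this
  have mUc : Makes (T ∪ ∅) ((N + 1) * 2) {Uc} := by
    have := Makes.any (S := T ∪ ∅) (K := 1) (F := fun c x u w => decide (wnum u = c) &&
      thr l ((c + 1) * 2 ^ q) x u w) (List.range (N + 1)) (fun c _ => (mwit ∅ c).and (mthr ∅ _))
    rw [List.length_range] at this
    exact this
  have mneg : ∀ (R : Set (Fn E 0 t)) e, Makes (T ∪ R) ((N + 1) * 2) {neg e} := by
    intro R e
    have := Makes.any (S := T ∪ R) (K := 1) (F := fun c x u w => ind q l N q c x u w &&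
      thr (l.erase e) c x u w) (List.range (N + 1)) (by
        intro c hc
        have hc' := List.mem_range.1 hc
        refine Makes.and (K := 0) (K' := 0) ?_ ?_
        · apply Makes.of_mem
          intro f hf
          rw [Set.mem_singleton_iff.1 hf]
          exact Or.inl (Or.inr ⟨c, by omega, rfl⟩)
        · apply Makes.of_mem
          intro f hf
          rw [Set.mem_singleton_iff.1 hf]
          exact Or.inl (Or.inl (Or.inr ⟨e, hmem e, c, rfl⟩)))
    rw [List.length_range] at this
    exact this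
  -- the check with the last NOT gate
  obtain ⟨M, m1, m2, m3⟩ := mUc L (by
    rintro f (hf | hf)
    · exact hLT f hf
    · exact absurd hf (Set.notMem_empty f))
  have hUL : Av (M ++ L) Uc := m3 _ rfl
  have hUfree : ∀ (x : E → Bool) (u : Fin 0 → Bool) (w w' : Fin t → Bool),
      Uc x u w = Uc x u w' := by
    intro x u w w'
    rw [hUc]
    simp only [thr_eq]
  have hL2 := Prg.not (m2 q p1) hUL hUfree
  set nU : Fn E 0 t := fun x u w => !(Uc x u w) with hnU
  set L2 := nU :: (M ++ L) with hL2'
  have hL2T : ∀ f ∈ T ∪ {nU}, Av L2 f := by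
    rintro f (hf | hf)
    · exact ((hLT f hf).right M).mono fun _ h => List.mem_cons_of_mem _ h
    · rw [Set.mem_singleton_iff.1 hf]
      exact Av.head _ _
  -- correctness of the check
  have hok : ∀ x u w, Lc x u w = true ∧ Uc x u w = false →
      l.countP (fun e => x e) / 2 ^ q = wnum u := by
    rintro x u w ⟨h1, h2⟩
    rw [hLc] at h1
    simp only [List.any_eq_true, Bool.and_eq_true, decide_eq_true_eq, thr_eq] at h1
    obtain ⟨c, hc, h3, h4⟩ := h1
    have h5 : ¬ (c + 1) * 2 ^ q ≤ l.countP (fun e => x e) := by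
      intro h5
      have h6 : Uc x u w = true := by
        rw [hUc]
        simp only [List.any_eq_true, Bool.and_eq_true, decide_eq_true_eq, thr_eq]
        exact ⟨c, hc, h3, h5⟩
      rw [h6] at h2
      cases h2
    rw [h3]
    rw [← Nat.le_div_iff_mul_le (by positivity)] at h4 h5
    omega
  have hnegok : ∀ x u w, (Lc x u w = true ∧ Uc x u w = false) →
      ∀ e, neg e x u w = !(x e) := by
    intro x u w h e
    have h1 := ind_eq q l N (w := w) (hW x) (hok x u w h) q le_rfl
    have h2 := hWe x e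
    have h3 := hW x
    rw [hneg]
    simp only [h1, thr_eq, Nat.sub_self, pow_zero, Nat.div_one]
    rw [Bool.eq_iff_iff, List.any_eq_true]
    simp only [Bool.and_eq_true, decide_eq_true_eq, Bool.not_eq_true']
    constructor
    · rintro ⟨c, _, h4, h5⟩
      cases hx : x e with
      | false => rfl
      | true =>
        rw [hx] at h2
        simp only [Bool.toNat_true] at h2
        omega
    · intro hx
      rw [hx] at h2
      simp only [Bool.toNat_false, add_zero] at h2
      exact ⟨_, List.mem_range.2 (by omega), rfl, by omega⟩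
  -- simulation
  set NS : Set (Fn E 0 t) := {f | ∃ e ∈ l, f ∈ ({neg e} : Set (Fn E 0 t))} with hNS
  have mNS : Makes (T ∪ {nU}) (N * ((N + 1) * 2)) NS := by
    have := Makes.list (S := T ∪ {nU}) (K := (N + 1) * 2)
      (T := fun e => ({neg e} : Set (Fn E 0 t))) l (fun e _ => mneg {nU} e)
    rw [hlen] at this
    exact this
  obtain ⟨P, Q, r1, r2⟩ := rail (T ∪ {nU} ∪ NS) neg
    (fun e => Or.inr ⟨e, hmem e, rfl⟩) (fun x u w => Lc x u w = true ∧ Uc x u w = false) hnegok
    D.gates
  obtain ⟨Pa, Qa, a1, -, a3⟩ := r2 D.out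
  set PQ : Set (Fn E 0 t) := {f | ∃ n, f = P n ∨ f = Q n} with hPQ
  have b1 : Makes (T ∪ {nU}) (N * ((N + 1) * 2) + 2 * D.gates.length) (NS ∪ PQ) :=
    mNS.trans r1
  have b2 : Makes (T ∪ {nU} ∪ (NS ∪ PQ)) (0 + ((N + 1) * 2 + 0 + 1) + 1)
      {fun x u w => Pa x u w && (Lc x u w && nU x u w)} := by
    refine Makes.and (K := 0) (K' := (N + 1) * 2 + 0 + 1) ?_
      (Makes.and (K := (N + 1) * 2) (K' := 0) ?_ ?_)
    · exact a1.base (by rw [Set.union_assoc])
    · exact (mLc {nU}).base Set.subset_union_left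
    · apply Makes.of_mem
      intro f hf
      rw [Set.mem_singleton_iff.1 hf]
      exact Or.inl (Or.inr rfl)
  obtain ⟨M', n1, n2, n3⟩ := (b1.trans b2) L2 hL2T
  have hres : Av (M' ++ L2) (fun x u w => Pa x u w && (Lc x u w && nU x u w)) := n3 _ (Or.inr rfl)
  have hall : ∀ x u w, Lc x u w = true ∧ Uc x u w = false := by
    intro x u w
    have hWN := hW x
    have h0 : wnum u = 0 := by
      have h1 : wnum u < 2 ^ 0 := Fin.is_lt _
      simpa using h1
    constructor
    · rw [hLc]
      simp only [List.any_eq_true, Bool.and_eq_true, decide_eq_true_eq, thr_eq]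
      exact ⟨0, List.mem_range.2 (by omega), h0, by simp⟩
    · rw [← Bool.not_eq_true, hUc]
      simp only [List.any_eq_true, Bool.and_eq_true, decide_eq_true_eq, thr_eq, h0]
      rintro ⟨c, _, h3, h4⟩
      rw [← h3] at h4
      omega
  obtain ⟨C, c1, c2, c3, c4⟩ := conv (n2 _ hL2)
  obtain ⟨a, ha⟩ := conv_wire hres
  refine ⟨⟨C, a⟩, c2, c4, ?_, fun x u w => ?_⟩
  · show C.length ≤ _
    rw [c1, List.length_append, hL2', List.length_cons, List.length_append]
    have e1 : M'.length + (M.length + L.length + 1) ≤ 2 * D.gates.length +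
        (N * ((N + 1) * 2) + (0 + ((N + 1) * 2 + 0 + 1) + 1) + (N + 1) * 2 +
          (2 * N * (N + 1) ^ 2 + q * (4 * (N + 1))) + 1) := by omega
    refine e1.trans (Nat.add_le_add_left ?_ _)
    have e2 : 1 ≤ N + (q + 1) := by omega
    nlinarith [Nat.zero_le (N * q), Nat.zero_le (N ^ 2 * q), Nat.zero_le (N * q ^ 2),
      Nat.zero_le (q ^ 3), Nat.zero_le (q ^ 2), Nat.zero_le (N ^ 2), Nat.zero_le (N ^ 3)]
  · have hu : u = Fin.elim0 := funext fun i => i.elim0
    obtain ⟨h1, h2⟩ := hall x u w
    show a.val x u w (vals C x u w) = D.out.val x u w (vals D.gates x u w)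
    rw [c3, ha, (a3 x u w ⟨h1, h2⟩).1, hnU]
    simp only [h1, h2, Bool.not_false, Bool.and_true]
    rw [hu]

end Pool.Agent.NPP
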