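import Pool.Agent.NPP.Stmts
import Pool.Agent.NegLim.Transfer

/-!
# TRF: the transfer theorem for the PP mode

The proof follows `Pool.Agent.NegLim.transfer_and`.
-/

set_option autoImplicit false

namespace Pool.Agent.NPP

open Finset Pool.Agent.NegLim Pool.Agent.NLM Pool.Agent.NEG72

namespace TRFM

variable {E : Type} {s t : ℕ}

/-- The circuit with guessed outputs of the NOT gates, and the check. -/
noncomputable def DD (C : NCirc E s t) (R : E → Bool) (B : Set E)
    (p : (Fin s → Bool) × (Fin t → Bool)) (y : E → Bool) : Bool :=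
  chkA (guess C R p.1) C.gates (upd R B y) p.1 p.2 &&
    C.out.val (upd R B y) p.1 p.2 (gvals (guess C R p.1) C.gates (upd R B y) p.1 p.2)

theorem monSize_DD (C : NCirc E s t) (R : E → Bool) (B : Set E)
    (p : (Fin s → Bool) × (Fin t → Bool)) : MonSize (DD C R B p) (C.gates.length + 1) := by
  obtain ⟨u, w⟩ := p
  obtain ⟨L, h1, h2, h3, h4⟩ := prog (isProj_upd R B) (guess C R u) C.gates u w false
  have h6 : Avail L fun y => C.out.val (upd R B y) u w
      (gvals (guess C R u) C.gates (upd R B y) u w) := by
    cases C.out with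
    | inp e => exact (isProj_upd R B e).mono (by simp)
    | wit φ => exact Avail.const _ _
    | gate n => exact h3 n
  exact ⟨_, Mon.and h1 h4 h6, by simpa using h2, Avail.head _ _⟩

end TRFM

open TRFM in
theorem TRF_thm : Stmt_TRF := by
  classical
  intro E ι s t B hB c φ hloc htop C hN θ hC
  set Adm : (E → Bool) → Finset ι → Prop := fun R A =>
    (∀ e, (∀ i, e ∉ B i) → R e = c e) ∧ (∀ i, i ∉ A → ∀ e ∈ B i, R e = true) ∧
      ∀ i, φ i R = true with hAdm
  have hmem : ∀ {i j e}, e ∈ B i → e ∈ B j → i = j := by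
    intro i j e h1 h2
    by_contra h
    exact Set.disjoint_left.1 (hB i j h) h1 h2
  obtain ⟨R, A, ⟨hR1, hR2, hR3⟩, hA, hmax⟩ := greedy (2 ^ s * (2 ^ C.nots - 1)) (Phi C)
    (Phi_le C) Adm (fun e => if ∃ i, e ∈ B i then true else c e) (by
      refine ⟨fun e he => if_neg ?_, fun i _ e he => if_pos ⟨i, he⟩,
        fun i => (hloc i _ _ fun e he => ?_).trans (htop i)⟩
      · rintro ⟨i, hi⟩
        exact he i hi
      · exact if_pos ⟨i, he⟩)
  refine ⟨A, hA, fun i hi => ?_⟩
  have hle : ∀ y e, upd R (B i) y e = true → R e = true := by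
    intro y e h
    by_cases he : e ∈ B i
    · exact hR2 i hi e he
    · rwa [upd_notMem he] at h
  have hout : ∀ y e, (∀ j, e ∉ B j) → upd R (B i) y e = c e := by
    intro y e he
    rw [upd_notMem (he i)]
    exact hR1 e he
  have hφi : ∀ y, φ i (upd R (B i) y) = φ i y := fun y => hloc i _ _ fun e he => upd_mem he
  have hφj : ∀ y j, j ≠ i → φ j (upd R (B i) y) = true := by
    intro y j hj
    refine (hloc j _ _ fun e he => ?_).trans (hR3 j)
    exact upd_notMem fun h => hj (hmem he h)
  have hgoodR : ∀ u w, Good (guess C R u) C.gates R u w :=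
    good_guess C hN fun _ => rfl
  have hgood : ∀ y, φ i y = true → ∀ u w, Good (guess C R u) C.gates (upd R (B i) y) u w := by
    intro y hy
    apply good_guess C hN
    intro u
    refine num_eq_of_Phi C (hle y) ?_ u
    refine hmax i hi (upd R (B i) y) ⟨hout y, ?_, ?_⟩
    · intro j hj e he
      rw [Finset.mem_insert, not_or] at hj
      rw [upd_notMem fun h => hj.1 (hmem he h)]
      exact hR2 j hj.2 e he
    · intro j
      by_cases h : j = i
      · subst h
        rw [hφi, hy]
      · exact hφj y j h
  refine ⟨DD C R (B i), monSize_DD C R (B i), fun y => ?_⟩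
  constructor
  · intro hy
    have h1 : θ < acc C (upd R (B i) y) := by
      rw [hC _ (hout y)]
      intro j
      by_cases h : j = i
      · subst h
        rw [hφi, hy]
      · exact hφj y j h
    refine lt_of_lt_of_le h1 (Finset.card_le_card ?_)
    rintro ⟨u, w⟩ hp
    rw [Finset.mem_filter] at hp ⊢
    refine ⟨mem_univ _, ?_⟩
    have h2 : C.out.val (upd R (B i) y) u w (vals C.gates (upd R (B i) y) u w) = true := hp.2
    show (chkA (guess C R u) C.gates (upd R (B i) y) u w &&
      C.out.val (upd R (B i) y) u w (gvals (guess C R u) C.gates (upd R (B i) y) u w)) = true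
    rw [chkA_of_good (hgood y hy u w), (hgood y hy u w).gvals, h2]
    rfl
  · intro h1
    have h2 : θ < acc C (upd R (B i) y) := by
      refine lt_of_lt_of_le h1 (Finset.card_le_card ?_)
      rintro ⟨u, w⟩ hp
      rw [Finset.mem_filter] at hp ⊢
      refine ⟨mem_univ _, ?_⟩
      have h3 : (chkA (guess C R u) C.gates (upd R (B i) y) u w &&
        C.out.val (upd R (B i) y) u w
          (gvals (guess C R u) C.gates (upd R (B i) y) u w)) = true := hp.2
      rw [Bool.and_eq_true] at h3
      obtain ⟨h4, h5⟩ := h3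
      rw [keyA (hle y) (hgoodR u w) h4] at h5
      exact h5
    rw [hC _ (hout y)] at h2
    have h3 := h2 i
    rwa [hφi] at h3

end Pool.Agent.NPP
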